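import Pool.Agent.Y747.Avg
import Pool.Agent.Y747.CertU75

/-!
# Concentration of the normalised gaps in short intervals
-/

open Filter Set

namespace Pool.Agent.H792_Atoms.Conc

open Pool.Agent.Y747 (dl Np Lp Vf gk lb_one)
open Pool.Agent.TH873.EW (ct)

/-- the number of `n ≤ N` with `δ_n ∈ I` -/
noncomputable def cn (N : ℕ) (I : Set ℝ) : ℝ := ({n : ℕ | 1 ≤ n ∧ n ≤ N ∧ dl n ∈ I}.ncard : ℝ)

lemma cn_mono (N : ℕ) {I J : Set ℝ} (h : I ⊆ J) : cn N I ≤ cn N J := by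
  unfold cn
  have hfin : {n : ℕ | 1 ≤ n ∧ n ≤ N ∧ dl n ∈ J}.Finite :=
    (Set.finite_Icc 1 N).subset fun n hn => ⟨hn.1, hn.2.1⟩
  have hsub : {n : ℕ | 1 ≤ n ∧ n ≤ N ∧ dl n ∈ I} ⊆ {n : ℕ | 1 ≤ n ∧ n ≤ N ∧ dl n ∈ J} :=
    fun n hn => ⟨hn.1, hn.2.1, h hn.2.2⟩
  exact_mod_cast Set.ncard_le_ncard hsub hfin

lemma ipi : (0.02533 : ℝ) < 1 / (4 * Real.pi ^ 2) ∧ 1 / (4 * Real.pi ^ 2) < 0.025331 := by
  have h1 := Real.pi_gt_d6
  have h2 := Real.pi_lt_d6
  have h3 : 0 < Real.pi := Real.pi_pos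
  constructor
  · rw [lt_div_iff₀ (by positivity)]
    nlinarith
  · rw [div_lt_iff₀ (by positivity)]
    nlinarith

lemma pU75 (RH : RiemannHypothesis) : ∀ᶠ N : ℕ in atTop, cn N (Iic (3/4 : ℝ)) ≤ (0.7486 : ℝ) * N := by
  refine Y747.prop_le RH (c0 := (1211 / 1000)) (c1 := (-541 / 2000)) (c2 := (153 / 10000))
    (lam := 0) (κ := (3027 / 2500)) (fun p hp => Y747.np_U75 p hp) (by norm_num) _ ?_ ?_ ?_
  · intro x hx
    rcases le_total x (3/4) with h | h
    · have := Y747.sg_U75_0 x hx h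
      linarith
    · have := Y747.sg_U75_1 x h
      linarith
  · intro x hx hI
    rw [mem_Iic] at hI
    have := Y747.sg_U75_0 x hx hI
    linarith
  · obtain ⟨h1, h2⟩ := ipi
    have e : Y747.Vf (1211 / 1000) (-541 / 2000) (153 / 10000) = ((62777 / 30000) : ℝ) - (13147 / 2500) * (1 / (4 * Real.pi ^ 2)) := by
      unfold Y747.Vf
      ring
    rw [e]
    linarith

/-- windows from the kernels with `c0 = 0` -/
lemma win (RH : RiemannHypothesis) {c1 c2 lam θ a b : ℝ} (h1 : 0 ≤ c1) (h2 : 0 ≤ c2)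
    (hlam : 0 ≤ lam) (ha : 1 / 2 ≤ a) (hb : b ≤ 3 / 2)
    (hw : ∀ v : ℝ, a - 1 ≤ v → v ≤ b - 1 →
      (1 - lam * (1 + v)) * (2 + v) ^ 2 ≤ 2 * (c1 + c2 * (1 + v) ^ 2) * Lp v ^ 2)
    (hθ : (c1 + c2) / 2 - (3 * c1 + c2) * 0.02533 + lam < θ) :
    ∀ᶠ N : ℕ in atTop, cn N (Icc a b) ≤ θ * N := by
  obtain ⟨i1, i2⟩ := ipi
  have hN : ∀ p : ℝ, 0 ≤ p → 0 ≤ Np 0 c1 c2 p := by
    intro p hp
    unfold Y747.Np
    positivity
  refine Y747.prop_le RH (c0 := 0) (c1 := c1) (c2 := c2) (lam := lam) (κ := -lam) hN hlam _ ?_ ?_ ?_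
  · intro x hx
    have := Y747.ct_gk_nonneg hN x
    nlinarith
  · intro x _ hI
    rw [mem_Icc] at hI
    have hx0 : 0 < x := by linarith [hI.1]
    have hL : 0 ≤ Lp (x - 1) := Y747.Lp_nonneg (by
      rw [abs_le]
      constructor <;> linarith [hI.1, hI.2])
    have h3 := hw (x - 1) (by linarith [hI.1]) (by linarith [hI.2])
    have h4 := lb_one (c0 := 0) (c1 := c1) (c2 := c2) (x := x) (h := 1 - lam * x) hN hx0 hL (by
      unfold Y747.Np
      have e1 : (1 - lam * x) * (x ^ 2 * (1 + x) ^ 2) =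
          x ^ 2 * ((1 - lam * (1 + (x - 1))) * (2 + (x - 1)) ^ 2) := by ring
      have e2 : 2 * ((0 + c1 * x ^ 2 + c2 * (x ^ 2) ^ 2) * Lp (x - 1) ^ 2) =
          x ^ 2 * (2 * (c1 + c2 * (1 + (x - 1)) ^ 2) * Lp (x - 1) ^ 2) := by ring
      rw [e1, e2]
      exact mul_le_mul_of_nonneg_left h3 (sq_nonneg x))
    linarith
  · have e : Y747.Vf 0 c1 c2 = (c1 + c2) / 2 - (3 * c1 + c2) * (1 / (4 * Real.pi ^ 2)) := by
      unfold Y747.Vf
      ring
    rw [e]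
    have h5 : (3 * c1 + c2) * 0.02533 ≤ (3 * c1 + c2) * (1 / (4 * Real.pi ^ 2)) :=
      mul_le_mul_of_nonneg_left i1.le (by positivity)
    linarith

/-- Markov -/
lemma tail (RH : RiemannHypothesis) {a θ : ℝ} (ha : 0 < a) (hθ : 1 / a < θ) :
    ∀ᶠ N : ℕ in atTop, cn N (Ici a) ≤ θ * N := by
  have hN : ∀ p : ℝ, 0 ≤ p → 0 ≤ Np 0 0 0 p := by
    intro p hp
    unfold Y747.Np
    positivity
  refine Y747.prop_le RH (c0 := 0) (c1 := 0) (c2 := 0) (lam := 1 / a) (κ := -(1 / a)) hN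
    (by positivity) _ ?_ ?_ ?_
  · intro x hx
    have := Y747.ct_gk_nonneg hN x
    have h1 : 0 ≤ 1 / a * x := by positivity
    nlinarith
  · intro x hx hI
    rw [mem_Ici] at hI
    have := Y747.ct_gk_nonneg hN x
    have h1 : 1 ≤ 1 / a * x := by
      rw [one_div, inv_mul_eq_div, one_le_div ha]
      exact hI
    nlinarith
  · unfold Y747.Vf
    simp only [mul_zero, add_zero, zero_div, sub_self, sub_neg_eq_add, zero_add]
    exact hθ

lemma Lp_ge2 {v : ℝ} (h : |v| ≤ 1) : 1 - 164495 / 100000 * v ^ 2 ≤ Lp v := by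
  have h1 : v ^ 2 ≤ 1 := by
    rw [← sq_abs]
    have := abs_nonneg v
    nlinarith
  have h2 : 0 ≤ v ^ 2 := sq_nonneg v
  unfold Y747.Lp
  have e4 : v ^ 4 = (v ^ 2) ^ 2 := by ring
  have e6 : v ^ 6 = (v ^ 2) ^ 3 := by ring
  rw [e4, e6]
  generalize v ^ 2 = p at h1 h2
  nlinarith [mul_nonneg h2 h2, mul_nonneg (mul_nonneg h2 h2) (sub_nonneg.2 h1)]

lemma Lp_sq_ge {v : ℝ} (h : |v| ≤ 1 / 2) : 1 - 32899 / 10000 * v ^ 2 ≤ Lp v ^ 2 := by
  have h1 := Lp_ge2 (h.trans (by norm_num))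
  have h2 : v ^ 2 ≤ 1 / 4 := by
    rw [← sq_abs]
    have := abs_nonneg v
    nlinarith
  have h3 : 0 ≤ 1 - 164495 / 100000 * v ^ 2 := by linarith
  have h4 : (1 - 164495 / 100000 * v ^ 2) ^ 2 ≤ Lp v ^ 2 := by gcongr
  nlinarith [sq_nonneg (v ^ 2)]

/-- `[0.73, 1.06]` -/
lemma w1 (RH : RiemannHypothesis) : ∀ᶠ N : ℕ in atTop,
    cn N (Icc (73 / 100) (106 / 100)) ≤ (0.915 : ℝ) * N := by
  refine win RH (c1 := 215 / 100) (c2 := 0) (lam := 0) (by norm_num) le_rfl le_rfl (by norm_num)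
    (by norm_num) ?_ (by norm_num)
  intro v hv1 hv2
  have hv : |v| ≤ 1 := by rw [abs_le]; constructor <;> linarith
  have h1 := Lp_ge2 hv
  have h2 : 2 + v ≤ 2.0736 * Lp v := by
    have h3 : 0 ≤ (v + 27 / 100) * (6 / 100 - v) := mul_nonneg (by linarith) (by linarith)
    nlinarith
  have h3 : (2 + v) ^ 2 ≤ (2.0736 * Lp v) ^ 2 := by
    have : 0 ≤ 2 + v := by linarith
    gcongr
  have h4 : 0 ≤ Lp v ^ 2 := sq_nonneg _
  nlinarith

/-- `[1.04, 1.12]` -/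
lemma w2 (RH : RiemannHypothesis) : ∀ᶠ N : ℕ in atTop,
    cn N (Icc (104 / 100) (112 / 100)) ≤ (0.915 : ℝ) * N := by
  refine win RH (c1 := 4345 / 10000) (c2 := 15376 / 10000) (lam := 0) (by norm_num) (by norm_num)
    le_rfl (by norm_num) (by norm_num) ?_ (by norm_num)
  intro v hv1 hv2
  have hv : |v| ≤ 1 / 2 := by rw [abs_le]; constructor <;> linarith
  have h1 := Lp_sq_ge hv
  have h2 : 0 ≤ 2 * (4345 / 10000 + 15376 / 10000 * (1 + v) ^ 2) := by positivity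
  refine le_trans ?_ (mul_le_mul_of_nonneg_left h1 h2)
  have h3 : 0 ≤ (v - 4 / 100) * (12 / 100 - v) := mul_nonneg (by linarith) (by linarith)
  have h4 : 0 ≤ v := by linarith
  nlinarith [mul_nonneg h4 h3, mul_nonneg (mul_nonneg h4 h4) h3]

/-- `[0.74, 1.051]` -/
lemma w3 (RH : RiemannHypothesis) : ∀ᶠ N : ℕ in atTop,
    cn N (Icc (74 / 100) (1051 / 1000)) ≤ (0.91 : ℝ) * N := by
  refine win RH (c1 := 2125 / 1000) (c2 := 0) (lam := 0) (by norm_num) le_rfl le_rfl (by norm_num)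
    (by norm_num) ?_ (by norm_num)
  intro v hv1 hv2
  have hv : |v| ≤ 1 := by rw [abs_le]; constructor <;> linarith
  have h1 := Lp_ge2 hv
  have h2 : 2 + v ≤ 2.0615 * Lp v := by
    have h3 : 0 ≤ (v + 26 / 100) * (51 / 1000 - v) := mul_nonneg (by linarith) (by linarith)
    nlinarith
  have h3 : (2 + v) ^ 2 ≤ (2.0615 * Lp v) ^ 2 := by
    have : 0 ≤ 2 + v := by linarith
    gcongr
  have h4 : 0 ≤ Lp v ^ 2 := sq_nonneg _
  nlinarith

/-- `[1.05, 1.101]` -/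
lemma w4 (RH : RiemannHypothesis) : ∀ᶠ N : ℕ in atTop,
    cn N (Icc (105 / 100) (1101 / 1000)) ≤ (0.91 : ℝ) * N := by
  refine win RH (c1 := 4598 / 10000) (c2 := 15048 / 10000) (lam := 0) (by norm_num) (by norm_num)
    le_rfl (by norm_num) (by norm_num) ?_ (by norm_num)
  intro v hv1 hv2
  have hv : |v| ≤ 1 / 2 := by rw [abs_le]; constructor <;> linarith
  have h1 := Lp_sq_ge hv
  have h2 : 0 ≤ 2 * (4598 / 10000 + 15048 / 10000 * (1 + v) ^ 2) := by positivity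
  refine le_trans ?_ (mul_le_mul_of_nonneg_left h1 h2)
  have h3 : 0 ≤ (v - 5 / 100) * (101 / 1000 - v) := mul_nonneg (by linarith) (by linarith)
  have h4 : 0 ≤ v := by linarith
  nlinarith [mul_nonneg h4 h3, mul_nonneg (mul_nonneg h4 h4) h3]

/-- `[0.65, 1.05]` -/
lemma w5 (RH : RiemannHypothesis) : ∀ᶠ N : ℕ in atTop,
    cn N (Icc (65 / 100) (105 / 100)) ≤ (0.942 : ℝ) * N := by
  refine win RH (c1 := 2125 / 1000) (c2 := 0) (lam := 0) (by norm_num) le_rfl le_rfl (by norm_num)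
    (by norm_num) ?_ (by norm_num)
  intro v hv1 hv2
  have h2 : 2 + v ≤ 2.0615 * Lp v := by
    have h3 : 0 ≤ (v + 35 / 100) * (5 / 100 - v) := mul_nonneg (by linarith) (by linarith)
    have h5 : v ^ 2 ≤ 1225 / 10000 := by nlinarith
    have h6 : 0 ≤ v ^ 2 := sq_nonneg v
    unfold Y747.Lp
    have e4 : v ^ 4 = (v ^ 2) ^ 2 := by ring
    have e6 : v ^ 6 = (v ^ 2) ^ 3 := by ring
    rw [e4, e6]
    have h7 : (v ^ 2) ^ 3 ≤ 1225 / 10000 * (v ^ 2) ^ 2 := by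
      have : (v ^ 2) ^ 3 = v ^ 2 * (v ^ 2) ^ 2 := by ring
      rw [this]
      gcongr
    nlinarith [mul_nonneg h6 h3]
  have h3 : (2 + v) ^ 2 ≤ (2.0615 * Lp v) ^ 2 := by
    have : 0 ≤ 2 + v := by linarith
    gcongr
  have h4 : 0 ≤ Lp v ^ 2 := sq_nonneg _
  nlinarith

/-- `[0.95, 1.17]` -/
lemma w6 (RH : RiemannHypothesis) : ∀ᶠ N : ℕ in atTop,
    cn N (Icc (95 / 100) (117 / 100)) ≤ (0.942 : ℝ) * N := by
  refine win RH (c1 := 906 / 1000) (c2 := 0) (lam := 5575 / 10000) (by norm_num) le_rfl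
    (by norm_num) (by norm_num) (by norm_num) ?_ (by norm_num)
  intro v hv1 hv2
  have hv : |v| ≤ 1 / 2 := by rw [abs_le]; constructor <;> linarith
  have h1 := Lp_sq_ge hv
  have h2 : (0 : ℝ) ≤ 2 * (906 / 1000 + 0 * (1 + v) ^ 2) := by norm_num
  refine le_trans ?_ (mul_le_mul_of_nonneg_left h1 h2)
  have h3 : 0 ≤ (v + 5 / 100) * (17 / 100 - v) := mul_nonneg (by linarith) (by linarith)
  have h4 : 0 ≤ v + 5 / 100 := by linarith
  have h5 : 0 ≤ 17 / 100 - v := by linarith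
  nlinarith [mul_nonneg h4 h3, mul_nonneg h5 h3]

/-- intervals of length `1 / 1000` -/
theorem c1000 (RH : RiemannHypothesis) : ∀ᶠ N : ℕ in atTop, ∀ x : ℝ,
    cn N (Icc x (x + 1 / 1000)) ≤ (0.91 : ℝ) * N := by
  filter_upwards [pU75 RH, w3 RH, w4 RH, tail RH (a := 11 / 10) (θ := 0.91) (by norm_num)
    (by norm_num)] with N h1 h2 h3 h4 x
  have hN : (0 : ℝ) ≤ N := Nat.cast_nonneg N
  rcases le_total (x + 1 / 1000) (75 / 100) with h | h
  · refine (cn_mono N (J := Iic (3 / 4)) ?_).trans (h1.trans (by nlinarith))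
    intro y hy
    rw [mem_Icc] at hy
    rw [mem_Iic]
    linarith [hy.2]
  · rcases le_total (x + 1 / 1000) (1051 / 1000) with h' | h'
    · refine (cn_mono N (Icc_subset_Icc ?_ h')).trans h2
      linarith
    · rcases le_total x (11 / 10) with h'' | h''
      · refine (cn_mono N (Icc_subset_Icc ?_ ?_)).trans h3 <;> linarith
      · refine (cn_mono N (J := Ici (11 / 10)) ?_).trans h4
        intro y hy
        rw [mem_Icc] at hy
        rw [mem_Ici]
        linarith [hy.1]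

/-- intervals of length `1 / 50` -/
theorem c50 (RH : RiemannHypothesis) : ∀ᶠ N : ℕ in atTop, ∀ x : ℝ,
    cn N (Icc x (x + 1 / 50)) ≤ (0.915 : ℝ) * N := by
  filter_upwards [pU75 RH, w1 RH, w2 RH, tail RH (a := 11 / 10) (θ := 0.915) (by norm_num)
    (by norm_num)] with N h1 h2 h3 h4 x
  have hN : (0 : ℝ) ≤ N := Nat.cast_nonneg N
  rcases le_total (x + 1 / 50) (75 / 100) with h | h
  · refine (cn_mono N (J := Iic (3 / 4)) ?_).trans (h1.trans (by nlinarith))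
    intro y hy
    rw [mem_Icc] at hy
    rw [mem_Iic]
    linarith [hy.2]
  · rcases le_total (x + 1 / 50) (106 / 100) with h' | h'
    · refine (cn_mono N (Icc_subset_Icc ?_ h')).trans h2
      linarith
    · rcases le_total x (11 / 10) with h'' | h''
      · refine (cn_mono N (Icc_subset_Icc ?_ ?_)).trans h3 <;> linarith
      · refine (cn_mono N (J := Ici (11 / 10)) ?_).trans h4
        intro y hy
        rw [mem_Icc] at hy
        rw [mem_Ici]
        linarith [hy.1]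

/-- intervals of length `1 / 10` -/
theorem c10 (RH : RiemannHypothesis) : ∀ᶠ N : ℕ in atTop, ∀ x : ℝ,
    cn N (Icc x (x + 1 / 10)) ≤ (0.942 : ℝ) * N := by
  filter_upwards [pU75 RH, w5 RH, w6 RH, tail RH (a := 107 / 100) (θ := 0.942) (by norm_num)
    (by norm_num)] with N h1 h2 h3 h4 x
  have hN : (0 : ℝ) ≤ N := Nat.cast_nonneg N
  rcases le_total (x + 1 / 10) (75 / 100) with h | h
  · refine (cn_mono N (J := Iic (3 / 4)) ?_).trans (h1.trans (by nlinarith))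
    intro y hy
    rw [mem_Icc] at hy
    rw [mem_Iic]
    linarith [hy.2]
  · rcases le_total (x + 1 / 10) (105 / 100) with h' | h'
    · refine (cn_mono N (Icc_subset_Icc ?_ h')).trans h2
      linarith
    · rcases le_total x (107 / 100) with h'' | h''
      · refine (cn_mono N (Icc_subset_Icc ?_ ?_)).trans h3 <;> linarith
      · refine (cn_mono N (J := Ici (107 / 100)) ?_).trans h4
        intro y hy
        rw [mem_Icc] at hy
        rw [mem_Ici]
        linarith [hy.1]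

end Pool.Agent.H792_Atoms.Conc
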