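import Pool.Agent.H792_Atoms.Quad
import Pool.Agent.Y747.Blk

/-!
# Runs of normalised gaps near `1`
-/

open Filter Set

namespace Pool.Agent.H792_Atoms

open SG (ord)
open W200.HW (Ix mem_Ix)
open Pool.Agent.Y747 (dl)

/-- the indices `n ≤ N` for which `j` consecutive normalised gaps, starting with the `n`-th one,
are within `ε` of `1` -/
noncomputable def Rn (N : ℕ) (ε : ℝ) (j : ℕ) : Finset ℕ :=
  open Classical in (Finset.Icc 1 N).filter (fun n => ∀ i, i < j → |dl (n + i) - 1| ≤ ε)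

/-- lower bound for the ordinates -/
lemma idx_le {L : ℝ} (hed : Edge L) {n : ℕ} (_hn : 1 ≤ n) (h3 : 3 ≤ ord n) :
    (n : ℝ) ≤ L * Real.log (ord n) * (ord n + 1) := by
  have h1 := hed (ord n) h3 0 (ord n) (by linarith)
  have h2 : Finset.Icc 1 n ⊆ (Ix (ord n)).filter (fun m => 0 < ord m ∧ ord m ≤ ord n) := by
    intro m hm
    rw [Finset.mem_Icc] at hm
    rw [Finset.mem_filter, mem_Ix]
    have h4 : ord m ≤ ord n := SG.ord_mono hm.1 hm.2
    exact ⟨⟨hm.1, h4⟩, SG.ord_pos hm.1, h4⟩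
  have h3 : ((Finset.Icc 1 n).card : ℝ) ≤
      (((Ix (ord n)).filter (fun m => 0 < ord m ∧ ord m ≤ ord n)).card : ℝ) := by
    exact_mod_cast Finset.card_le_card h2
  rw [Nat.card_Icc, Nat.add_sub_cancel] at h3
  calc (n : ℝ) ≤ _ := h3
    _ ≤ _ := h1
    _ = _ := by ring

/-- comparison of the logarithms -/
lemma ratio (hRH : RiemannHypothesis) (K : ℕ) {κ κ1 : ℝ} (hκ : 0 < κ) (hκ1 : 0 < κ1) :
    ∀ᶠ N : ℕ in atTop, 0 < Real.log (ord (N + K + 1)) ∧
      ∀ n : ℕ, κ * N ≤ n → 1 ≤ n → n ≤ N + K →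
        0 < Real.log (ord n / (2 * Real.pi)) ∧
        Real.log (ord n / (2 * Real.pi)) ≤ Real.log (ord (N + K + 1)) ∧
        Real.log (ord (N + K + 1)) ≤ (1 + κ1) * Real.log (ord n / (2 * Real.pi)) := by
  have hpi := Real.pi_gt_three
  have hpi4 := Real.pi_lt_four
  obtain ⟨L, hL, hed⟩ := Pool.Agent.Y747.edge hRH
  set θ : ℝ := κ1 / (2 * (1 + κ1)) with hθ
  have hθ0 : 0 < θ := by positivity
  -- constants
  set D : ℝ := 64 * L * Real.pi ^ 2 / κ with hD
  have hD0 : 0 < D := by positivity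
  have hlim : Tendsto (fun N : ℕ => ord (N + K + 1)) atTop atTop :=
    SG.ord_tendsto.comp (tendsto_add_atTop_nat (K + 1))
  have hlogT : Tendsto (fun N : ℕ => Real.log (ord (N + K + 1))) atTop atTop :=
    Real.tendsto_log_atTop.comp hlim
  have ev1 : ∀ᶠ ℓ : ℝ in atTop, Real.log ℓ ≤ θ * ℓ := by
    have h2 := (Real.isLittleO_log_id_atTop).bound (c := θ) hθ0
    filter_upwards [h2, eventually_gt_atTop 0] with ℓ h3 h4
    rw [Real.norm_eq_abs, Real.norm_eq_abs, id, abs_of_pos h4] at h3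
    exact (le_abs_self _).trans h3
  have evn : ∀ᶠ n : ℕ in atTop, 3 ≤ ord n := SG.ord_tendsto.eventually_ge_atTop 3
  obtain ⟨n0, hn0⟩ := evn.exists_forall_of_atTop
  have evN : ∀ᶠ N : ℕ in atTop, (n0 : ℝ) / κ ≤ N := tendsto_natCast_atTop_atTop.eventually_ge_atTop _
  have hTle := (W249.TCF.T_le 1 one_pos le_rfl)
  have hTle' := (tendsto_add_atTop_nat K).eventually hTle
  filter_upwards [hlim.eventually_ge_atTop 10, hlogT.eventually ev1,
    hlogT.eventually_ge_atTop (1 + |Real.log D| / θ), evN, eventually_ge_atTop (K + 1), hTle']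
    with N h10 hl1 hl2 hN hNK hT
  set T := ord (N + K + 1) with hTd
  have hT0 : 0 < T := by linarith
  have habs : 0 ≤ |Real.log D| / θ := by positivity
  have hℓ1 : 1 ≤ Real.log T := by linarith
  refine ⟨by linarith, fun n hn1 hn2 hn3 => ?_⟩
  have hn0' : n0 ≤ n := by
    rw [div_le_iff₀ hκ] at hN
    have : (n0 : ℝ) ≤ n := by linarith
    exact_mod_cast this
  have ht3 : 3 ≤ ord n := hn0 n hn0'
  set t := ord n with htd
  have htT : t ≤ T := SG.ord_mono hn2 (by omega)
  have hidx := idx_le hed hn2 ht3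
  have hlt : Real.log t ≤ Real.log T := Real.log_le_log (by linarith) htT
  have hlt0 : 0 < Real.log t := Real.log_pos (by linarith)
  -- `T ≤ 8 π N`
  have hNK' : ((N + K : ℕ) : ℝ) ≤ 2 * N := by
    have : N + K ≤ 2 * N := by omega
    exact_mod_cast this
  have hTN : T ≤ 8 * Real.pi * N := by
    have e1 : T * Real.log T / (2 * Real.pi) ≤ (1 + 1) * ((N + K : ℕ) : ℝ) := hT
    rw [div_le_iff₀ (by positivity)] at e1
    nlinarith
  -- lower bound for `t`
  have h5 : κ * N ≤ 2 * L * Real.log T * t := by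
    calc κ * N ≤ n := hn1
      _ ≤ L * Real.log t * (t + 1) := hidx
      _ ≤ L * Real.log T * (2 * t) := by
        gcongr
        linarith
      _ = _ := by ring
  have h6 : T ≤ D * Real.log T * (t / (2 * Real.pi)) := by
    have h7 : κ * T ≤ 8 * Real.pi * (2 * L * Real.log T * t) := by
      calc κ * T ≤ κ * (8 * Real.pi * N) := by gcongr
        _ = 8 * Real.pi * (κ * N) := by ring
        _ ≤ _ := by gcongr
    have e2 : D * Real.log T * (t / (2 * Real.pi)) = 32 * Real.pi * L * Real.log T * t / κ := by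
      rw [hD]
      field_simp
      ring
    rw [e2, le_div_iff₀ hκ]
    have h8 : 0 ≤ Real.pi * L * Real.log T * t := by positivity
    nlinarith
  have h7 : Real.log T ≤ Real.log D + Real.log (Real.log T) + Real.log (t / (2 * Real.pi)) := by
    have h8 := Real.log_le_log hT0 h6
    rw [Real.log_mul (by positivity) (by positivity), Real.log_mul (by positivity) (by positivity)] at h8
    exact h8
  have h8 : |Real.log D| ≤ θ * Real.log T := by
    have : |Real.log D| / θ ≤ Real.log T := by linarith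
    rw [div_le_iff₀ hθ0] at this
    linarith
  have h9 : (1 - 2 * θ) * Real.log T ≤ Real.log (t / (2 * Real.pi)) := by
    have := le_abs_self (Real.log D)
    linarith
  have e3 : 1 - 2 * θ = 1 / (1 + κ1) := by
    rw [hθ]
    field_simp
    ring
  rw [e3, one_div, inv_mul_eq_div, div_le_iff₀ (by positivity)] at h9
  have h10' : 0 < Real.log (t / (2 * Real.pi)) := by
    by_contra h
    rw [not_lt] at h
    nlinarith
  refine ⟨h10', ?_, by linarith⟩
  apply Real.log_le_log (by positivity)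
  rw [div_le_iff₀ (by positivity)]
  nlinarith

/-- from runs of gaps near `1` to pairs -/
lemma runs_pairs (hRH : RiemannHypothesis) (K : ℕ) {κ e : ℝ} (hκ : 0 < κ)
    (he : 0 < e) : ∃ ε : ℝ, 0 < ε ∧ ∀ᶠ N : ℕ in atTop, ∀ j ∈ Finset.Icc 1 K,
      ((Rn N ε j).card : ℝ) ≤ 2 * κ * N + (NP (ord (N + K + 1)) (j - e) (j + e) : ℝ) := by
  classical
  have hpi := Real.pi_pos
  set κ1 : ℝ := min 1 (e / (2 * (K + 1))) with hκ1d
  have hκ10 : 0 < κ1 := lt_min one_pos (by positivity)
  have hκ11 : κ1 ≤ 1 := min_le_left _ _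
  have hκ12 : κ1 ≤ e / (2 * (K + 1)) := min_le_right _ _
  refine ⟨e / (4 * (K + 1)), by positivity, ?_⟩
  set ε : ℝ := e / (4 * (K + 1)) with hε
  have hε0 : 0 < ε := by positivity
  have ev1 : ∀ᶠ N : ℕ in atTop, 1 / κ ≤ (N : ℝ) := tendsto_natCast_atTop_atTop.eventually_ge_atTop _
  filter_upwards [ratio hRH K hκ hκ10, ev1] with N hN hN1 j hj
  obtain ⟨hlT, hrat⟩ := hN
  have hj' := Finset.mem_Icc.1 hj
  have hjK : (j : ℝ) ≤ K := by exact_mod_cast hj'.2
  set T := ord (N + K + 1) with hT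
  -- the small indices
  have hsplit := Finset.card_filter_add_card_filter_not (s := Rn N ε j)
    (fun n : ℕ => κ * (N : ℝ) ≤ n)
  have hsmall : (((Rn N ε j).filter (fun n : ℕ => ¬ κ * (N : ℝ) ≤ n)).card : ℝ) ≤ 2 * κ * N := by
    have hsub : (Rn N ε j).filter (fun n : ℕ => ¬ κ * (N : ℝ) ≤ n) ⊆
        Finset.Icc 1 ⌈κ * (N : ℝ)⌉₊ := by
      intro n hn
      rw [Finset.mem_filter, not_le] at hn
      obtain ⟨h1, h2⟩ := hn
      unfold Rn at h1
      rw [Finset.mem_filter, Finset.mem_Icc] at h1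
      rw [Finset.mem_Icc]
      refine ⟨h1.1.1, ?_⟩
      have h3 : (n : ℝ) ≤ (⌈κ * (N : ℝ)⌉₊ : ℝ) := h2.le.trans (Nat.le_ceil _)
      exact_mod_cast h3
    have h1 := Finset.card_le_card hsub
    rw [Nat.card_Icc, Nat.add_sub_cancel] at h1
    have h2 : (((Rn N ε j).filter (fun n : ℕ => ¬ κ * (N : ℝ) ≤ n)).card : ℝ) ≤
        (⌈κ * (N : ℝ)⌉₊ : ℝ) := by exact_mod_cast h1
    have h3 := (Nat.ceil_lt_add_one (by positivity : 0 ≤ κ * (N : ℝ))).le
    rw [div_le_iff₀ hκ] at hN1
    linarith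
  have hbig : (((Rn N ε j).filter (fun n : ℕ => κ * (N : ℝ) ≤ n)).card : ℝ) ≤
      (NP T (j - e) (j + e) : ℝ) := by
    rw [NP_eq hlT j]
    have : ((Rn N ε j).filter (fun n : ℕ => κ * (N : ℝ) ≤ n)).card ≤
        ((Ix T ×ˢ Ix T).filter (fun p : ℕ × ℕ =>
          |(ord p.1 - ord p.2) * Real.log T / (2 * Real.pi) - j| ≤ e)).card := by
      apply Finset.card_le_card_of_injOn (fun n => (n + j, n))
      · intro n hn
        rw [Finset.mem_coe, Finset.mem_filter] at hn
        obtain ⟨h1, h2⟩ := hn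
        unfold Rn at h1
        rw [Finset.mem_filter, Finset.mem_Icc] at h1
        obtain ⟨⟨n1, n2⟩, n3⟩ := h1
        rw [Finset.mem_coe, Finset.mem_filter, Finset.mem_product, mem_Ix, mem_Ix]
        refine ⟨⟨⟨by simp only; omega, SG.ord_mono (by simp only; omega) (by simp only; omega)⟩,
          ⟨n1, SG.ord_mono n1 (by simp only; omega)⟩⟩, ?_⟩
        simp only
        -- the telescoping sum
        have key : ∀ i : ℕ, i ≤ j → |(ord (n + i) - ord n) * Real.log T / (2 * Real.pi) - i| ≤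
            i * (e / (K + 1)) := by
          intro i
          induction i with
          | zero => intro _; simp
          | succ i ih =>
            intro hi
            have h3 := ih (by omega)
            have h4 := n3 i (by omega)
            have hle : κ * (N : ℝ) ≤ ((n + i : ℕ) : ℝ) := by
              refine h2.trans ?_
              exact_mod_cast Nat.le_add_right n i
            obtain ⟨r1, r2, r3⟩ := hrat (n + i) hle (by omega) (by omega)
            set ℓ := Real.log (ord (n + i) / (2 * Real.pi)) with hℓ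
            set x := (ord (n + (i + 1)) - ord (n + i)) * Real.log T / (2 * Real.pi) with hx
            have hdl : dl (n + i) = (ord (n + (i + 1)) - ord (n + i)) / (2 * Real.pi) * ℓ := rfl
            have hxe : x = dl (n + i) * (Real.log T / ℓ) := by
              rw [hx, hdl]
              field_simp
            have hq1 : 1 ≤ Real.log T / ℓ := by rw [le_div_iff₀ r1]; linarith
            have hq2 : Real.log T / ℓ ≤ 1 + κ1 := by rw [div_le_iff₀ r1]; exact r3
            have hx1 : |x - 1| ≤ e / (K + 1) := by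
              have e1 : x - 1 = (dl (n + i) - 1) * (Real.log T / ℓ) + (Real.log T / ℓ - 1) := by
                rw [hxe]; ring
              rw [e1]
              refine (abs_add_le _ _).trans ?_
              rw [abs_mul, abs_of_nonneg (by linarith : 0 ≤ Real.log T / ℓ),
                abs_of_nonneg (by linarith : 0 ≤ Real.log T / ℓ - 1)]
              have h5 : |dl (n + i) - 1| * (Real.log T / ℓ) ≤ ε * 2 := by
                apply mul_le_mul h4 (by linarith) (by linarith) hε0.le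
              have h6 : ε * 2 + e / (2 * (K + 1)) = e / (K + 1) := by
                rw [hε]
                field_simp
                norm_num
              linarith
            have e2 : (ord (n + (i + 1)) - ord n) * Real.log T / (2 * Real.pi) - ((i + 1 : ℕ) : ℝ) =
                ((ord (n + i) - ord n) * Real.log T / (2 * Real.pi) - i) + (x - 1) := by
              rw [hx]
              push_cast
              ring
            rw [e2]
            refine (abs_add_le _ _).trans ?_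
            push_cast
            linarith
        refine (key j le_rfl).trans ?_
        rw [← mul_div_assoc, div_le_iff₀ (by positivity)]
        nlinarith
      · intro a _ b _ hab
        exact (Prod.mk.inj hab).2
    exact_mod_cast this
  have hcard : ((Rn N ε j).card : ℝ) =
      (((Rn N ε j).filter (fun n : ℕ => κ * (N : ℝ) ≤ n)).card : ℝ) +
      (((Rn N ε j).filter (fun n : ℕ => ¬ κ * (N : ℝ) ≤ n)).card : ℝ) := by
    exact_mod_cast hsplit.symm
  rw [hcard]
  linarith

/-- the quadratic inequality for runs of gaps -/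
theorem gap_quad (hRH : RiemannHypothesis) (K : ℕ) (q : ℕ → ℝ)
    (h : ∀ ε : ℝ, 0 < ε → ∃ᶠ N : ℕ in atTop, ∀ j ∈ Finset.Icc 1 K, q j * N ≤ (Rn N ε j).card)
    (x : ℕ → ℝ) : ∑ k ∈ Finset.Icc 1 K, q k * x k ^ 2 ≤
      ∑ k ∈ Finset.Icc 1 K, x k ^ 2 * (1 - 1 / (2 * Real.pi ^ 2 * (k : ℝ) ^ 2)) -
      1 / Real.pi ^ 2 * (∑ k ∈ Finset.Icc 1 K, x k / k) ^ 2 := by
  classical
  have hpi := Real.pi_pos
  set R := ∑ k ∈ Finset.Icc 1 K, x k ^ 2 * (1 - 1 / (2 * Real.pi ^ 2 * (k : ℝ) ^ 2)) -
      1 / Real.pi ^ 2 * (∑ k ∈ Finset.Icc 1 K, x k / k) ^ 2 with hR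
  have hX : 0 ≤ ∑ k ∈ Finset.Icc 1 K, x k ^ 2 := Finset.sum_nonneg fun k _ => sq_nonneg _
  apply le_of_forall_pos_le_add
  intro η hη
  set κ : ℝ := min 1 (η / (2 * ∑ k ∈ Finset.Icc 1 K, x k ^ 2 + 3 * |R| + 1)) with hκd
  have hκ0 : 0 < κ := lt_min one_pos (by positivity)
  have hκ1 : κ ≤ 1 := min_le_left _ _
  have hκ2 : κ * (2 * ∑ k ∈ Finset.Icc 1 K, x k ^ 2 + 3 * |R| + 1) ≤ η := by
    have : κ ≤ η / (2 * ∑ k ∈ Finset.Icc 1 K, x k ^ 2 + 3 * |R| + 1) := min_le_right _ _
    rwa [le_div_iff₀ (by positivity)] at this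
  set m : ℕ → ℝ := fun k => max 0 ((q k - 2 * κ) / (1 + 3 * κ)) with hm
  have hm0 : ∀ k, 0 ≤ m k := fun k => le_max_left _ _
  have hfreq : ∀ e : ℝ, 0 < e → ∃ᶠ T : ℝ in atTop, ∀ k ∈ Finset.Icc 1 K,
      m k * (T / (2 * Real.pi) * Real.log T) ≤ NP T (k - e) (k + e) := by
    intro e he
    obtain ⟨ε, hε, hev⟩ := runs_pairs hRH K hκ0 he
    have hlim : Tendsto (fun N : ℕ => ord (N + K + 1)) atTop atTop :=
      SG.ord_tendsto.comp (tendsto_add_atTop_nat (K + 1))
    have hTle := (tendsto_add_atTop_nat K).eventually (W249.TCF.T_le κ hκ0 hκ1)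
    have ev1 : ∀ᶠ N : ℕ in atTop, 2 * K / κ ≤ (N : ℝ) :=
      tendsto_natCast_atTop_atTop.eventually_ge_atTop _
    have hf : ∃ᶠ N : ℕ in atTop, ∀ k ∈ Finset.Icc 1 K,
        m k * (ord (N + K + 1) / (2 * Real.pi) * Real.log (ord (N + K + 1))) ≤
          NP (ord (N + K + 1)) (k - e) (k + e) := by
      refine ((h ε hε).and_eventually ((hev.and hTle).and ev1)).mono ?_
      rintro N ⟨h1, ⟨h2, h3⟩, h4⟩ k hk
      have h5 := h1 k hk
      have h6 := h2 k hk
      set T := ord (N + K + 1) with hT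
      have h3' : T * Real.log T / (2 * Real.pi) ≤ (1 + κ) * ((N + K : ℕ) : ℝ) := h3
      have hNn : (0 : ℝ) ≤ N := Nat.cast_nonneg N
      have h7 : T / (2 * Real.pi) * Real.log T ≤ (1 + 3 * κ) * N := by
        rw [div_le_iff₀ hκ0] at h4
        push_cast at h3'
        have e1 : T / (2 * Real.pi) * Real.log T = T * Real.log T / (2 * Real.pi) := by ring
        rw [e1]
        have hKn : (0 : ℝ) ≤ K := Nat.cast_nonneg K
        nlinarith
      rcases le_total ((q k - 2 * κ) / (1 + 3 * κ)) 0 with h8 | h8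
      · have : m k = 0 := max_eq_left h8
        rw [this, zero_mul]
        exact Nat.cast_nonneg _
      · have h9 : m k = (q k - 2 * κ) / (1 + 3 * κ) := max_eq_right h8
        calc m k * (T / (2 * Real.pi) * Real.log T) ≤ m k * ((1 + 3 * κ) * N) :=
              mul_le_mul_of_nonneg_left h7 (hm0 k)
          _ = (q k - 2 * κ) * N := by
              rw [h9]
              field_simp
          _ ≤ _ := by linarith
    exact hlim.frequently hf
  have h1 := quad hRH K m hm0 hfreq x
  rw [← hR] at h1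
  have h2 : ∑ k ∈ Finset.Icc 1 K, q k * x k ^ 2 ≤
      2 * κ * ∑ k ∈ Finset.Icc 1 K, x k ^ 2 + (1 + 3 * κ) * ∑ k ∈ Finset.Icc 1 K, m k * x k ^ 2 := by
    rw [Finset.mul_sum, Finset.mul_sum, ← Finset.sum_add_distrib]
    apply Finset.sum_le_sum
    intro k _
    have h3 : (q k - 2 * κ) / (1 + 3 * κ) ≤ m k := le_max_right _ _
    rw [div_le_iff₀ (by positivity)] at h3
    have h4 : q k ≤ 2 * κ + (1 + 3 * κ) * m k := by linarith
    calc q k * x k ^ 2 ≤ (2 * κ + (1 + 3 * κ) * m k) * x k ^ 2 :=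
          mul_le_mul_of_nonneg_right h4 (sq_nonneg _)
      _ = _ := by ring
  have h3 : (1 + 3 * κ) * ∑ k ∈ Finset.Icc 1 K, m k * x k ^ 2 ≤ (1 + 3 * κ) * R :=
    mul_le_mul_of_nonneg_left h1 (by positivity)
  have h4 : (1 + 3 * κ) * R ≤ R + 3 * κ * |R| := by
    have := le_abs_self R
    nlinarith
  nlinarith

end Pool.Agent.H792_Atoms
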