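import Pool.Agent.TH873.EW.Mom
import Pool.Agent.TH873.EW.Fam

/-!
# Band-limited kernels with prescribed values at the integers

For real numbers `x 1, …, x L` the kernel
`r(u) = (4 / π²) sin² (π u) (∑ k x_k / (k² - u²))²` is even, non-negative, vanishes at `0`,
takes the value `x_k ^ 2` at `k` and its cosine transform `g` is supported in `[-1, 1]`.
-/

open MeasureTheory Set

namespace Pool.Agent.H792_Atoms

open Pool.Agent.TH873.EW (ct mom g1 g2 HI SS ct_g1 ct_g2 mom_g1 mom_g2 int_sin_mul int_lin_cos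
  ct_add ct_smul mom_add mom_smul cont_g1 cont_g2 ct_cont)

lemma cd_g1 (ν : ℝ) : ContDiff ℝ 1 (g1 ν) := by unfold Pool.Agent.TH873.EW.g1; fun_prop
lemma cd_g2 (ν : ℝ) : ContDiff ℝ 1 (g2 ν) := by unfold Pool.Agent.TH873.EW.g2; fun_prop

/-- a combination of the basic kernels -/
noncomputable def GK (s : Finset ℕ) (A B : ℕ → ℝ) (t : ℝ) : ℝ :=
  ∑ k ∈ s, (A k * g2 k t + B k * g1 k t)

lemma GK_cont (s : Finset ℕ) (A B : ℕ → ℝ) : Continuous (GK s A B) := by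
  unfold GK
  refine continuous_finsetSum _ fun k _ => ?_
  exact (continuous_const.mul (cont_g2 _)).add (continuous_const.mul (cont_g1 _))

lemma hi_nat {k : ℕ} (hk : 1 ≤ k) : HI (k : ℝ) := ⟨2 * k, by omega, by push_cast; ring⟩

lemma ct_GK (s : Finset ℕ) (A B : ℕ → ℝ) (x : ℝ) :
    ct (GK s A B) x = ∑ k ∈ s, (A k * ct (g2 k) x + B k * ct (g1 k) x) := by
  classical
  induction s using Finset.induction_on with
  | empty => simp [GK, Pool.Agent.TH873.EW.ct]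
  | insert a s ha ih =>
    have e : GK (insert a s) A B = fun t => (fun t => A a * g2 a t + B a * g1 a t) t +
        GK s A B t := by
      funext t
      unfold GK
      rw [Finset.sum_insert ha]
    have c1 : Continuous fun t : ℝ => A a * g2 a t := continuous_const.mul (cont_g2 _)
    have c2 : Continuous fun t : ℝ => B a * g1 a t := continuous_const.mul (cont_g1 _)
    have c3 : Continuous fun t : ℝ => A a * g2 a t + B a * g1 a t := c1.add c2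
    rw [e, ct_add c3 (GK_cont s A B), ih, Finset.sum_insert ha, ct_add c1 c2, ct_smul,
      ct_smul]

lemma mom_GK (s : Finset ℕ) (A B : ℕ → ℝ) :
    mom (GK s A B) = ∑ k ∈ s, (A k * mom (g2 k) + B k * mom (g1 k)) := by
  classical
  induction s using Finset.induction_on with
  | empty => simp [GK, Pool.Agent.TH873.EW.mom]
  | insert a s ha ih =>
    have e : GK (insert a s) A B = fun t => (fun t => A a * g2 a t + B a * g1 a t) t +
        GK s A B t := by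
      funext t
      unfold GK
      rw [Finset.sum_insert ha]
    have c1 : Continuous fun t : ℝ => A a * g2 a t := continuous_const.mul (cont_g2 _)
    have c2 : Continuous fun t : ℝ => B a * g1 a t := continuous_const.mul (cont_g1 _)
    have c3 : Continuous fun t : ℝ => A a * g2 a t + B a * g1 a t := c1.add c2
    rw [e, mom_add c3 (GK_cont s A B), ih, Finset.sum_insert ha, mom_add c1 c2, mom_smul,
      mom_smul]

lemma SS_nat (k : ℕ) (x : ℝ) : SS k x = Real.sin (Real.pi * x) ^ 2 := by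
  unfold Pool.Agent.TH873.EW.SS
  have e : Real.pi * ((k : ℝ) - x) = k * Real.pi - Real.pi * x := by ring
  rw [e, Real.sin_sub, Real.sin_nat_mul_pi, zero_mul, zero_sub, neg_sq, mul_pow]
  have h1 : Real.cos (k * Real.pi) ^ 2 = 1 := by
    have := Real.sin_sq_add_cos_sq (k * Real.pi)
    rw [Real.sin_nat_mul_pi] at this
    nlinarith
  rw [h1, one_mul]

lemma sin_nat (j : ℕ) : Real.sin (Real.pi * j) = 0 := by
  rw [mul_comm]; exact Real.sin_nat_mul_pi j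

lemma sq_ne {k j : ℕ} (h : k ≠ j) : (k : ℝ) ^ 2 - (j : ℝ) ^ 2 ≠ 0 := by
  intro h0
  apply h
  have h1 : (k : ℝ) ^ 2 = (j : ℝ) ^ 2 := by linarith
  have h2 : k ^ 2 = j ^ 2 := by exact_mod_cast h1
  exact Nat.pow_left_injective (n := 2) (by norm_num) h2

lemma ct_g1_nat {k j : ℕ} (hk : 1 ≤ k) : ct (g1 k) j = 0 := by
  have hk0 : (0 : ℝ) < k := by exact_mod_cast hk
  have hpi := Real.pi_pos
  by_cases h : k = j
  · subst h
    have hc : 4 * (Real.pi * (k : ℝ)) ≠ 0 := by positivity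
    have e : ∀ t : ℝ, g1 k t * Real.cos (2 * Real.pi * k * t) =
        Real.pi / (4 * k) * Real.sin (4 * (Real.pi * (k : ℝ)) * t) := by
      intro t
      have e1 : 4 * (Real.pi * (k : ℝ)) * t = 2 * (2 * Real.pi * k * t) := by ring
      rw [e1, Real.sin_two_mul]
      unfold Pool.Agent.TH873.EW.g1
      field_simp
      ring
    unfold Pool.Agent.TH873.EW.ct
    simp_rw [e]
    rw [intervalIntegral.integral_const_mul, int_sin_mul hc]
    have e2 : Real.cos (4 * (Real.pi * (k : ℝ))) = 1 := by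
      rw [show 4 * (Real.pi * (k : ℝ)) = ((2 * k : ℕ) : ℝ) * (2 * Real.pi) by push_cast; ring]
      exact Real.cos_nat_mul_two_pi _
    rw [e2]
    simp
  · rw [ct_g1 (hi_nat hk) (sq_ne h), SS_nat, sin_nat]
    simp

lemma ct_g2_ne {k j : ℕ} (hk : 1 ≤ k) (h : k ≠ j) : ct (g2 k) j = 0 := by
  rw [ct_g2 (hi_nat hk) (sq_ne h), SS_nat, sin_nat]
  simp

lemma ct_g2_self {k : ℕ} (hk : 1 ≤ k) : ct (g2 k) k = Real.pi ^ 2 / (4 * (k : ℝ) ^ 2) := by
  have hk0 : (0 : ℝ) < k := by exact_mod_cast hk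
  have hpi := Real.pi_pos
  have hc : 4 * (Real.pi * (k : ℝ)) ≠ 0 := by positivity
  have e : ∀ t : ℝ, g2 k t * Real.cos (2 * Real.pi * k * t) =
      Real.pi ^ 2 / (4 * (k : ℝ) ^ 2) * ((1 - t) + (1 - t) * Real.cos (4 * (Real.pi * (k : ℝ)) * t)) +
        Real.pi / (8 * (k : ℝ) ^ 3) * Real.sin (4 * (Real.pi * (k : ℝ)) * t) := by
    intro t
    have e1 : 4 * (Real.pi * (k : ℝ)) * t = 2 * (2 * Real.pi * k * t) := by ring
    rw [e1, Real.sin_two_mul, Real.cos_two_mul]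
    unfold Pool.Agent.TH873.EW.g2
    field_simp
    ring
  have c1 : Continuous fun t : ℝ => (1 - t) * Real.cos (4 * (Real.pi * (k : ℝ)) * t) := by fun_prop
  have c2 : Continuous fun t : ℝ => Real.sin (4 * (Real.pi * (k : ℝ)) * t) := by fun_prop
  have c3 : Continuous fun t : ℝ => Real.pi ^ 2 / (4 * (k : ℝ) ^ 2) *
    ((1 - t) + (1 - t) * Real.cos (4 * (Real.pi * (k : ℝ)) * t)) := by fun_prop
  have c4 : Continuous fun t : ℝ => Real.pi / (8 * (k : ℝ) ^ 3) *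
    Real.sin (4 * (Real.pi * (k : ℝ)) * t) := by fun_prop
  have c5 : Continuous fun t : ℝ => 1 - t := by fun_prop
  unfold Pool.Agent.TH873.EW.ct
  simp_rw [e]
  rw [intervalIntegral.integral_add (c3.intervalIntegrable _ _) (c4.intervalIntegrable _ _),
    intervalIntegral.integral_const_mul, intervalIntegral.integral_const_mul,
    intervalIntegral.integral_add (c5.intervalIntegrable _ _) (c1.intervalIntegrable _ _),
    int_lin_cos hc, int_sin_mul hc]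
  have e2 : Real.cos (4 * (Real.pi * (k : ℝ))) = 1 := by
    rw [show 4 * (Real.pi * (k : ℝ)) = ((2 * k : ℕ) : ℝ) * (2 * Real.pi) by push_cast; ring]
    exact Real.cos_nat_mul_two_pi _
  have e3 : ∫ t in (0 : ℝ)..1, (1 - t) = 1 / 2 := by
    have c6 : Continuous fun t : ℝ => t := by fun_prop
    rw [intervalIntegral.integral_sub (continuous_const.intervalIntegrable _ _)
      (c6.intervalIntegrable _ _)]
    simp only [intervalIntegral.integral_const, integral_id]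
    norm_num
  rw [e2, e3]
  field_simp
  ring

/-- the coefficients -/
noncomputable def cc (s : Finset ℕ) (β : ℕ → ℝ) (k : ℕ) : ℝ :=
  ∑ l ∈ s, β l / ((l : ℝ) ^ 2 - (k : ℝ) ^ 2)

/-- the kernel with the values `x_k²` at the integers -/
noncomputable def gx (s : Finset ℕ) (x : ℕ → ℝ) : ℝ → ℝ :=
  GK s (fun k => 4 / Real.pi ^ 2 * (k * x k) ^ 2)
    (fun k => 8 / Real.pi ^ 2 * (k * x k) * cc s (fun l => l * x l) k)

lemma sq_id (s : Finset ℕ) (β y : ℕ → ℝ)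
    (hy : ∀ k ∈ s, ∀ l ∈ s, k ≠ l → y k * y l = (y k - y l) / ((l : ℝ) ^ 2 - (k : ℝ) ^ 2)) :
    (∑ k ∈ s, β k * y k) ^ 2 = ∑ k ∈ s, (β k ^ 2 * y k ^ 2 + 2 * (β k * cc s β k) * y k) := by
  classical
  have h1 : (∑ k ∈ s, β k * y k) ^ 2 = ∑ k ∈ s, ∑ l ∈ s, β k * β l *
      ((y k - y l) / ((l : ℝ) ^ 2 - (k : ℝ) ^ 2) + if k = l then y k ^ 2 else 0) := by
    rw [sq, Finset.sum_mul_sum]
    apply Finset.sum_congr rfl
    intro k hk
    apply Finset.sum_congr rfl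
    intro l hl
    by_cases h : k = l
    · subst h
      simp
      ring
    · rw [if_neg h, add_zero, ← hy k hk l hl h]
      ring
  have h2 : ∑ k ∈ s, ∑ l ∈ s, β k * β l * (y l / ((l : ℝ) ^ 2 - (k : ℝ) ^ 2)) =
      -∑ k ∈ s, ∑ l ∈ s, β k * β l * (y k / ((l : ℝ) ^ 2 - (k : ℝ) ^ 2)) := by
    rw [Finset.sum_comm, ← Finset.sum_neg_distrib]
    apply Finset.sum_congr rfl
    intro k _
    rw [← Finset.sum_neg_distrib]
    apply Finset.sum_congr rfl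
    intro l _
    rw [show (k : ℝ) ^ 2 - (l : ℝ) ^ 2 = -((l : ℝ) ^ 2 - (k : ℝ) ^ 2) by ring, div_neg]
    ring
  have h3 : ∀ k ∈ s, ∑ l ∈ s, β k * β l * (y k / ((l : ℝ) ^ 2 - (k : ℝ) ^ 2)) =
      β k * cc s β k * y k := by
    intro k _
    unfold cc
    rw [Finset.mul_sum, Finset.sum_mul]
    apply Finset.sum_congr rfl
    intro l _
    ring
  have h4 : ∀ k ∈ s, ∑ l ∈ s, β k * β l * (if k = l then y k ^ 2 else 0) = β k ^ 2 * y k ^ 2 := by
    intro k hk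
    rw [Finset.sum_eq_single k]
    · rw [if_pos rfl]
      ring
    · intro l _ hlk
      rw [if_neg (Ne.symm hlk), mul_zero]
    · intro h
      exact absurd hk h
  rw [h1]
  have h5 : ∑ k ∈ s, ∑ l ∈ s, β k * β l *
      ((y k - y l) / ((l : ℝ) ^ 2 - (k : ℝ) ^ 2) + if k = l then y k ^ 2 else 0) =
      ∑ k ∈ s, ∑ l ∈ s, β k * β l * (y k / ((l : ℝ) ^ 2 - (k : ℝ) ^ 2)) -
      ∑ k ∈ s, ∑ l ∈ s, β k * β l * (y l / ((l : ℝ) ^ 2 - (k : ℝ) ^ 2)) +
      ∑ k ∈ s, ∑ l ∈ s, β k * β l * (if k = l then y k ^ 2 else 0) := by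
    rw [← Finset.sum_sub_distrib, ← Finset.sum_add_distrib]
    apply Finset.sum_congr rfl
    intro k _
    rw [← Finset.sum_sub_distrib, ← Finset.sum_add_distrib]
    apply Finset.sum_congr rfl
    intro l _
    rw [sub_div]
    ring
  rw [h5, h2, Finset.sum_congr rfl h3, Finset.sum_congr rfl h4, sub_neg_eq_add,
    ← Finset.sum_add_distrib, ← Finset.sum_add_distrib]
  apply Finset.sum_congr rfl
  intro k _
  ring

lemma mom_id (s : Finset ℕ) (β : ℕ → ℝ) (hs : ∀ k ∈ s, 1 ≤ k) :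
    2 * ∑ k ∈ s, β k * cc s β k / (k : ℝ) ^ 2 =
      (∑ k ∈ s, β k / (k : ℝ) ^ 2) ^ 2 - ∑ k ∈ s, β k ^ 2 / (k : ℝ) ^ 4 := by
  classical
  have h1 : (∑ k ∈ s, β k / (k : ℝ) ^ 2) ^ 2 = ∑ k ∈ s, ∑ l ∈ s, (β k * β l *
      (1 / (k : ℝ) ^ 2 / ((l : ℝ) ^ 2 - (k : ℝ) ^ 2)) + β k * β l *
      (1 / (l : ℝ) ^ 2 / ((k : ℝ) ^ 2 - (l : ℝ) ^ 2)) + if k = l then β k ^ 2 / (k : ℝ) ^ 4 else 0) := by
    rw [sq, Finset.sum_mul_sum]
    apply Finset.sum_congr rfl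
    intro k hk
    apply Finset.sum_congr rfl
    intro l hl
    have hk0 : (0 : ℝ) < k := by exact_mod_cast hs k hk
    have hl0 : (0 : ℝ) < l := by exact_mod_cast hs l hl
    by_cases h : k = l
    · subst h
      simp
      field_simp
    · rw [if_neg h, add_zero]
      have h2 := sq_ne h
      have h3 : (l : ℝ) ^ 2 - (k : ℝ) ^ 2 ≠ 0 := sq_ne (Ne.symm h)
      have h4 : (k : ℝ) ^ 2 - (l : ℝ) ^ 2 = -((l : ℝ) ^ 2 - (k : ℝ) ^ 2) := by ring
      rw [h4, div_neg]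
      field_simp
      ring
  have h2 : ∑ k ∈ s, ∑ l ∈ s, β k * β l * (1 / (l : ℝ) ^ 2 / ((k : ℝ) ^ 2 - (l : ℝ) ^ 2)) =
      ∑ k ∈ s, ∑ l ∈ s, β k * β l * (1 / (k : ℝ) ^ 2 / ((l : ℝ) ^ 2 - (k : ℝ) ^ 2)) := by
    rw [Finset.sum_comm]
    apply Finset.sum_congr rfl
    intro k _
    apply Finset.sum_congr rfl
    intro l _
    ring
  have h3 : ∀ k ∈ s, ∑ l ∈ s, β k * β l * (1 / (k : ℝ) ^ 2 / ((l : ℝ) ^ 2 - (k : ℝ) ^ 2)) =
      β k * cc s β k / (k : ℝ) ^ 2 := by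
    intro k _
    unfold cc
    rw [Finset.mul_sum, Finset.sum_div]
    apply Finset.sum_congr rfl
    intro l _
    ring
  have h4 : ∀ k ∈ s, ∑ l ∈ s, (if k = l then β k ^ 2 / (k : ℝ) ^ 4 else 0) =
      β k ^ 2 / (k : ℝ) ^ 4 := by
    intro k hk
    rw [Finset.sum_ite_eq]
    simp [hk]
  have h5 : ∑ k ∈ s, ∑ l ∈ s, (β k * β l *
      (1 / (k : ℝ) ^ 2 / ((l : ℝ) ^ 2 - (k : ℝ) ^ 2)) + β k * β l *
      (1 / (l : ℝ) ^ 2 / ((k : ℝ) ^ 2 - (l : ℝ) ^ 2)) + if k = l then β k ^ 2 / (k : ℝ) ^ 4 else 0) =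
      ∑ k ∈ s, ∑ l ∈ s, β k * β l * (1 / (k : ℝ) ^ 2 / ((l : ℝ) ^ 2 - (k : ℝ) ^ 2)) +
      ∑ k ∈ s, ∑ l ∈ s, β k * β l * (1 / (l : ℝ) ^ 2 / ((k : ℝ) ^ 2 - (l : ℝ) ^ 2)) +
      ∑ k ∈ s, ∑ l ∈ s, (if k = l then β k ^ 2 / (k : ℝ) ^ 4 else 0) := by
    rw [← Finset.sum_add_distrib, ← Finset.sum_add_distrib]
    apply Finset.sum_congr rfl
    intro k _
    rw [← Finset.sum_add_distrib, ← Finset.sum_add_distrib]
  rw [h1, h5, h2, Finset.sum_congr rfl h3, Finset.sum_congr rfl h4]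
  ring

lemma ct_gx (s : Finset ℕ) (x : ℕ → ℝ) (hs : ∀ k ∈ s, 1 ≤ k) {u : ℝ}
    (hu : ∀ k ∈ s, (k : ℝ) ^ 2 - u ^ 2 ≠ 0) :
    ct (gx s x) u = 4 / Real.pi ^ 2 * Real.sin (Real.pi * u) ^ 2 *
      (∑ k ∈ s, (k * x k) * (1 / ((k : ℝ) ^ 2 - u ^ 2))) ^ 2 := by
  unfold gx
  rw [ct_GK, sq_id s (fun k => k * x k) (fun k => 1 / ((k : ℝ) ^ 2 - u ^ 2)), Finset.mul_sum]
  · apply Finset.sum_congr rfl
    intro k hk
    rw [ct_g1 (hi_nat (hs k hk)) (hu k hk), ct_g2 (hi_nat (hs k hk)) (hu k hk), SS_nat]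
    generalize (k : ℝ) ^ 2 - u ^ 2 = z
    ring
  · intro k hk l hl h
    have h1 := hu k hk
    have h2 := hu l hl
    have h3 : (l : ℝ) ^ 2 - (k : ℝ) ^ 2 ≠ 0 := sq_ne (Ne.symm h)
    field_simp
    ring

lemma gx_cont (s : Finset ℕ) (x : ℕ → ℝ) : Continuous (gx s x) := GK_cont _ _ _

lemma gx_cd (s : Finset ℕ) (x : ℕ → ℝ) : ContDiff ℝ 1 (gx s x) := by
  unfold gx GK
  refine ContDiff.sum fun k _ => ?_
  exact (contDiff_const.mul (cd_g2 _)).add (contDiff_const.mul (cd_g1 _))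

lemma gx_one (s : Finset ℕ) (x : ℕ → ℝ) : gx s x 1 = 0 := by
  unfold gx GK
  apply Finset.sum_eq_zero
  intro k _
  have h : Real.sin (2 * Real.pi * (k : ℝ)) = 0 := by
    rw [show 2 * Real.pi * (k : ℝ) = ((2 * k : ℕ) : ℝ) * Real.pi by push_cast; ring]
    exact Real.sin_nat_mul_pi _
  unfold Pool.Agent.TH873.EW.g1 Pool.Agent.TH873.EW.g2
  rw [mul_one, h]
  ring

lemma ct_gx_nonneg (s : Finset ℕ) (x : ℕ → ℝ) (hs : ∀ k ∈ s, 1 ≤ k) (u : ℝ) :
    0 ≤ ct (gx s x) u := by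
  have hc : Continuous (ct (gx s x)) := ct_cont (gx_cont s x)
  have hcl : IsClosed {u : ℝ | 0 ≤ ct (gx s x) u} := isClosed_le continuous_const hc
  set F : Set ℝ := ⋃ k ∈ s, ({(k : ℝ), -(k : ℝ)} : Set ℝ) with hF
  have hFc : F.Countable := by
    rw [hF]
    exact Set.Countable.biUnion s.countable_toSet fun k _ => (Set.toFinite _).countable
  have hd : Dense Fᶜ := hFc.dense_compl ℝ
  have hsub : Fᶜ ⊆ {u : ℝ | 0 ≤ ct (gx s x) u} := by
    intro v hv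
    have hv' : ∀ k ∈ s, (k : ℝ) ^ 2 - v ^ 2 ≠ 0 := by
      intro k hk h0
      apply hv
      rw [hF]
      simp only [Set.mem_iUnion]
      refine ⟨k, hk, ?_⟩
      have h1 : v ^ 2 = (k : ℝ) ^ 2 := by linarith
      rcases sq_eq_sq_iff_eq_or_eq_neg.1 h1 with h | h
      · simp [h]
      · simp [h]
    show 0 ≤ ct (gx s x) v
    rw [ct_gx s x hs hv']
    positivity
  have h2 : closure Fᶜ ⊆ {u : ℝ | 0 ≤ ct (gx s x) u} := hcl.closure_subset_iff.2 hsub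
  rw [hd.closure_eq] at h2
  exact h2 (Set.mem_univ u)

lemma ct_gx_nat (s : Finset ℕ) (x : ℕ → ℝ) (hs : ∀ k ∈ s, 1 ≤ k) {j : ℕ} (hj : j ∈ s) :
    ct (gx s x) j = x j ^ 2 := by
  have hj0 : (0 : ℝ) < j := by exact_mod_cast hs j hj
  have hpi := Real.pi_pos
  unfold gx
  rw [ct_GK, Finset.sum_eq_single j]
  · rw [ct_g1_nat (hs j hj), ct_g2_self (hs j hj)]
    field_simp
    ring
  · intro k hk hkj
    rw [ct_g1_nat (hs k hk), ct_g2_ne (hs k hk) hkj]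
    ring
  · intro h
    exact absurd hj h

lemma mom_gx (s : Finset ℕ) (x : ℕ → ℝ) (hs : ∀ k ∈ s, 1 ≤ k) :
    mom (gx s x) = 2 * ∑ k ∈ s, x k ^ 2 * (1 - 1 / (2 * Real.pi ^ 2 * (k : ℝ) ^ 2)) -
      2 / Real.pi ^ 2 * (∑ k ∈ s, x k / k) ^ 2 := by
  have hpi := Real.pi_pos
  have h1 := mom_id s (fun k => k * x k) hs
  have h2 : ∑ k ∈ s, (k : ℝ) * x k / (k : ℝ) ^ 2 = ∑ k ∈ s, x k / k := by
    apply Finset.sum_congr rfl
    intro k hk
    have hk0 : (0 : ℝ) < k := by exact_mod_cast hs k hk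
    field_simp
  have h3 : ∑ k ∈ s, ((k : ℝ) * x k) ^ 2 / (k : ℝ) ^ 4 = ∑ k ∈ s, x k ^ 2 / (k : ℝ) ^ 2 := by
    apply Finset.sum_congr rfl
    intro k hk
    have hk0 : (0 : ℝ) < k := by exact_mod_cast hs k hk
    field_simp
  rw [h2, h3] at h1
  unfold gx
  rw [mom_GK]
  have h4 : ∀ k ∈ s, 4 / Real.pi ^ 2 * ((k : ℝ) * x k) ^ 2 * mom (g2 k) +
      8 / Real.pi ^ 2 * ((k : ℝ) * x k) * cc s (fun l => (l : ℝ) * x l) k * mom (g1 k) =
      2 * (x k ^ 2 * (1 - 1 / (2 * Real.pi ^ 2 * (k : ℝ) ^ 2))) -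
      2 / Real.pi ^ 2 * (x k ^ 2 / (k : ℝ) ^ 2) -
      4 / Real.pi ^ 2 * ((k : ℝ) * x k * cc s (fun l => (l : ℝ) * x l) k / (k : ℝ) ^ 2) := by
    intro k hk
    have hk0 : (0 : ℝ) < k := by exact_mod_cast hs k hk
    have hcos : Real.cos (2 * Real.pi * (k : ℝ)) = 1 := by
      rw [show 2 * Real.pi * (k : ℝ) = (k : ℝ) * (2 * Real.pi) by ring]
      exact Real.cos_nat_mul_two_pi _
    rw [mom_g1 (hi_nat (hs k hk)), mom_g2 (hi_nat (hs k hk)), hcos]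
    field_simp
    ring
  rw [Finset.sum_congr rfl h4, Finset.sum_sub_distrib, Finset.sum_sub_distrib, ← Finset.mul_sum,
    ← Finset.mul_sum, ← Finset.mul_sum]
  linear_combination (-(2 / Real.pi ^ 2)) * h1

end Pool.Agent.H792_Atoms
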