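import Pool.Agent.H792_Atoms.Ker

/-!
# Even band-limited kernels with prescribed values at the integers

The kernel `r(u) = (sin² (π u) / π²) (b / u + 2 u ∑ β_k / (u² - k²))²` is even, non-negative, takes
the value `b²` at `0` and `β_k²` at `k`.
-/

open MeasureTheory Set

namespace Pool.Agent.H792_Atoms

open Pool.Agent.TH873.EW (ct mom g0 g1 g2 HI SS ct_g0 ct_g1 ct_g2 mom_g0 mom_g1 mom_g2
  ct_add ct_smul mom_add mom_smul cont_g1 cont_g2 ct_cont)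

lemma cont_g0' : Continuous g0 := by
  unfold Pool.Agent.TH873.EW.g0
  fun_prop

lemma cd_g0 : ContDiff ℝ 1 g0 := by
  unfold Pool.Agent.TH873.EW.g0
  fun_prop

/-- the even kernel -/
noncomputable def ge (s : Finset ℕ) (b : ℝ) (β : ℕ → ℝ) : ℝ → ℝ := fun t =>
  b ^ 2 / Real.pi ^ 2 * g0 t + GK s (fun k => 4 / Real.pi ^ 2 * (k * β k) ^ 2)
    (fun k => 4 / Real.pi ^ 2 * (2 * (k : ℝ) ^ 2 * (β k * cc s β k) - β k ^ 2 - b * β k)) t

lemma cc_sum (s : Finset ℕ) (β : ℕ → ℝ) : ∑ k ∈ s, β k * cc s β k = 0 := by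
  have h1 : ∑ k ∈ s, β k * cc s β k =
      ∑ k ∈ s, ∑ l ∈ s, β k * β l / ((l : ℝ) ^ 2 - (k : ℝ) ^ 2) := by
    apply Finset.sum_congr rfl
    intro k _
    unfold cc
    rw [Finset.mul_sum]
    apply Finset.sum_congr rfl
    intro l _
    ring
  have h2 : ∑ k ∈ s, ∑ l ∈ s, β k * β l / ((l : ℝ) ^ 2 - (k : ℝ) ^ 2) =
      -∑ k ∈ s, ∑ l ∈ s, β k * β l / ((l : ℝ) ^ 2 - (k : ℝ) ^ 2) := by
    nth_rewrite 1 [Finset.sum_comm]
    rw [← Finset.sum_neg_distrib]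
    apply Finset.sum_congr rfl
    intro k _
    rw [← Finset.sum_neg_distrib]
    apply Finset.sum_congr rfl
    intro l _
    rw [show (k : ℝ) ^ 2 - (l : ℝ) ^ 2 = -((l : ℝ) ^ 2 - (k : ℝ) ^ 2) by ring, div_neg]
    ring
  rw [h1]
  linarith

lemma ge_eq (s : Finset ℕ) (b : ℝ) (β : ℕ → ℝ) : ge s b β = fun t =>
    (fun t => b ^ 2 / Real.pi ^ 2 * g0 t) t + GK s (fun k => 4 / Real.pi ^ 2 * (k * β k) ^ 2)
    (fun k => 4 / Real.pi ^ 2 * (2 * (k : ℝ) ^ 2 * (β k * cc s β k) - β k ^ 2 - b * β k)) t := rfl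

lemma ct_ge_aux (s : Finset ℕ) (b : ℝ) (β : ℕ → ℝ) (u : ℝ) :
    ct (ge s b β) u = b ^ 2 / Real.pi ^ 2 * ct g0 u + ∑ k ∈ s,
      (4 / Real.pi ^ 2 * (k * β k) ^ 2 * ct (g2 k) u +
      4 / Real.pi ^ 2 * (2 * (k : ℝ) ^ 2 * (β k * cc s β k) - β k ^ 2 - b * β k) * ct (g1 k) u) := by
  have c1 : Continuous fun t : ℝ => b ^ 2 / Real.pi ^ 2 * g0 t := continuous_const.mul cont_g0'
  rw [ge_eq, ct_add c1 (GK_cont s _ _), ct_GK, ct_smul]

lemma ct_ge (s : Finset ℕ) (b : ℝ) (β : ℕ → ℝ) (hs : ∀ k ∈ s, 1 ≤ k) {u : ℝ} (hu0 : u ≠ 0)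
    (hu : ∀ k ∈ s, (k : ℝ) ^ 2 - u ^ 2 ≠ 0) :
    ct (ge s b β) u = 1 / Real.pi ^ 2 * Real.sin (Real.pi * u) ^ 2 *
      (b / u - 2 * u * ∑ k ∈ s, β k * (1 / ((k : ℝ) ^ 2 - u ^ 2))) ^ 2 := by
  have hpi := Real.pi_pos
  rw [ct_ge_aux, ct_g0 hu0]
  have hsq := sq_id s β (fun k => 1 / ((k : ℝ) ^ 2 - u ^ 2)) (by
    intro k hk l hl h
    have h1 := hu k hk
    have h2 := hu l hl
    have h3 : (l : ℝ) ^ 2 - (k : ℝ) ^ 2 ≠ 0 := sq_ne (Ne.symm h)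
    field_simp
    ring)
  set Y := ∑ k ∈ s, β k * (1 / ((k : ℝ) ^ 2 - u ^ 2)) with hY
  have hz := cc_sum s β
  have hkey : u ^ 2 * Y ^ 2 = ∑ k ∈ s, ((k * β k) ^ 2 * (1 / ((k : ℝ) ^ 2 - u ^ 2)) ^ 2 +
      (2 * (k : ℝ) ^ 2 * (β k * cc s β k) - β k ^ 2) * (1 / ((k : ℝ) ^ 2 - u ^ 2))) := by
    have h1 : u ^ 2 * Y ^ 2 = ∑ k ∈ s, ((k * β k) ^ 2 * (1 / ((k : ℝ) ^ 2 - u ^ 2)) ^ 2 +
      (2 * (k : ℝ) ^ 2 * (β k * cc s β k) - β k ^ 2) * (1 / ((k : ℝ) ^ 2 - u ^ 2)) -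
        2 * (β k * cc s β k)) := by
      rw [hsq, Finset.mul_sum]
      apply Finset.sum_congr rfl
      intro k hk
      have h2 := hu k hk
      have e1 : u ^ 2 = (k : ℝ) ^ 2 - ((k : ℝ) ^ 2 - u ^ 2) := by ring
      have e2 : u ^ 2 * (1 / ((k : ℝ) ^ 2 - u ^ 2)) = (k : ℝ) ^ 2 * (1 / ((k : ℝ) ^ 2 - u ^ 2)) - 1 := by
        field_simp
        ring
      have e3 : u ^ 2 * (1 / ((k : ℝ) ^ 2 - u ^ 2)) ^ 2 =
          (k : ℝ) ^ 2 * (1 / ((k : ℝ) ^ 2 - u ^ 2)) ^ 2 - 1 / ((k : ℝ) ^ 2 - u ^ 2) := by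
        rw [sq (1 / ((k : ℝ) ^ 2 - u ^ 2)), ← mul_assoc, e2]
        ring
      linear_combination β k ^ 2 * e3 + 2 * (β k * cc s β k) * e2
    rw [h1, Finset.sum_sub_distrib, ← Finset.mul_sum, hz]
    ring
  have hS : ∀ k ∈ s, (4 / Real.pi ^ 2 * (k * β k) ^ 2 * ct (g2 k) u +
      4 / Real.pi ^ 2 * (2 * (k : ℝ) ^ 2 * (β k * cc s β k) - β k ^ 2 - b * β k) * ct (g1 k) u) =
      4 / Real.pi ^ 2 * Real.sin (Real.pi * u) ^ 2 *
        (((k * β k) ^ 2 * (1 / ((k : ℝ) ^ 2 - u ^ 2)) ^ 2 +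
      (2 * (k : ℝ) ^ 2 * (β k * cc s β k) - β k ^ 2) * (1 / ((k : ℝ) ^ 2 - u ^ 2)))) -
      4 / Real.pi ^ 2 * Real.sin (Real.pi * u) ^ 2 * b * (β k * (1 / ((k : ℝ) ^ 2 - u ^ 2))) := by
    intro k hk
    rw [ct_g1 (hi_nat (hs k hk)) (hu k hk), ct_g2 (hi_nat (hs k hk)) (hu k hk), SS_nat]
    generalize (k : ℝ) ^ 2 - u ^ 2 = z
    ring
  rw [Finset.sum_congr rfl hS, Finset.sum_sub_distrib, ← Finset.mul_sum, ← Finset.mul_sum, ← hY,
    ← hkey]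
  field_simp
  ring

lemma ge_cont (s : Finset ℕ) (b : ℝ) (β : ℕ → ℝ) : Continuous (ge s b β) := by
  rw [ge_eq]
  exact (continuous_const.mul cont_g0').add (GK_cont s _ _)

lemma ge_cd (s : Finset ℕ) (b : ℝ) (β : ℕ → ℝ) : ContDiff ℝ 1 (ge s b β) := by
  rw [ge_eq]
  apply ContDiff.add
  · exact contDiff_const.mul cd_g0
  · unfold GK
    refine ContDiff.sum fun k _ => ?_
    exact (contDiff_const.mul (cd_g2 _)).add (contDiff_const.mul (cd_g1 _))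

lemma ge_one (s : Finset ℕ) (b : ℝ) (β : ℕ → ℝ) : ge s b β 1 = 0 := by
  unfold ge GK
  rw [Finset.sum_eq_zero]
  · unfold Pool.Agent.TH873.EW.g0
    ring
  · intro k _
    have h : Real.sin (2 * Real.pi * (k : ℝ)) = 0 := by
      rw [show 2 * Real.pi * (k : ℝ) = ((2 * k : ℕ) : ℝ) * Real.pi by push_cast; ring]
      exact Real.sin_nat_mul_pi _
    unfold Pool.Agent.TH873.EW.g1 Pool.Agent.TH873.EW.g2
    rw [mul_one, h]
    ring

lemma ct_ge_nonneg (s : Finset ℕ) (b : ℝ) (β : ℕ → ℝ) (hs : ∀ k ∈ s, 1 ≤ k) (u : ℝ) :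
    0 ≤ ct (ge s b β) u := by
  have hc : Continuous (ct (ge s b β)) := ct_cont (ge_cont s b β)
  have hcl : IsClosed {u : ℝ | 0 ≤ ct (ge s b β) u} := isClosed_le continuous_const hc
  set F : Set ℝ := (⋃ k ∈ s, ({(k : ℝ), -(k : ℝ)} : Set ℝ)) ∪ {0} with hF
  have hFc : F.Countable := by
    rw [hF]
    exact (Set.Countable.biUnion s.countable_toSet fun k _ => (Set.toFinite _).countable).union
      (Set.countable_singleton 0)
  have hd : Dense Fᶜ := hFc.dense_compl ℝ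
  have hsub : Fᶜ ⊆ {u : ℝ | 0 ≤ ct (ge s b β) u} := by
    intro v hv
    have hv0 : v ≠ 0 := by
      intro h0
      apply hv
      rw [hF]
      exact Or.inr h0
    have hv' : ∀ k ∈ s, (k : ℝ) ^ 2 - v ^ 2 ≠ 0 := by
      intro k hk h0
      apply hv
      rw [hF]
      left
      simp only [Set.mem_iUnion]
      refine ⟨k, hk, ?_⟩
      have h1 : v ^ 2 = (k : ℝ) ^ 2 := by linarith
      rcases sq_eq_sq_iff_eq_or_eq_neg.1 h1 with h | h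
      · simp [h]
      · simp [h]
    show 0 ≤ ct (ge s b β) v
    rw [ct_ge s b β hs hv0 hv']
    positivity
  have h2 : closure Fᶜ ⊆ {u : ℝ | 0 ≤ ct (ge s b β) u} := hcl.closure_subset_iff.2 hsub
  rw [hd.closure_eq] at h2
  exact h2 (Set.mem_univ u)

lemma ct_ge_nat (s : Finset ℕ) (b : ℝ) (β : ℕ → ℝ) (hs : ∀ k ∈ s, 1 ≤ k) {j : ℕ} (hj : j ∈ s) :
    ct (ge s b β) j = β j ^ 2 := by
  have hj0 : (0 : ℝ) < j := by exact_mod_cast hs j hj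
  have hpi := Real.pi_pos
  rw [ct_ge_aux, Finset.sum_eq_single j]
  · rw [ct_g1_nat (hs j hj), ct_g2_self (hs j hj), ct_g0 hj0.ne', sin_nat]
    field_simp
    ring
  · intro k hk hkj
    rw [ct_g1_nat (hs k hk), ct_g2_ne (hs k hk) hkj]
    ring
  · intro h
    exact absurd hj h

lemma ct_ge_zero (s : Finset ℕ) (b : ℝ) (β : ℕ → ℝ) (hs : ∀ k ∈ s, 1 ≤ k) :
    ct (ge s b β) 0 = b ^ 2 := by
  have hpi := Real.pi_pos
  rw [ct_ge_aux, Finset.sum_eq_zero]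
  · have h0 : ct g0 0 = Real.pi ^ 2 := by
      unfold Pool.Agent.TH873.EW.ct Pool.Agent.TH873.EW.g0
      have e3 : ∫ t in (0 : ℝ)..1, (1 - t) = 1 / 2 := by
        have c6 : Continuous fun t : ℝ => t := by fun_prop
        rw [intervalIntegral.integral_sub (continuous_const.intervalIntegrable _ _)
          (c6.intervalIntegrable _ _)]
        simp only [intervalIntegral.integral_const, integral_id]
        norm_num
      simp only [mul_zero, zero_mul, Real.cos_zero, mul_one]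
      rw [intervalIntegral.integral_const_mul, e3]
      ring
    rw [h0]
    field_simp
    ring
  · intro k hk
    have h1 := ct_g1_nat (k := k) (j := 0) (hs k hk)
    have h2 := ct_g2_ne (k := k) (j := 0) (hs k hk) (by have := hs k hk; omega)
    rw [Nat.cast_zero] at h1 h2
    rw [h1, h2]
    ring

lemma mom_ge (s : Finset ℕ) (b : ℝ) (β : ℕ → ℝ) (hs : ∀ k ∈ s, 1 ≤ k) :
    mom (ge s b β) = 4 / 3 * b ^ 2 +
      2 * ∑ k ∈ s, β k ^ 2 * (1 - 1 / (2 * Real.pi ^ 2 * (k : ℝ) ^ 2)) +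
      2 * b / Real.pi ^ 2 * ∑ k ∈ s, β k / (k : ℝ) ^ 2 := by
  have hpi := Real.pi_pos
  have hz := cc_sum s β
  have c1 : Continuous fun t : ℝ => b ^ 2 / Real.pi ^ 2 * g0 t := continuous_const.mul cont_g0'
  rw [ge_eq, mom_add c1 (GK_cont s _ _), mom_GK, mom_smul, mom_g0]
  have h4 : ∀ k ∈ s, 4 / Real.pi ^ 2 * ((k : ℝ) * β k) ^ 2 * mom (g2 k) +
      4 / Real.pi ^ 2 * (2 * (k : ℝ) ^ 2 * (β k * cc s β k) - β k ^ 2 - b * β k) * mom (g1 k) =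
      2 * (β k ^ 2 * (1 - 1 / (2 * Real.pi ^ 2 * (k : ℝ) ^ 2))) +
      2 * b / Real.pi ^ 2 * (β k / (k : ℝ) ^ 2) -
      4 / Real.pi ^ 2 * (β k * cc s β k) := by
    intro k hk
    have hk0 : (0 : ℝ) < k := by exact_mod_cast hs k hk
    have hcos : Real.cos (2 * Real.pi * (k : ℝ)) = 1 := by
      rw [show 2 * Real.pi * (k : ℝ) = (k : ℝ) * (2 * Real.pi) by ring]
      exact Real.cos_nat_mul_two_pi _
    rw [mom_g1 (hi_nat (hs k hk)), mom_g2 (hi_nat (hs k hk)), hcos]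
    field_simp
    ring
  rw [Finset.sum_congr rfl h4, Finset.sum_sub_distrib, Finset.sum_add_distrib, ← Finset.mul_sum,
    ← Finset.mul_sum, ← Finset.mul_sum, hz]
  field_simp
  ring

end Pool.Agent.H792_Atoms
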