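import Pool.Agent.H792_Atoms.Ker

/-!
# Even band-limited kernels with prescribed values at the half-integers

For `ν_k = k - 1/2` the kernel `r(u) = (4 / π²) cos² (π u) (∑ ν_k x_k / (ν_k² - u²))²` is even,
non-negative, takes the value `x_k ^ 2` at `ν_k` and the value `(4 / π²) (∑ x_k / ν_k)²` at `0`.
-/

open MeasureTheory Set

namespace Pool.Agent.H792_Atoms

open Pool.Agent.TH873.EW (ct mom g1 g2 HI SS ct_g1 ct_g2 mom_g1 mom_g2 int_sin_mul int_lin_cos
  ct_add ct_smul mom_add mom_smul cont_g1 cont_g2 ct_cont)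

/-- the half-integers -/
noncomputable def nu (k : ℕ) : ℝ := (k : ℝ) - 1 / 2

lemma nu_pos {k : ℕ} (hk : 1 ≤ k) : 0 < nu k := by
  have : (1 : ℝ) ≤ k := by exact_mod_cast hk
  unfold nu
  linarith

lemma nu_hi {k : ℕ} (hk : 1 ≤ k) : HI (nu k) := by
  refine ⟨2 * k - 1, by omega, ?_⟩
  rw [Nat.cast_sub (by omega)]
  unfold nu
  push_cast
  ring

lemma nu_ne {k j : ℕ} (hk : 1 ≤ k) (hj : 1 ≤ j) (h : k ≠ j) : nu k ^ 2 - nu j ^ 2 ≠ 0 := by
  have h1 := nu_pos hk
  have h2 := nu_pos hj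
  intro h0
  have h3 : (nu k - nu j) * (nu k + nu j) = 0 := by linear_combination h0
  rcases mul_eq_zero.1 h3 with h4 | h4
  · apply h
    unfold nu at h4
    have : (k : ℝ) = j := by linarith
    exact_mod_cast this
  · linarith

/-- a combination of the basic kernels -/
noncomputable def GH (s : Finset ℕ) (A B : ℕ → ℝ) (t : ℝ) : ℝ :=
  ∑ k ∈ s, (A k * g2 (nu k) t + B k * g1 (nu k) t)

lemma GH_cont (s : Finset ℕ) (A B : ℕ → ℝ) : Continuous (GH s A B) := by
  unfold GH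
  refine continuous_finsetSum _ fun k _ => ?_
  exact (continuous_const.mul (cont_g2 _)).add (continuous_const.mul (cont_g1 _))

lemma ct_GH (s : Finset ℕ) (A B : ℕ → ℝ) (x : ℝ) :
    ct (GH s A B) x = ∑ k ∈ s, (A k * ct (g2 (nu k)) x + B k * ct (g1 (nu k)) x) := by
  classical
  induction s using Finset.induction_on with
  | empty => simp [GH, Pool.Agent.TH873.EW.ct]
  | insert a s ha ih =>
    have e : GH (insert a s) A B = fun t => (fun t => A a * g2 (nu a) t + B a * g1 (nu a) t) t +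
        GH s A B t := by
      funext t
      unfold GH
      rw [Finset.sum_insert ha]
    have c1 : Continuous fun t : ℝ => A a * g2 (nu a) t := continuous_const.mul (cont_g2 _)
    have c2 : Continuous fun t : ℝ => B a * g1 (nu a) t := continuous_const.mul (cont_g1 _)
    have c3 : Continuous fun t : ℝ => A a * g2 (nu a) t + B a * g1 (nu a) t := c1.add c2
    rw [e, ct_add c3 (GH_cont s A B), ih, Finset.sum_insert ha, ct_add c1 c2, ct_smul,
      ct_smul]

lemma mom_GH (s : Finset ℕ) (A B : ℕ → ℝ) :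
    mom (GH s A B) = ∑ k ∈ s, (A k * mom (g2 (nu k)) + B k * mom (g1 (nu k))) := by
  classical
  induction s using Finset.induction_on with
  | empty => simp [GH, Pool.Agent.TH873.EW.mom]
  | insert a s ha ih =>
    have e : GH (insert a s) A B = fun t => (fun t => A a * g2 (nu a) t + B a * g1 (nu a) t) t +
        GH s A B t := by
      funext t
      unfold GH
      rw [Finset.sum_insert ha]
    have c1 : Continuous fun t : ℝ => A a * g2 (nu a) t := continuous_const.mul (cont_g2 _)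
    have c2 : Continuous fun t : ℝ => B a * g1 (nu a) t := continuous_const.mul (cont_g1 _)
    have c3 : Continuous fun t : ℝ => A a * g2 (nu a) t + B a * g1 (nu a) t := c1.add c2
    rw [e, mom_add c3 (GH_cont s A B), ih, Finset.sum_insert ha, mom_add c1 c2, mom_smul,
      mom_smul]

lemma SS_half (k : ℕ) (x : ℝ) : SS (nu k) x = Real.cos (Real.pi * x) ^ 2 := by
  unfold Pool.Agent.TH873.EW.SS nu
  have e : Real.pi * ((k : ℝ) - 1 / 2 - x) = k * Real.pi - (Real.pi / 2 + Real.pi * x) := by ring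
  rw [e, Real.sin_sub, Real.sin_nat_mul_pi, zero_mul, zero_sub, neg_sq, mul_pow]
  have h1 : Real.cos (k * Real.pi) ^ 2 = 1 := by
    have := Real.sin_sq_add_cos_sq (k * Real.pi)
    rw [Real.sin_nat_mul_pi] at this
    nlinarith
  have h2 : Real.sin (Real.pi / 2 + Real.pi * x) = Real.cos (Real.pi * x) := by
    rw [add_comm, Real.sin_add_pi_div_two]
  rw [h1, one_mul, h2]

lemma cos_nu (j : ℕ) : Real.cos (Real.pi * nu j) = 0 := by
  unfold nu
  have e : Real.pi * ((j : ℝ) - 1 / 2) = j * Real.pi - Real.pi / 2 := by ring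
  rw [e, Real.cos_sub_pi_div_two, Real.sin_nat_mul_pi]

lemma cos4nu {k : ℕ} (hk : 1 ≤ k) : Real.cos (4 * (Real.pi * nu k)) = 1 := by
  have e : 4 * (Real.pi * nu k) = ((2 * k - 1 : ℕ) : ℝ) * (2 * Real.pi) := by
    rw [Nat.cast_sub (by omega)]
    unfold nu
    push_cast
    ring
  rw [e]
  exact Real.cos_nat_mul_two_pi _

lemma ct_h1 {k j : ℕ} (hk : 1 ≤ k) (hj : 1 ≤ j) : ct (g1 (nu k)) (nu j) = 0 := by
  have hk0 := nu_pos hk
  have hpi := Real.pi_pos
  by_cases h : k = j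
  · subst h
    have hc : 4 * (Real.pi * nu k) ≠ 0 := by positivity
    have e : ∀ t : ℝ, g1 (nu k) t * Real.cos (2 * Real.pi * nu k * t) =
        Real.pi / (4 * nu k) * Real.sin (4 * (Real.pi * nu k) * t) := by
      intro t
      have e1 : 4 * (Real.pi * nu k) * t = 2 * (2 * Real.pi * nu k * t) := by ring
      rw [e1, Real.sin_two_mul]
      unfold Pool.Agent.TH873.EW.g1
      field_simp
      ring
    unfold Pool.Agent.TH873.EW.ct
    simp_rw [e]
    rw [intervalIntegral.integral_const_mul, int_sin_mul hc, cos4nu hk]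
    simp
  · rw [ct_g1 (nu_hi hk) (nu_ne hk hj h), SS_half, cos_nu]
    simp

lemma ct_h2_ne {k j : ℕ} (hk : 1 ≤ k) (hj : 1 ≤ j) (h : k ≠ j) : ct (g2 (nu k)) (nu j) = 0 := by
  rw [ct_g2 (nu_hi hk) (nu_ne hk hj h), SS_half, cos_nu]
  simp

lemma ct_h2_self {k : ℕ} (hk : 1 ≤ k) : ct (g2 (nu k)) (nu k) = Real.pi ^ 2 / (4 * nu k ^ 2) := by
  have hk0 := nu_pos hk
  have hpi := Real.pi_pos
  have hc : 4 * (Real.pi * nu k) ≠ 0 := by positivity
  have e : ∀ t : ℝ, g2 (nu k) t * Real.cos (2 * Real.pi * nu k * t) =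
      Real.pi ^ 2 / (4 * nu k ^ 2) * ((1 - t) + (1 - t) * Real.cos (4 * (Real.pi * nu k) * t)) +
        Real.pi / (8 * nu k ^ 3) * Real.sin (4 * (Real.pi * nu k) * t) := by
    intro t
    have e1 : 4 * (Real.pi * nu k) * t = 2 * (2 * Real.pi * nu k * t) := by ring
    rw [e1, Real.sin_two_mul, Real.cos_two_mul]
    unfold Pool.Agent.TH873.EW.g2
    field_simp
    ring
  have c1 : Continuous fun t : ℝ => (1 - t) * Real.cos (4 * (Real.pi * nu k) * t) := by fun_prop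
  have c2 : Continuous fun t : ℝ => Real.sin (4 * (Real.pi * nu k) * t) := by fun_prop
  have c3 : Continuous fun t : ℝ => Real.pi ^ 2 / (4 * nu k ^ 2) *
    ((1 - t) + (1 - t) * Real.cos (4 * (Real.pi * nu k) * t)) := by fun_prop
  have c4 : Continuous fun t : ℝ => Real.pi / (8 * nu k ^ 3) *
    Real.sin (4 * (Real.pi * nu k) * t) := by fun_prop
  have c5 : Continuous fun t : ℝ => 1 - t := by fun_prop
  unfold Pool.Agent.TH873.EW.ct
  simp_rw [e]
  rw [intervalIntegral.integral_add (c3.intervalIntegrable _ _) (c4.intervalIntegrable _ _),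
    intervalIntegral.integral_const_mul, intervalIntegral.integral_const_mul,
    intervalIntegral.integral_add (c5.intervalIntegrable _ _) (c1.intervalIntegrable _ _),
    int_lin_cos hc, int_sin_mul hc]
  have e3 : ∫ t in (0 : ℝ)..1, (1 - t) = 1 / 2 := by
    have c6 : Continuous fun t : ℝ => t := by fun_prop
    rw [intervalIntegral.integral_sub (continuous_const.intervalIntegrable _ _)
      (c6.intervalIntegrable _ _)]
    simp only [intervalIntegral.integral_const, integral_id]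
    norm_num
  rw [cos4nu hk, e3]
  field_simp
  ring

/-- the coefficients -/
noncomputable def ch (s : Finset ℕ) (β : ℕ → ℝ) (k : ℕ) : ℝ :=
  ∑ l ∈ s, β l / (nu l ^ 2 - nu k ^ 2)

/-- the kernel with the values `x_k²` at the half-integers -/
noncomputable def gh (s : Finset ℕ) (x : ℕ → ℝ) : ℝ → ℝ :=
  GH s (fun k => 4 / Real.pi ^ 2 * (nu k * x k) ^ 2)
    (fun k => 8 / Real.pi ^ 2 * (nu k * x k) * ch s (fun l => nu l * x l) k)

lemma sq_idh (s : Finset ℕ) (β y : ℕ → ℝ)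
    (hy : ∀ k ∈ s, ∀ l ∈ s, k ≠ l → y k * y l = (y k - y l) / (nu l ^ 2 - nu k ^ 2)) :
    (∑ k ∈ s, β k * y k) ^ 2 = ∑ k ∈ s, (β k ^ 2 * y k ^ 2 + 2 * (β k * ch s β k) * y k) := by
  classical
  have h1 : (∑ k ∈ s, β k * y k) ^ 2 = ∑ k ∈ s, ∑ l ∈ s, β k * β l *
      ((y k - y l) / (nu l ^ 2 - nu k ^ 2) + if k = l then y k ^ 2 else 0) := by
    rw [sq, Finset.sum_mul_sum]
    apply Finset.sum_congr rfl
    intro k hk
    apply Finset.sum_congr rfl
    intro l hl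
    by_cases h : k = l
    · subst h
      simp
      ring
    · rw [if_neg h, add_zero, ← hy k hk l hl h]
      ring
  have h2 : ∑ k ∈ s, ∑ l ∈ s, β k * β l * (y l / (nu l ^ 2 - nu k ^ 2)) =
      -∑ k ∈ s, ∑ l ∈ s, β k * β l * (y k / (nu l ^ 2 - nu k ^ 2)) := by
    rw [Finset.sum_comm, ← Finset.sum_neg_distrib]
    apply Finset.sum_congr rfl
    intro k _
    rw [← Finset.sum_neg_distrib]
    apply Finset.sum_congr rfl
    intro l _
    rw [show nu k ^ 2 - nu l ^ 2 = -(nu l ^ 2 - nu k ^ 2) by ring, div_neg]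
    ring
  have h3 : ∀ k ∈ s, ∑ l ∈ s, β k * β l * (y k / (nu l ^ 2 - nu k ^ 2)) =
      β k * ch s β k * y k := by
    intro k _
    unfold ch
    rw [Finset.mul_sum, Finset.sum_mul]
    apply Finset.sum_congr rfl
    intro l _
    ring
  have h4 : ∀ k ∈ s, ∑ l ∈ s, β k * β l * (if k = l then y k ^ 2 else 0) = β k ^ 2 * y k ^ 2 := by
    intro k hk
    rw [Finset.sum_eq_single k]
    · rw [if_pos rfl]
      ring
    · intro l _ hlk
      rw [if_neg (Ne.symm hlk), mul_zero]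
    · intro h
      exact absurd hk h
  rw [h1]
  have h5 : ∑ k ∈ s, ∑ l ∈ s, β k * β l *
      ((y k - y l) / (nu l ^ 2 - nu k ^ 2) + if k = l then y k ^ 2 else 0) =
      ∑ k ∈ s, ∑ l ∈ s, β k * β l * (y k / (nu l ^ 2 - nu k ^ 2)) -
      ∑ k ∈ s, ∑ l ∈ s, β k * β l * (y l / (nu l ^ 2 - nu k ^ 2)) +
      ∑ k ∈ s, ∑ l ∈ s, β k * β l * (if k = l then y k ^ 2 else 0) := by
    rw [← Finset.sum_sub_distrib, ← Finset.sum_add_distrib]
    apply Finset.sum_congr rfl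
    intro k _
    rw [← Finset.sum_sub_distrib, ← Finset.sum_add_distrib]
    apply Finset.sum_congr rfl
    intro l _
    rw [sub_div]
    ring
  rw [h5, h2, Finset.sum_congr rfl h3, Finset.sum_congr rfl h4, sub_neg_eq_add,
    ← Finset.sum_add_distrib, ← Finset.sum_add_distrib]
  apply Finset.sum_congr rfl
  intro k _
  ring

lemma mom_idh (s : Finset ℕ) (β : ℕ → ℝ) (hs : ∀ k ∈ s, 1 ≤ k) :
    2 * ∑ k ∈ s, β k * ch s β k / nu k ^ 2 =
      (∑ k ∈ s, β k / nu k ^ 2) ^ 2 - ∑ k ∈ s, β k ^ 2 / nu k ^ 4 := by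
  classical
  have h1 : (∑ k ∈ s, β k / nu k ^ 2) ^ 2 = ∑ k ∈ s, ∑ l ∈ s, (β k * β l *
      (1 / nu k ^ 2 / (nu l ^ 2 - nu k ^ 2)) + β k * β l *
      (1 / nu l ^ 2 / (nu k ^ 2 - nu l ^ 2)) + if k = l then β k ^ 2 / nu k ^ 4 else 0) := by
    rw [sq, Finset.sum_mul_sum]
    apply Finset.sum_congr rfl
    intro k hk
    apply Finset.sum_congr rfl
    intro l hl
    have hk0 := nu_pos (hs k hk)
    have hl0 := nu_pos (hs l hl)
    by_cases h : k = l
    · subst h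
      simp
      field_simp
    · rw [if_neg h, add_zero]
      have h3 : nu l ^ 2 - nu k ^ 2 ≠ 0 := nu_ne (hs l hl) (hs k hk) (Ne.symm h)
      have h4 : nu k ^ 2 - nu l ^ 2 = -(nu l ^ 2 - nu k ^ 2) := by ring
      rw [h4, div_neg]
      field_simp
      ring
  have h2 : ∑ k ∈ s, ∑ l ∈ s, β k * β l * (1 / nu l ^ 2 / (nu k ^ 2 - nu l ^ 2)) =
      ∑ k ∈ s, ∑ l ∈ s, β k * β l * (1 / nu k ^ 2 / (nu l ^ 2 - nu k ^ 2)) := by
    rw [Finset.sum_comm]
    apply Finset.sum_congr rfl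
    intro k _
    apply Finset.sum_congr rfl
    intro l _
    ring
  have h3 : ∀ k ∈ s, ∑ l ∈ s, β k * β l * (1 / nu k ^ 2 / (nu l ^ 2 - nu k ^ 2)) =
      β k * ch s β k / nu k ^ 2 := by
    intro k _
    unfold ch
    rw [Finset.mul_sum, Finset.sum_div]
    apply Finset.sum_congr rfl
    intro l _
    ring
  have h4 : ∀ k ∈ s, ∑ l ∈ s, (if k = l then β k ^ 2 / nu k ^ 4 else 0) =
      β k ^ 2 / nu k ^ 4 := by
    intro k hk
    rw [Finset.sum_ite_eq]
    simp [hk]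
  have h5 : ∑ k ∈ s, ∑ l ∈ s, (β k * β l *
      (1 / nu k ^ 2 / (nu l ^ 2 - nu k ^ 2)) + β k * β l *
      (1 / nu l ^ 2 / (nu k ^ 2 - nu l ^ 2)) + if k = l then β k ^ 2 / nu k ^ 4 else 0) =
      ∑ k ∈ s, ∑ l ∈ s, β k * β l * (1 / nu k ^ 2 / (nu l ^ 2 - nu k ^ 2)) +
      ∑ k ∈ s, ∑ l ∈ s, β k * β l * (1 / nu l ^ 2 / (nu k ^ 2 - nu l ^ 2)) +
      ∑ k ∈ s, ∑ l ∈ s, (if k = l then β k ^ 2 / nu k ^ 4 else 0) := by
    rw [← Finset.sum_add_distrib, ← Finset.sum_add_distrib]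
    apply Finset.sum_congr rfl
    intro k _
    rw [← Finset.sum_add_distrib, ← Finset.sum_add_distrib]
  rw [h1, h5, h2, Finset.sum_congr rfl h3, Finset.sum_congr rfl h4]
  ring

lemma ct_gh (s : Finset ℕ) (x : ℕ → ℝ) (hs : ∀ k ∈ s, 1 ≤ k) {u : ℝ}
    (hu : ∀ k ∈ s, nu k ^ 2 - u ^ 2 ≠ 0) :
    ct (gh s x) u = 4 / Real.pi ^ 2 * Real.cos (Real.pi * u) ^ 2 *
      (∑ k ∈ s, (nu k * x k) * (1 / (nu k ^ 2 - u ^ 2))) ^ 2 := by
  unfold gh
  rw [ct_GH, sq_idh s (fun k => nu k * x k) (fun k => 1 / (nu k ^ 2 - u ^ 2)), Finset.mul_sum]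
  · apply Finset.sum_congr rfl
    intro k hk
    rw [ct_g1 (nu_hi (hs k hk)) (hu k hk), ct_g2 (nu_hi (hs k hk)) (hu k hk), SS_half]
    generalize nu k ^ 2 - u ^ 2 = z
    ring
  · intro k hk l hl h
    have h1 := hu k hk
    have h2 := hu l hl
    have h3 : nu l ^ 2 - nu k ^ 2 ≠ 0 := nu_ne (hs l hl) (hs k hk) (Ne.symm h)
    field_simp
    ring

lemma gh_cont (s : Finset ℕ) (x : ℕ → ℝ) : Continuous (gh s x) := GH_cont _ _ _

lemma gh_cd (s : Finset ℕ) (x : ℕ → ℝ) : ContDiff ℝ 1 (gh s x) := by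
  unfold gh GH
  refine ContDiff.sum fun k _ => ?_
  exact (contDiff_const.mul (cd_g2 _)).add (contDiff_const.mul (cd_g1 _))

lemma gh_one (s : Finset ℕ) (x : ℕ → ℝ) (hs : ∀ k ∈ s, 1 ≤ k) : gh s x 1 = 0 := by
  unfold gh GH
  apply Finset.sum_eq_zero
  intro k hk
  have hk1 := hs k hk
  have h : Real.sin (2 * Real.pi * nu k) = 0 := by
    have e : 2 * Real.pi * nu k = ((2 * k - 1 : ℕ) : ℝ) * Real.pi := by
      rw [Nat.cast_sub (by omega)]
      unfold nu
      push_cast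
      ring
    rw [e]
    exact Real.sin_nat_mul_pi _
  unfold Pool.Agent.TH873.EW.g1 Pool.Agent.TH873.EW.g2
  rw [mul_one, h]
  ring

lemma ct_gh_nonneg (s : Finset ℕ) (x : ℕ → ℝ) (hs : ∀ k ∈ s, 1 ≤ k) (u : ℝ) :
    0 ≤ ct (gh s x) u := by
  have hc : Continuous (ct (gh s x)) := ct_cont (gh_cont s x)
  have hcl : IsClosed {u : ℝ | 0 ≤ ct (gh s x) u} := isClosed_le continuous_const hc
  set F : Set ℝ := ⋃ k ∈ s, ({nu k, -(nu k)} : Set ℝ) with hF
  have hFc : F.Countable := by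
    rw [hF]
    exact Set.Countable.biUnion s.countable_toSet fun k _ => (Set.toFinite _).countable
  have hd : Dense Fᶜ := hFc.dense_compl ℝ
  have hsub : Fᶜ ⊆ {u : ℝ | 0 ≤ ct (gh s x) u} := by
    intro v hv
    have hv' : ∀ k ∈ s, nu k ^ 2 - v ^ 2 ≠ 0 := by
      intro k hk h0
      apply hv
      rw [hF]
      simp only [Set.mem_iUnion]
      refine ⟨k, hk, ?_⟩
      have h1 : v ^ 2 = nu k ^ 2 := by linarith
      rcases sq_eq_sq_iff_eq_or_eq_neg.1 h1 with h | h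
      · simp [h]
      · simp [h]
    show 0 ≤ ct (gh s x) v
    rw [ct_gh s x hs hv']
    positivity
  have h2 : closure Fᶜ ⊆ {u : ℝ | 0 ≤ ct (gh s x) u} := hcl.closure_subset_iff.2 hsub
  rw [hd.closure_eq] at h2
  exact h2 (Set.mem_univ u)

lemma ct_gh_nu (s : Finset ℕ) (x : ℕ → ℝ) (hs : ∀ k ∈ s, 1 ≤ k) {j : ℕ} (hj : j ∈ s) :
    ct (gh s x) (nu j) = x j ^ 2 := by
  have hj0 := nu_pos (hs j hj)
  have hpi := Real.pi_pos
  unfold gh
  rw [ct_GH, Finset.sum_eq_single j]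
  · rw [ct_h1 (hs j hj) (hs j hj), ct_h2_self (hs j hj)]
    field_simp
    ring
  · intro k hk hkj
    rw [ct_h1 (hs k hk) (hs j hj), ct_h2_ne (hs k hk) (hs j hj) hkj]
    ring
  · intro h
    exact absurd hj h

lemma ct_gh_zero (s : Finset ℕ) (x : ℕ → ℝ) (hs : ∀ k ∈ s, 1 ≤ k) :
    ct (gh s x) 0 = 4 / Real.pi ^ 2 * (∑ k ∈ s, x k / nu k) ^ 2 := by
  have h0 : ∀ k ∈ s, nu k ^ 2 - (0 : ℝ) ^ 2 ≠ 0 := by
    intro k hk
    have := nu_pos (hs k hk)
    have h2 : 0 < nu k ^ 2 := by positivity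
    linarith
  rw [ct_gh s x hs h0, mul_zero, Real.cos_zero, one_pow, mul_one]
  congr 2
  apply Finset.sum_congr rfl
  intro k hk
  have := nu_pos (hs k hk)
  rw [zero_pow two_ne_zero, sub_zero]
  field_simp

lemma mom_gh (s : Finset ℕ) (x : ℕ → ℝ) (hs : ∀ k ∈ s, 1 ≤ k) :
    mom (gh s x) = 2 * ∑ k ∈ s, x k ^ 2 * (1 - 1 / (2 * Real.pi ^ 2 * nu k ^ 2)) +
      2 / Real.pi ^ 2 * (∑ k ∈ s, x k / nu k) ^ 2 := by
  have hpi := Real.pi_pos
  have h1 := mom_idh s (fun k => nu k * x k) hs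
  have h2 : ∑ k ∈ s, nu k * x k / nu k ^ 2 = ∑ k ∈ s, x k / nu k := by
    apply Finset.sum_congr rfl
    intro k hk
    have hk0 := nu_pos (hs k hk)
    field_simp
  have h3 : ∑ k ∈ s, (nu k * x k) ^ 2 / nu k ^ 4 = ∑ k ∈ s, x k ^ 2 / nu k ^ 2 := by
    apply Finset.sum_congr rfl
    intro k hk
    have hk0 := nu_pos (hs k hk)
    field_simp
  rw [h2, h3] at h1
  unfold gh
  rw [mom_GH]
  have h4 : ∀ k ∈ s, 4 / Real.pi ^ 2 * (nu k * x k) ^ 2 * mom (g2 (nu k)) +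
      8 / Real.pi ^ 2 * (nu k * x k) * ch s (fun l => nu l * x l) k * mom (g1 (nu k)) =
      2 * (x k ^ 2 * (1 - 1 / (2 * Real.pi ^ 2 * nu k ^ 2))) +
      2 / Real.pi ^ 2 * (x k ^ 2 / nu k ^ 2) +
      4 / Real.pi ^ 2 * (nu k * x k * ch s (fun l => nu l * x l) k / nu k ^ 2) := by
    intro k hk
    have hk0 := nu_pos (hs k hk)
    have hk1 := hs k hk
    have hcos : Real.cos (2 * Real.pi * nu k) = -1 := by
      have e : 2 * Real.pi * nu k = (k : ℝ) * (2 * Real.pi) - Real.pi := by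
        unfold nu
        ring
      rw [e, Real.cos_sub_pi, Real.cos_nat_mul_two_pi]
    rw [mom_g1 (nu_hi hk1), mom_g2 (nu_hi hk1), hcos]
    field_simp
    ring
  rw [Finset.sum_congr rfl h4, Finset.sum_add_distrib, Finset.sum_add_distrib, ← Finset.mul_sum,
    ← Finset.mul_sum, ← Finset.mul_sum]
  linear_combination (2 / Real.pi ^ 2) * h1

end Pool.Agent.H792_Atoms
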