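import Pool.Agent.Y747.Blk

/-!
# Pairs of ordinates up to height `T` in short windows
-/

open Filter Topology Set

namespace Pool.Agent.H792_Atoms

open SG (ord)
open W200.HW (Ix mem_Ix)
open Pool.Agent.Y747 (Bx mem_Bx)
open Pool.Agent.TH873.EW (ct mom XV)

lemma ct_even' (g : ℝ → ℝ) (x : ℝ) : ct g (-x) = ct g x := by
  unfold Pool.Agent.TH873.EW.ct
  congr 1
  apply intervalIntegral.integral_congr
  intro t _
  simp only
  rw [show 2 * Real.pi * -x * t = -(2 * Real.pi * x * t) by ring, Real.cos_neg]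

/-- sums over ordered pairs of ordinates -/
noncomputable def WW (S : Finset ℕ) (ω : ℝ → ℝ) : ℝ := ∑ n ∈ S, ∑ m ∈ S, ω (ord n - ord m)

/-- the counting hypothesis for short intervals -/
def Edge (L : ℝ) : Prop := ∀ T : ℝ, 3 ≤ T → ∀ a b : ℝ, a ≤ b →
    (((Ix T).filter (fun n => a < ord n ∧ ord n ≤ b)).card : ℝ) ≤ L * Real.log T * (b - a + 1)

lemma inner_le {L : ℝ} (hed : Edge L) {ω : ℝ → ℝ} {C : ℝ} (hC : 0 ≤ C)
    (hωC : ∀ d, ω d ≤ C) (hsupp : ∀ d, (d ≤ 0 ∨ 1 < d) → ω d = 0) {T : ℝ} (hT : 3 ≤ T) (x : ℝ) :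
    ∑ m ∈ Ix T, ω (x - ord m) ≤ 3 * C * L * Real.log T := by
  classical
  have h1 : ∑ m ∈ Ix T, ω (x - ord m) ≤
      ∑ m ∈ Ix T, if (x - 2 < ord m ∧ ord m ≤ x) then C else 0 := by
    apply Finset.sum_le_sum
    intro m _
    split_ifs with h
    · exact hωC _
    · rw [not_and_or, not_lt, not_le] at h
      rw [hsupp]
      rcases h with h | h
      · right; linarith
      · left; linarith
  rw [← Finset.sum_filter, Finset.sum_const, nsmul_eq_mul] at h1
  have h2 := hed T hT (x - 2) x (by linarith)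
  have h3 : x - (x - 2) + 1 = 3 := by ring
  rw [h3] at h2
  calc _ ≤ _ := h1
    _ ≤ (L * Real.log T * 3) * C := mul_le_mul_of_nonneg_right h2 hC
    _ = _ := by ring

lemma step {L : ℝ} (hL : 0 < L) (hed : Edge L) {ω : ℝ → ℝ} {C : ℝ} (hC : 0 ≤ C)
    (h0 : ∀ d, 0 ≤ ω d) (hωC : ∀ d, ω d ≤ C) (hsupp : ∀ d, (d ≤ 0 ∨ 1 < d) → ω d = 0)
    {T : ℝ} (hT : 20 ≤ T) :
    WW (Ix T) ω ≤ WW (Ix (T / 2)) ω + WW (Bx (T / 2)) ω + 15 * C * L ^ 2 * Real.log T ^ 2 := by
  classical
  have hlT : 0 < Real.log T := Real.log_pos (by linarith)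
  set f : ℕ → ℝ := fun n => ∑ m ∈ Ix T, ω (ord n - ord m) with hf
  have hf0 : ∀ n, 0 ≤ f n := fun n => Finset.sum_nonneg fun m _ => h0 _
  have hfC : ∀ n, f n ≤ 3 * C * L * Real.log T := fun n =>
    inner_le hed hC hωC hsupp (by linarith) (ord n)
  set E1 := (Ix T).filter (fun n => T / 2 < ord n ∧ ord n ≤ T / 2 + 2) with hE1
  set E2 := (Ix T).filter (fun n => T - 1 < ord n ∧ ord n ≤ T) with hE2
  set B' := (Bx (T / 2)).filter (fun n => T / 2 + 2 < ord n) with hB'
  have hsub : Ix T ⊆ ((Ix (T / 2) ∪ B') ∪ E1) ∪ E2 := by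
    intro n hn
    rw [mem_Ix] at hn
    simp only [Finset.mem_union, hE1, hE2, hB', Finset.mem_filter, mem_Bx, mem_Ix]
    by_cases c1 : ord n ≤ T / 2
    · exact Or.inl (Or.inl (Or.inl ⟨hn.1, c1⟩))
    · rw [not_le] at c1
      by_cases c2 : ord n ≤ T / 2 + 2
      · exact Or.inl (Or.inr ⟨hn, c1, c2⟩)
      · rw [not_le] at c2
        by_cases c3 : ord n ≤ T - 1
        · refine Or.inl (Or.inl (Or.inr ⟨⟨hn.1, by linarith, by linarith⟩, c2⟩))
        · rw [not_le] at c3
          exact Or.inr ⟨hn, c3, hn.2⟩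
  have hun : ∀ X Y : Finset ℕ, ∑ n ∈ X ∪ Y, f n ≤ ∑ n ∈ X, f n + ∑ n ∈ Y, f n := by
    intro X Y
    have h5 := Finset.sum_union_inter (s₁ := X) (s₂ := Y) (f := f)
    have h6 : 0 ≤ ∑ n ∈ X ∩ Y, f n := Finset.sum_nonneg fun n _ => hf0 n
    linarith
  have h5 : WW (Ix T) ω ≤ ∑ n ∈ ((Ix (T / 2) ∪ B') ∪ E1) ∪ E2, f n :=
    Finset.sum_le_sum_of_subset_of_nonneg hsub fun n _ _ => hf0 n
  have h6 := hun ((Ix (T / 2) ∪ B') ∪ E1) E2
  have h7 := hun (Ix (T / 2) ∪ B') E1
  have h8 := hun (Ix (T / 2)) B'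
  have hE : ∀ X : Finset ℕ, ∀ c : ℝ, (X.card : ℝ) ≤ L * Real.log T * c →
      ∑ n ∈ X, f n ≤ 3 * c * C * L ^ 2 * Real.log T ^ 2 := by
    intro X c hX
    calc ∑ n ∈ X, f n ≤ ∑ n ∈ X, 3 * C * L * Real.log T := Finset.sum_le_sum fun n _ => hfC n
      _ = X.card * (3 * C * L * Real.log T) := by rw [Finset.sum_const, nsmul_eq_mul]
      _ ≤ (L * Real.log T * c) * (3 * C * L * Real.log T) := by gcongr
      _ = _ := by ring
  have h9 := hE E1 3 (by
    have := hed T (by linarith) (T / 2) (T / 2 + 2) (by linarith)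
    refine this.trans (le_of_eq ?_)
    ring)
  have h10 := hE E2 2 (by
    have := hed T (by linarith) (T - 1) T (by linarith)
    refine this.trans (le_of_eq ?_)
    ring)
  have h11 : ∑ n ∈ Ix (T / 2), f n ≤ WW (Ix (T / 2)) ω := by
    apply Finset.sum_le_sum
    intro n hn
    rw [mem_Ix] at hn
    simp only [hf]
    rw [← Finset.sum_filter_ne_zero]
    apply Finset.sum_le_sum_of_subset_of_nonneg
    · intro m hm
      rw [Finset.mem_filter, mem_Ix] at hm
      rw [mem_Ix]
      refine ⟨hm.1.1, ?_⟩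
      by_contra h
      rw [not_le] at h
      exact hm.2 (hsupp _ (Or.inl (by linarith [hn.2])))
    · intro m _ _
      exact h0 _
  have h12 : ∑ n ∈ B', f n ≤ WW (Bx (T / 2)) ω := by
    have h13 : ∑ n ∈ B', f n ≤ ∑ n ∈ B', ∑ m ∈ Bx (T / 2), ω (ord n - ord m) := by
      apply Finset.sum_le_sum
      intro n hn
      rw [hB', Finset.mem_filter, mem_Bx] at hn
      obtain ⟨⟨n1, n2, n3⟩, n4⟩ := hn
      simp only [hf]
      rw [← Finset.sum_filter_ne_zero]
      apply Finset.sum_le_sum_of_subset_of_nonneg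
      · intro m hm
        rw [Finset.mem_filter, mem_Ix] at hm
        rw [mem_Bx]
        have h14 : 0 < ord n - ord m := by
          by_contra h
          rw [not_lt] at h
          exact hm.2 (hsupp _ (Or.inl h))
        have h15 : ord n - ord m ≤ 1 := by
          by_contra h
          rw [not_le] at h
          exact hm.2 (hsupp _ (Or.inr h))
        exact ⟨hm.1.1, by linarith, by linarith⟩
      · intro m _ _
        exact h0 _
    refine h13.trans ?_
    apply Finset.sum_le_sum_of_subset_of_nonneg (Finset.filter_subset _ _)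
    intro n _ _
    exact Finset.sum_nonneg fun m _ => h0 _
  linarith

lemma XV_le {V T : ℝ} (hV : 2 ≤ V) (hVT : V ≤ T) : XV V ≤ V * Real.log T / (2 * Real.pi) := by
  have hpi := Real.pi_pos
  unfold Pool.Agent.TH873.EW.XV
  have h3 : Real.log V ≤ Real.log T := Real.log_le_log (by linarith) hVT
  have h4 : 0 ≤ Real.log V := Real.log_nonneg (by linarith)
  apply div_le_div_of_nonneg_right _ (by positivity)
  calc (V - 2) * Real.log V ≤ V * Real.log V := by
        apply mul_le_mul_of_nonneg_right _ h4; linarith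
    _ ≤ V * Real.log T := by
        apply mul_le_mul_of_nonneg_left h3; linarith

lemma assemble {L : ℝ} (hL : 0 < L) (hed : Edge L) {ω : ℝ → ℝ} {C A : ℝ} (hC : 0 ≤ C)
    (hA : 0 ≤ A) (h0 : ∀ d, 0 ≤ ω d) (hωC : ∀ d, ω d ≤ C)
    (hsupp : ∀ d, (d ≤ 0 ∨ 1 < d) → ω d = 0)
    {T : ℝ} (hT : 3 ≤ T) (hT1 : 1 ≤ Real.log T) (hX : 20 ≤ T / Real.log T ^ 2)
    (hblk : ∀ V : ℝ, T / Real.log T ^ 2 / 2 ≤ V → V ≤ T / 2 → WW (Bx V) ω ≤ A * XV V) (j : ℕ)
    (hj : Real.log T ^ 2 ≤ 2 ^ j) :
    WW (Ix T) ω ≤ A * (T * Real.log T / (2 * Real.pi)) + j * (15 * C * L ^ 2 * Real.log T ^ 2) +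
      3 * C * L ^ 2 * (T + Real.log T ^ 2) := by
  classical
  have hpi := Real.pi_pos
  set X : ℝ := T / Real.log T ^ 2 with hXd
  have hl2 : 0 < Real.log T ^ 2 := by positivity
  have key : ∀ j : ℕ, ∀ T' : ℝ, 0 ≤ T' → T' ≤ T → T' ≤ 2 ^ j * X →
      WW (Ix T') ω ≤ A * (T' * Real.log T / (2 * Real.pi)) +
        j * (15 * C * L ^ 2 * Real.log T ^ 2) + 3 * C * L ^ 2 * (T + Real.log T ^ 2) := by
    have base : ∀ T' : ℝ, 0 ≤ T' → T' ≤ T → T' ≤ X →
        WW (Ix T') ω ≤ 3 * C * L ^ 2 * (T + Real.log T ^ 2) := by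
      intro T' h1 h2 h3
      have hsubT : Ix T' ⊆ Ix T := by
        intro n hn
        rw [mem_Ix] at hn ⊢
        exact ⟨hn.1, hn.2.trans h2⟩
      have h4 : WW (Ix T') ω ≤ ∑ n ∈ Ix T', 3 * C * L * Real.log T := by
        apply Finset.sum_le_sum
        intro n _
        refine le_trans ?_ (inner_le hed hC hωC hsupp hT (ord n))
        exact Finset.sum_le_sum_of_subset_of_nonneg hsubT fun m _ _ => h0 _
      rw [Finset.sum_const, nsmul_eq_mul] at h4
      have h5 : ((Ix T').card : ℝ) ≤ L * Real.log T * (X - 0 + 1) := by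
        refine le_trans ?_ (hed T hT 0 X (by linarith))
        have : Ix T' ⊆ (Ix T).filter (fun n => 0 < ord n ∧ ord n ≤ X) := by
          intro n hn
          rw [Finset.mem_filter]
          refine ⟨hsubT hn, ?_⟩
          rw [mem_Ix] at hn
          exact ⟨SG.ord_pos hn.1, hn.2.trans h3⟩
        exact_mod_cast Finset.card_le_card this
      refine h4.trans ?_
      calc ((Ix T').card : ℝ) * (3 * C * L * Real.log T) ≤
          (L * Real.log T * (X - 0 + 1)) * (3 * C * L * Real.log T) := by gcongr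
        _ = 3 * C * L ^ 2 * (X * Real.log T ^ 2 + Real.log T ^ 2) := by ring
        _ = _ := by
          rw [hXd]
          field_simp
    intro j
    induction j with
    | zero =>
      intro T' h1 h2 h3
      have h4 := base T' h1 h2 (by simpa using h3)
      have h5 : 0 ≤ A * (T' * Real.log T / (2 * Real.pi)) := by positivity
      push_cast
      linarith
    | succ j ih =>
      intro T' h1 h2 h3
      rcases le_total T' X with h | h
      · have h4 := base T' h1 h2 h
        have h5 : 0 ≤ A * (T' * Real.log T / (2 * Real.pi)) := by positivity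
        have h6 : 0 ≤ ((j + 1 : ℕ) : ℝ) * (15 * C * L ^ 2 * Real.log T ^ 2) := by positivity
        linarith
      · have h4 := ih (T' / 2) (by linarith) (by linarith) (by rw [pow_succ] at h3; linarith)
        have hT'20 : 20 ≤ T' := hX.trans h
        have h5 := step hL hed hC h0 hωC hsupp hT'20
        have h6 := hblk (T' / 2) (by linarith) (by linarith)
        have h7 := XV_le (V := T' / 2) (T := T) (by linarith) (by linarith)
        have h8 : A * XV (T' / 2) ≤ A * (T' / 2 * Real.log T / (2 * Real.pi)) :=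
          mul_le_mul_of_nonneg_left h7 hA
        have h9 : Real.log T' ≤ Real.log T := Real.log_le_log (by linarith) h2
        have h10 : 0 ≤ Real.log T' := Real.log_nonneg (by linarith)
        have h11 : 15 * C * L ^ 2 * Real.log T' ^ 2 ≤ 15 * C * L ^ 2 * Real.log T ^ 2 := by
          gcongr
        push_cast
        have e : A * (T' / 2 * Real.log T / (2 * Real.pi)) +
            A * (T' / 2 * Real.log T / (2 * Real.pi)) = A * (T' * Real.log T / (2 * Real.pi)) := by
          ring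
        linarith
  refine key j T (by linarith) le_rfl ?_
  rw [hXd]
  calc T = Real.log T ^ 2 * (T / Real.log T ^ 2) := by field_simp
    _ ≤ 2 ^ j * (T / Real.log T ^ 2) := by
      apply mul_le_mul_of_nonneg_right hj
      positivity

end Pool.Agent.H792_Atoms
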