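import Pool.Agent.H792_Atoms.Ker
import Pool.Agent.H792_Atoms.Upper

/-!
# The quadratic inequality for the pair counts around the integers
-/

open Filter Set

namespace Pool.Agent.H792_Atoms

open SG (ord)
open W200.HW (Ix mem_Ix)
open Pool.Agent.TH873.EW (ct mom)

/-- the number of ordered pairs of ordinates in `(0, T]` with
`2πα / log T ≤ γ - γ' ≤ 2πβ / log T` -/
noncomputable def NP (T α β : ℝ) : ℕ :=
  {p : ℕ × ℕ | (1 ≤ p.1 ∧ ord p.1 ≤ T) ∧ (1 ≤ p.2 ∧ ord p.2 ≤ T) ∧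
    2 * Real.pi * α / Real.log T ≤ ord p.1 - ord p.2 ∧
    ord p.1 - ord p.2 ≤ 2 * Real.pi * β / Real.log T}.ncard

lemma NP_eq {T e : ℝ} (hT : 0 < Real.log T) (k : ℕ) :
    (NP T (k - e) (k + e) : ℝ) = (((Ix T ×ˢ Ix T).filter (fun p : ℕ × ℕ =>
      |(ord p.1 - ord p.2) * Real.log T / (2 * Real.pi) - k| ≤ e)).card : ℝ) := by
  have hpi := Real.pi_pos
  unfold NP
  rw [← Set.ncard_coe_finset]
  congr 2
  ext p
  simp only [Set.mem_ofPred_eq, Finset.coe_filter, Finset.mem_product, mem_Ix]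
  have aux : (2 * Real.pi * (k - e) / Real.log T ≤ ord p.1 - ord p.2 ∧
      ord p.1 - ord p.2 ≤ 2 * Real.pi * (k + e) / Real.log T) ↔
      |(ord p.1 - ord p.2) * Real.log T / (2 * Real.pi) - k| ≤ e := by
    rw [abs_le, div_le_iff₀ hT, le_div_iff₀ hT]
    constructor
    · rintro ⟨h1, h2⟩
      constructor
      · rw [neg_le_sub_iff_le_add, ← sub_le_iff_le_add, le_div_iff₀ (by positivity)]
        linarith
      · rw [sub_le_iff_le_add, div_le_iff₀ (by positivity)]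
        linarith
    · rintro ⟨h1, h2⟩
      constructor
      · rw [neg_le_sub_iff_le_add, ← sub_le_iff_le_add, le_div_iff₀ (by positivity)] at h1
        linarith
      · rw [sub_le_iff_le_add, div_le_iff₀ (by positivity)] at h2
        linarith
  exact ⟨fun ⟨h1, h2, h3⟩ => ⟨⟨h1, h2⟩, aux.1 h3⟩, fun ⟨⟨h1, h2⟩, h3⟩ => ⟨h1, h2, aux.2 h3⟩⟩

lemma WW_om {T e η : ℝ} (hT : 0 < Real.log T) (g : ℝ → ℝ) (K : ℕ) :
    WW (Ix T) (om g K η e (Real.log T)) =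
      ∑ k ∈ Finset.Icc 1 K, max 0 (ct g k - η) * (NP T (k - e) (k + e) : ℝ) := by
  classical
  unfold WW om
  rw [← Finset.sum_product' (Ix T) (Ix T) (fun n m => ∑ k ∈ Finset.Icc 1 K,
    if |(ord n - ord m) * Real.log T / (2 * Real.pi) - k| ≤ e then max 0 (ct g k - η) else 0),
    Finset.sum_comm]
  apply Finset.sum_congr rfl
  intro k _
  rw [NP_eq hT k, ← Finset.sum_filter, Finset.sum_const, nsmul_eq_mul, mul_comm]

/-- the quadratic inequality -/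
lemma quad (hRH : RiemannHypothesis) (K : ℕ) (m : ℕ → ℝ) (hm : ∀ k, 0 ≤ m k)
    (h : ∀ ε : ℝ, 0 < ε → ∃ᶠ T : ℝ in atTop, ∀ k ∈ Finset.Icc 1 K,
      m k * (T / (2 * Real.pi) * Real.log T) ≤ NP T (k - ε) (k + ε)) (x : ℕ → ℝ) :
    ∑ k ∈ Finset.Icc 1 K, m k * x k ^ 2 ≤
      ∑ k ∈ Finset.Icc 1 K, x k ^ 2 * (1 - 1 / (2 * Real.pi ^ 2 * (k : ℝ) ^ 2)) -
      1 / Real.pi ^ 2 * (∑ k ∈ Finset.Icc 1 K, x k / k) ^ 2 := by
  have hpi := Real.pi_pos
  have hs : ∀ k ∈ Finset.Icc 1 K, 1 ≤ k := fun k hk => (Finset.mem_Icc.1 hk).1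
  have hM : 0 ≤ ∑ k ∈ Finset.Icc 1 K, m k := Finset.sum_nonneg fun k _ => hm k
  set R := ∑ k ∈ Finset.Icc 1 K, x k ^ 2 * (1 - 1 / (2 * Real.pi ^ 2 * (k : ℝ) ^ 2)) -
      1 / Real.pi ^ 2 * (∑ k ∈ Finset.Icc 1 K, x k / k) ^ 2 with hR
  have hmom : mom (gx (Finset.Icc 1 K) x) / 2 = R := by
    rw [mom_gx _ x hs, hR]
    ring
  apply le_of_forall_pos_le_add
  intro ε hε
  set η : ℝ := ε / (1 + ∑ k ∈ Finset.Icc 1 K, m k) with hη
  have hη0 : 0 < η := by positivity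
  obtain ⟨e, he, T0, hT0⟩ := pairs_upper hRH (gx_cd (Finset.Icc 1 K) x)
    (gx_one (Finset.Icc 1 K) x) (ct_gx_nonneg (Finset.Icc 1 K) x hs) K hη0
  obtain ⟨T, hT1, hT2, hT3⟩ :=
    ((h e he).and_eventually ((eventually_ge_atTop T0).and (eventually_ge_atTop 3))).exists
  have hlog : 0 < Real.log T := Real.log_pos (by linarith)
  have hMT : 0 < T / (2 * Real.pi) * Real.log T := by positivity
  have h1 := hT0 T hT2
  rw [WW_om hlog, hmom] at h1
  have h2 : (∑ k ∈ Finset.Icc 1 K, (x k ^ 2 - η) * m k) * (T / (2 * Real.pi) * Real.log T) ≤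
      (R + η) * (T / (2 * Real.pi) * Real.log T) := by
    refine le_trans ?_ h1
    rw [Finset.sum_mul]
    apply Finset.sum_le_sum
    intro k hk
    rw [ct_gx_nat _ x hs hk]
    have h3 : x k ^ 2 - η ≤ max 0 (x k ^ 2 - η) := le_max_right _ _
    calc (x k ^ 2 - η) * m k * (T / (2 * Real.pi) * Real.log T) =
        (x k ^ 2 - η) * (m k * (T / (2 * Real.pi) * Real.log T)) := by ring
      _ ≤ max 0 (x k ^ 2 - η) * (m k * (T / (2 * Real.pi) * Real.log T)) := by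
        apply mul_le_mul_of_nonneg_right h3
        exact mul_nonneg (hm k) hMT.le
      _ ≤ _ := mul_le_mul_of_nonneg_left (hT1 k hk) (le_max_left _ _)
  have h3 := le_of_mul_le_mul_right h2 hMT
  have h4 : ∑ k ∈ Finset.Icc 1 K, (x k ^ 2 - η) * m k =
      ∑ k ∈ Finset.Icc 1 K, m k * x k ^ 2 - η * ∑ k ∈ Finset.Icc 1 K, m k := by
    rw [Finset.mul_sum, ← Finset.sum_sub_distrib]
    apply Finset.sum_congr rfl
    intro k _
    ring
  rw [h4] at h3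
  have h5 : η * (1 + ∑ k ∈ Finset.Icc 1 K, m k) = ε := by
    rw [hη]
    field_simp
  linarith

/-- from the quadratic inequality to the inequality for the sum -/
lemma quad_sum (K : ℕ) (m : ℕ → ℝ) (hq : ∀ x : ℕ → ℝ,
    ∑ k ∈ Finset.Icc 1 K, m k * x k ^ 2 ≤
      ∑ k ∈ Finset.Icc 1 K, x k ^ 2 * (1 - 1 / (2 * Real.pi ^ 2 * (k : ℝ) ^ 2)) -
      1 / Real.pi ^ 2 * (∑ k ∈ Finset.Icc 1 K, x k / k) ^ 2) :
    (∀ k ∈ Finset.Icc 1 K, 3 / (2 * Real.pi ^ 2 * (k : ℝ) ^ 2) ≤ 1 - m k) ∧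
      ∑ k ∈ Finset.Icc 1 K, 1 / (Real.pi ^ 2 * (k : ℝ) ^ 2 * (1 - m k) - 1 / 2) ≤ 1 := by
  classical
  have hpi := Real.pi_pos
  have hs : ∀ k ∈ Finset.Icc 1 K, 1 ≤ k := fun k hk => (Finset.mem_Icc.1 hk).1
  have ha : ∀ k ∈ Finset.Icc 1 K, 3 / (2 * Real.pi ^ 2 * (k : ℝ) ^ 2) ≤ 1 - m k := by
    intro j hj
    have hj0 : (0 : ℝ) < j := by exact_mod_cast hs j hj
    have h1 := hq (Pi.single j 1)
    have e1 : ∑ k ∈ Finset.Icc 1 K, m k * (Pi.single j 1 : ℕ → ℝ) k ^ 2 = m j := by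
      rw [Finset.sum_eq_single j]
      · simp
      · intro k _ hk
        simp [Pi.single_eq_of_ne hk]
      · intro h2
        exact absurd hj h2
    have e2 : ∑ k ∈ Finset.Icc 1 K, (Pi.single j 1 : ℕ → ℝ) k ^ 2 *
        (1 - 1 / (2 * Real.pi ^ 2 * (k : ℝ) ^ 2)) = 1 - 1 / (2 * Real.pi ^ 2 * (j : ℝ) ^ 2) := by
      rw [Finset.sum_eq_single j]
      · simp
      · intro k _ hk
        simp [Pi.single_eq_of_ne hk]
      · intro h2
        exact absurd hj h2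
    have e3 : ∑ k ∈ Finset.Icc 1 K, (Pi.single j 1 : ℕ → ℝ) k / k = 1 / j := by
      rw [Finset.sum_eq_single j]
      · simp
      · intro k _ hk
        simp [Pi.single_eq_of_ne hk]
      · intro h2
        exact absurd hj h2
    rw [e1, e2, e3] at h1
    have e4 : 3 / (2 * Real.pi ^ 2 * (j : ℝ) ^ 2) =
        1 / (2 * Real.pi ^ 2 * (j : ℝ) ^ 2) + 1 / Real.pi ^ 2 * (1 / (j : ℝ)) ^ 2 := by
      field_simp
      norm_num
    rw [e4]
    linarith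
  refine ⟨ha, ?_⟩
  set a : ℕ → ℝ := fun k => 1 - m k - 1 / (2 * Real.pi ^ 2 * (k : ℝ) ^ 2) with had
  have hapos : ∀ k ∈ Finset.Icc 1 K, 0 < a k := by
    intro k hk
    have hk0 : (0 : ℝ) < k := by exact_mod_cast hs k hk
    have h1 := ha k hk
    have e4 : 3 / (2 * Real.pi ^ 2 * (k : ℝ) ^ 2) =
        1 / (2 * Real.pi ^ 2 * (k : ℝ) ^ 2) + 1 / (Real.pi ^ 2 * (k : ℝ) ^ 2) := by
      field_simp
      norm_num
    have h2 : 0 < 1 / (Real.pi ^ 2 * (k : ℝ) ^ 2) := by positivity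
    simp only [had]
    linarith
  have h1 := hq (fun k => 1 / (k * a k))
  set S := ∑ k ∈ Finset.Icc 1 K, 1 / ((k : ℝ) ^ 2 * a k) with hS
  have hS0 : 0 ≤ S := Finset.sum_nonneg fun k hk => by
    have := hapos k hk
    positivity
  have e1 : ∑ k ∈ Finset.Icc 1 K, 1 / ((k : ℝ) * a k) / k = S := by
    apply Finset.sum_congr rfl
    intro k hk
    have hk0 : (0 : ℝ) < k := by exact_mod_cast hs k hk
    have := hapos k hk
    field_simp
  have e2 : ∑ k ∈ Finset.Icc 1 K, (1 / ((k : ℝ) * a k)) ^ 2 *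
      (1 - 1 / (2 * Real.pi ^ 2 * (k : ℝ) ^ 2)) -
      ∑ k ∈ Finset.Icc 1 K, m k * (1 / ((k : ℝ) * a k)) ^ 2 = S := by
    rw [← Finset.sum_sub_distrib]
    apply Finset.sum_congr rfl
    intro k hk
    have hk0 : (0 : ℝ) < k := by exact_mod_cast hs k hk
    have h2 := hapos k hk
    have e3 : (1 / ((k : ℝ) * a k)) ^ 2 * (1 - 1 / (2 * Real.pi ^ 2 * (k : ℝ) ^ 2)) -
        m k * (1 / ((k : ℝ) * a k)) ^ 2 = (1 / ((k : ℝ) * a k)) ^ 2 * a k := by
      simp only [had]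
      ring
    rw [e3]
    field_simp
  rw [e1] at h1
  have h2 : 1 / Real.pi ^ 2 * S ^ 2 ≤ S := by linarith
  have h3 : S / Real.pi ^ 2 ≤ 1 := by
    rcases hS0.eq_or_lt with h4 | h4
    · rw [← h4, zero_div]
      norm_num
    · have h5 : S * (S / Real.pi ^ 2) ≤ S * 1 := by
        have e3 : S * (S / Real.pi ^ 2) = 1 / Real.pi ^ 2 * S ^ 2 := by ring
        rw [e3, mul_one]
        exact h2
      exact le_of_mul_le_mul_left h5 h4
  refine le_trans (le_of_eq ?_) h3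
  rw [hS, Finset.sum_div]
  apply Finset.sum_congr rfl
  intro k hk
  have hk0 : (0 : ℝ) < k := by exact_mod_cast hs k hk
  have h4 := hapos k hk
  have e3 : Real.pi ^ 2 * (k : ℝ) ^ 2 * (1 - m k) - 1 / 2 = Real.pi ^ 2 * ((k : ℝ) ^ 2 * a k) := by
    simp only [had]
    field_simp
  rw [e3]
  field_simp


end Pool.Agent.H792_Atoms
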