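import Pool.Agent.H792_Atoms.Upper
import Pool.Agent.H792_Atoms.PairsE

/-!
# An upper bound for pairs of ordinates in short windows around the integers `0, 1, …, K`
-/

open Filter Topology Set

namespace Pool.Agent.H792_Atoms

open SG (ord)
open W200.HW (Ix mem_Ix)
open Pool.Agent.Y747 (Bx mem_Bx)
open Pool.Agent.TH873.EW (ct mom XV)

/-- the weight of the windows of radius `e` around the integers `0, …, K`; the value at `0` is
halved -/
noncomputable def omE (g : ℝ → ℝ) (K : ℕ) (η e ℓ : ℝ) (d : ℝ) : ℝ :=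
  if 0 < d then
    ∑ k ∈ Finset.range (K + 1), if |d * ℓ / (2 * Real.pi) - k| ≤ e then max 0 (ct g k - η) else 0
  else if d = 0 then max 0 (ct g 0 - η) / 2 else 0

lemma omE_nonneg (g : ℝ → ℝ) (K : ℕ) (η e ℓ d : ℝ) : 0 ≤ omE g K η e ℓ d := by
  unfold omE
  have h : 0 ≤ max 0 (ct g 0 - η) := le_max_left _ _
  split_ifs
  · apply Finset.sum_nonneg
    intro k _
    split_ifs <;> [exact le_max_left _ _; exact le_rfl]
  · linarith
  · exact le_rfl

lemma omE_le {g : ℝ → ℝ} {K : ℕ} {η e ℓ C : ℝ} (hη : 0 ≤ η) (hC0 : 0 ≤ C) (hC : ∀ x, ct g x ≤ C)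
    (d : ℝ) : omE g K η e ℓ d ≤ (K + 1) * C := by
  have hK : (0 : ℝ) ≤ K := Nat.cast_nonneg K
  unfold omE
  split_ifs
  · have h : (∑ k ∈ Finset.range (K + 1),
        if |d * ℓ / (2 * Real.pi) - k| ≤ e then max 0 (ct g k - η) else 0) ≤
        ∑ k ∈ Finset.range (K + 1), C := by
      apply Finset.sum_le_sum
      intro k _
      split_ifs
      · apply max_le hC0
        have := hC k
        linarith
      · exact hC0
    rw [Finset.sum_const, nsmul_eq_mul, Finset.card_range] at h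
    push_cast at h
    exact h
  · have h : max 0 (ct g 0 - η) ≤ C := by
      apply max_le hC0
      have := hC 0
      linarith
    have h2 : 0 ≤ K * C := by positivity
    linarith
  · positivity

lemma omE_zero {g : ℝ → ℝ} {K : ℕ} {η e ℓ d : ℝ} (hd : 0 < d)
    (h : ∀ k ∈ Finset.range (K + 1), ¬ |d * ℓ / (2 * Real.pi) - k| ≤ e) :
    omE g K η e ℓ d = 0 := by
  unfold omE
  rw [if_pos hd]
  apply Finset.sum_eq_zero
  intro k hk
  rw [if_neg (h k hk)]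

lemma omE_neg {g : ℝ → ℝ} {K : ℕ} {η e ℓ d : ℝ} (hd : d < 0) : omE g K η e ℓ d = 0 := by
  unfold omE
  rw [if_neg (not_lt.2 hd.le), if_neg hd.ne]

lemma omE_one {g : ℝ → ℝ} {K : ℕ} {η e ℓ d : ℝ} (hd : 0 < d) (he : e ≤ 1 / 4) {k : ℕ}
    (hk : k ∈ Finset.range (K + 1)) (h : |d * ℓ / (2 * Real.pi) - k| ≤ e) :
    omE g K η e ℓ d = max 0 (ct g k - η) := by
  unfold omE
  rw [if_pos hd, Finset.sum_eq_single k, if_pos h]
  · intro l _ hlk
    rw [if_neg]
    intro h2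
    have h3 : |(k : ℝ) - l| ≤ 1 / 2 := by
      have e1 : (k : ℝ) - l = (d * ℓ / (2 * Real.pi) - l) - (d * ℓ / (2 * Real.pi) - k) := by ring
      rw [e1]
      refine (abs_sub _ _).trans ?_
      linarith
    have h4 : (1 : ℝ) ≤ |(k : ℝ) - l| := by
      have h5 : (1 : ℤ) ≤ |(k : ℤ) - l| := Int.one_le_abs (sub_ne_zero.2 (by
        intro h6
        exact hlk (by exact_mod_cast h6.symm)))
      have h6 : ((1 : ℤ) : ℝ) ≤ ((|(k : ℤ) - l| : ℤ) : ℝ) := by exact_mod_cast h5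
      push_cast at h6
      exact h6
    linarith
  · intro h2
    exact absurd hk h2

lemma omE_supp {g : ℝ → ℝ} {K : ℕ} {η e ℓ : ℝ} (he : e ≤ 1 / 4) (hℓ : 2 * Real.pi * (K + 1) ≤ ℓ)
    (d : ℝ) (hd : d < 0 ∨ 1 < d) : omE g K η e ℓ d = 0 := by
  have hpi := Real.pi_pos
  have hK : (0 : ℝ) ≤ K := Nat.cast_nonneg K
  have hℓ0 : 0 < ℓ := lt_of_lt_of_le (by positivity) hℓ
  rcases hd with hd | hd
  · exact omE_neg hd
  · apply omE_zero (by linarith)
    intro k hk h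
    rw [Finset.mem_range] at hk
    have hkK : (k : ℝ) ≤ K := by exact_mod_cast (Nat.lt_succ_iff.1 hk)
    rw [abs_le] at h
    have h2 : (K : ℝ) + 1 ≤ d * ℓ / (2 * Real.pi) := by
      rw [le_div_iff₀ (by positivity)]
      nlinarith
    linarith [h.2]

lemma omE_pt {g : ℝ → ℝ} {K : ℕ} {η e ℓ δ C k0 lv : ℝ} (_hη : 0 < η)
    (hpos : ∀ x, 0 ≤ ct g x) (hC : ∀ x, ct g x ≤ C) (he : e ≤ 1 / 4) (heδ : e ≤ δ / 2)
    (hδ : ∀ k ∈ Finset.range (K + 1), ∀ u : ℝ, |u - k| ≤ δ → ct g k - η / 2 ≤ ct g u)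
    (hℓ0 : 0 < ℓ) (hk0 : k0 = lv / ℓ) (h1 : k0 ≤ 1) (h2 : (1 - k0) * (K + 1) ≤ δ / 2)
    (h4 : C * (2 * Real.pi * (K + 1) / ℓ) ^ 2 / 4 ≤ η / 2) {d : ℝ} (hd0 : 0 < d) :
    omE g K η e ℓ d ≤ Real.exp (-d ^ 2 / 4) * ct g (lv / (2 * Real.pi) * d) := by
  have hpi := Real.pi_pos
  have hexp := Real.exp_pos (-d ^ 2 / 4)
  by_cases h : ∃ k ∈ Finset.range (K + 1), |d * ℓ / (2 * Real.pi) - k| ≤ e
  · obtain ⟨k, hk, hke⟩ := h
    rw [omE_one hd0 he hk hke]
    have hk' := Finset.mem_range.1 hk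
    have hkK : (k : ℝ) ≤ K := by exact_mod_cast (Nat.lt_succ_iff.1 hk')
    set y := d * ℓ / (2 * Real.pi) with hy
    have hy2 := abs_le.1 hke
    have hy0 : 0 < y := by rw [hy]; positivity
    have hyK : y ≤ K + 1 := by linarith [hy2.2]
    have hd : d = y * (2 * Real.pi) / ℓ := by
      rw [hy]
      field_simp
    have hu : lv / (2 * Real.pi) * d = k0 * y := by
      rw [hk0, hy]
      field_simp
    have h5 : |k0 * y - k| ≤ δ := by
      have e1 : k0 * y - k = (y - k) - (1 - k0) * y := by ring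
      rw [e1]
      refine (abs_sub _ _).trans ?_
      have h6 : |(1 - k0) * y| ≤ δ / 2 := by
        rw [abs_of_nonneg (mul_nonneg (by linarith) hy0.le)]
        refine le_trans ?_ h2
        exact mul_le_mul_of_nonneg_left hyK (by linarith)
      linarith
    have h6 := hδ k hk _ h5
    rw [hu]
    have hct := hpos (k0 * y)
    have hctC := hC (k0 * y)
    have h7 : 1 - d ^ 2 / 4 ≤ Real.exp (-d ^ 2 / 4) := by
      have := Real.add_one_le_exp (-d ^ 2 / 4)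
      linarith
    have hC0 : 0 ≤ C := (hpos 0).trans (hC 0)
    have h8 : C * (d ^ 2 / 4) ≤ η / 2 := by
      refine le_trans ?_ h4
      rw [← mul_div_assoc]
      have h9 : d ≤ 2 * Real.pi * (K + 1) / ℓ := by
        rw [hd]
        apply div_le_div_of_nonneg_right _ hℓ0.le
        nlinarith
      have h10 : d ^ 2 ≤ (2 * Real.pi * (K + 1) / ℓ) ^ 2 := by gcongr
      have : C * d ^ 2 ≤ C * (2 * Real.pi * (K + 1) / ℓ) ^ 2 := mul_le_mul_of_nonneg_left h10 hC0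
      linarith
    have h9 : (1 - d ^ 2 / 4) * ct g (k0 * y) ≤ Real.exp (-d ^ 2 / 4) * ct g (k0 * y) :=
      mul_le_mul_of_nonneg_right h7 hct
    have h10 : d ^ 2 / 4 * ct g (k0 * y) ≤ C * (d ^ 2 / 4) := by
      rw [mul_comm C]
      exact mul_le_mul_of_nonneg_left hctC (by positivity)
    apply max_le (by positivity)
    nlinarith
  · push Not at h
    rw [omE_zero hd0 fun k hk => not_le.2 (h k hk)]
    exact mul_nonneg hexp.le (hpos _)

lemma block_omE {g : ℝ → ℝ} {K : ℕ} {η e ℓ δ C k0 lv : ℝ} (hη : 0 < η)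
    (hpos : ∀ x, 0 ≤ ct g x) (hC : ∀ x, ct g x ≤ C) (he : e ≤ 1 / 4) (heδ : e ≤ δ / 2)
    (hδ : ∀ k ∈ Finset.range (K + 1), ∀ u : ℝ, |u - k| ≤ δ → ct g k - η / 2 ≤ ct g u)
    (hℓ : 2 * Real.pi * (K + 1) ≤ ℓ) (hk0 : k0 = lv / ℓ) (h1 : k0 ≤ 1)
    (h2 : (1 - k0) * (K + 1) ≤ δ / 2)
    (h4 : C * (2 * Real.pi * (K + 1) / ℓ) ^ 2 / 4 ≤ η / 2) (S : Finset ℕ) :
    2 * WW S (omE g K η e ℓ) ≤ ∑ n ∈ S, ∑ m ∈ S, Real.exp (-(ord n - ord m) ^ 2 / 4) *
        ct g (lv / (2 * Real.pi) * (ord n - ord m)) := by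
  have hpi := Real.pi_pos
  have hK : (0 : ℝ) ≤ K := Nat.cast_nonneg K
  have hℓ0 : 0 < ℓ := lt_of_lt_of_le (by positivity) hℓ
  have e1 : WW S (omE g K η e ℓ) = ∑ n ∈ S, ∑ m ∈ S, omE g K η e ℓ (-(ord n - ord m)) := by
    unfold WW
    rw [Finset.sum_comm]
    apply Finset.sum_congr rfl
    intro n _
    apply Finset.sum_congr rfl
    intro m _
    rw [neg_sub]
  have e2 : 2 * WW S (omE g K η e ℓ) = ∑ n ∈ S, ∑ m ∈ S,
      (omE g K η e ℓ (ord n - ord m) + omE g K η e ℓ (-(ord n - ord m))) := by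
    rw [two_mul]
    nth_rewrite 2 [e1]
    unfold WW
    rw [← Finset.sum_add_distrib]
    apply Finset.sum_congr rfl
    intro n _
    rw [← Finset.sum_add_distrib]
  rw [e2]
  apply Finset.sum_le_sum
  intro n _
  apply Finset.sum_le_sum
  intro m _
  set d := ord n - ord m with hd
  rcases lt_trichotomy d 0 with h | h | h
  · rw [omE_neg h, zero_add]
    have h5 := omE_pt hη hpos hC he heδ hδ hℓ0 hk0 h1 h2 h4 (neg_pos.2 h)
    rw [neg_sq, mul_neg, Pool.Agent.H792_Atoms.ct_even'] at h5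
    exact h5
  · rw [h]
    have e3 : omE g K η e ℓ 0 = max 0 (ct g 0 - η) / 2 := by
      unfold omE
      rw [if_neg (lt_irrefl 0), if_pos rfl]
    have h6 := hpos 0
    have e4 : Real.exp (-(0 : ℝ) ^ 2 / 4) = 1 := by norm_num
    rw [neg_zero, e3, mul_zero, e4, one_mul, add_halves]
    exact max_le h6 (by linarith)
  · rw [omE_neg (neg_lt_zero.2 h), add_zero]
    exact omE_pt hη hpos hC he heδ hδ hℓ0 hk0 h1 h2 h4 h

/-- **the upper bound for pairs in short windows around the integers** -/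
theorem pairs_upperE (hRH : RiemannHypothesis) {g : ℝ → ℝ} (hg : ContDiff ℝ 1 g) (h1 : g 1 = 0)
    (hpos : ∀ x, 0 ≤ ct g x) (K : ℕ) {η : ℝ} (hη : 0 < η) :
    ∃ e : ℝ, 0 < e ∧ e ≤ 1 / 4 ∧ ∃ T0 : ℝ, ∀ T : ℝ, T0 ≤ T →
      WW (Ix T) (omE g K η e (Real.log T)) ≤ (mom g / 2 + η) * (T / (2 * Real.pi) * Real.log T) := by
  classical
  have hpi := Real.pi_pos
  have hK : (0 : ℝ) ≤ K := Nat.cast_nonneg K
  obtain ⟨C, hC0, hbd⟩ := Pool.Agent.Y747.ct_bound hg.continuous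
  have hC : ∀ x, ct g x ≤ C := fun x => (le_abs_self _).trans (hbd x)
  obtain ⟨L, hL, hed⟩ := Pool.Agent.Y747.edge hRH
  have hcont : Continuous (ct g) := Pool.Agent.TH873.EW.ct_cont hg.continuous
  -- the radius of continuity
  have hδ : ∃ δ : ℝ, 0 < δ ∧ ∀ k ∈ Finset.range (K + 1), ∀ u : ℝ, |u - k| ≤ δ →
      ct g k - η / 2 ≤ ct g u := by
    have huc := (isCompact_Icc (a := (-1 : ℝ)) (b := K + 1)).uniformContinuousOn_of_continuous
      hcont.continuousOn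
    rw [Metric.uniformContinuousOn_iff] at huc
    obtain ⟨δ, hδ, h⟩ := huc (η / 2) (by positivity)
    refine ⟨min (δ / 2) 1, lt_min (by positivity) one_pos, fun k hk u hu => ?_⟩
    have hk' := Finset.mem_range.1 hk
    have hk1 : (0 : ℝ) ≤ k := Nat.cast_nonneg k
    have hkK : (k : ℝ) ≤ K := by exact_mod_cast (Nat.lt_succ_iff.1 hk')
    have hu1 : |u - k| ≤ 1 := hu.trans (min_le_right _ _)
    have hu2 : |u - k| < δ := lt_of_le_of_lt (hu.trans (min_le_left _ _)) (by linarith)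
    have hu3 := abs_le.1 hu1
    have h2 := h k ⟨by linarith, by linarith⟩ u ⟨by linarith [hu3.1], by linarith [hu3.2]⟩ (by
      rw [dist_comm, Real.dist_eq]; exact hu2)
    rw [Real.dist_eq] at h2
    have := (abs_lt.1 h2).2
    linarith
  obtain ⟨δ, hδ0, hδ⟩ := hδ
  set e : ℝ := min (δ / 2) (1 / 4) with he
  have he0 : 0 < e := lt_min (by positivity) (by norm_num)
  have heδ : e ≤ δ / 2 := min_le_left _ _
  have he4 : e ≤ 1 / 4 := min_le_right _ _
  set κ : ℝ := min (δ / (4 * (K + 1))) (1 / 2) with hκ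
  have hκ0 : 0 < κ := lt_min (by positivity) (by norm_num)
  have hκ1 : κ ≤ 1 / 2 := min_le_right _ _
  have hκδ : 2 * κ * (K + 1) ≤ δ / 2 := by
    have h2 : κ ≤ δ / (4 * (K + 1)) := min_le_left _ _
    rw [le_div_iff₀ (by positivity)] at h2
    linarith
  set I : ℝ := ∫ t in (0 : ℝ)..1, t * g t with hI
  have hc : ContinuousAt (fun μ : ℝ => g 0 / μ + 2 * μ * I) 1 := by
    have : ContinuousAt (fun μ : ℝ => g 0 / μ) 1 :=
      continuousAt_const.div continuousAt_id one_ne_zero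
    exact this.add (by fun_prop)
  have hev : ∀ᶠ μ in 𝓝[<] (1 : ℝ), g 0 / μ + 2 * μ * I < mom g + η / 4 := by
    apply nhdsWithin_le_nhds
    apply hc.eventually_lt continuousAt_const
    simp only [div_one, mul_one]
    have : mom g = g 0 + 2 * I := rfl
    linarith
  have hev2 : ∀ᶠ μ in 𝓝[<] (1 : ℝ), 1 - κ < μ :=
    nhdsWithin_le_nhds (lt_mem_nhds (by linarith))
  have hlt : ∀ᶠ s in 𝓝[<] (1 : ℝ), s < 1 := self_mem_nhdsWithin
  obtain ⟨μ, ⟨hμ2, hμ3⟩, hμ4⟩ := ((hev.and hev2).and hlt).exists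
  have hμpos : 0 < μ := by linarith
  obtain ⟨V0, hV0, hp⟩ := Pool.Agent.Y747.blk_pair hRH hg h1 hμpos hμ4 (ε := η / 4) (by positivity)
  -- large `T`
  have ev1 : ∀ᶠ ℓ : ℝ in atTop, 4 ≤ ℓ ∧ 2 * Real.pi * (K + 1) ≤ ℓ ∧
      C * (2 * Real.pi * (K + 1)) ^ 2 / (4 * (η / 2)) ≤ ℓ ∧ Real.log 2 / (κ / 2) ≤ ℓ ∧
      3 * ((K + 1) * C) * L ^ 2 * (2 * Real.pi) / (η / 4) ≤ ℓ :=
    (eventually_ge_atTop _).and ((eventually_ge_atTop _).and ((eventually_ge_atTop _).and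
      ((eventually_ge_atTop _).and (eventually_ge_atTop _))))
  have ev2 : ∀ᶠ ℓ : ℝ in atTop, Real.log ℓ ≤ κ / 4 * ℓ := by
    have h2 := (Real.isLittleO_log_id_atTop).bound (c := κ / 4) (by positivity)
    filter_upwards [h2, eventually_gt_atTop 0] with ℓ h3 h4
    rw [Real.norm_eq_abs, Real.norm_eq_abs, id, abs_of_pos h4] at h3
    exact (le_abs_self _).trans h3
  set c3 : ℝ := η / 4 / (33 * ((K + 1) * C + 1) * L ^ 2 * (2 * Real.pi)) with hc3
  have hc30 : 0 < c3 := by positivity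
  have ev3 : ∀ᶠ T : ℝ in atTop, Real.log T ^ 3 ≤ c3 * T := by
    have h2 := (Real.isLittleO_pow_log_id_atTop (n := 3)).bound (c := c3) hc30
    filter_upwards [h2, eventually_gt_atTop 0] with T h3 h4
    rw [Real.norm_eq_abs, Real.norm_eq_abs, id, abs_of_pos h4] at h3
    exact (le_abs_self _).trans h3
  set c2 : ℝ := 1 / (2 * (V0 + 20)) with hc2
  have hc20 : 0 < c2 := by positivity
  have ev4 : ∀ᶠ T : ℝ in atTop, Real.log T ^ 2 ≤ c2 * T := by
    have h2 := (Real.isLittleO_pow_log_id_atTop (n := 2)).bound (c := c2) hc20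
    filter_upwards [h2, eventually_gt_atTop 0] with T h3 h4
    rw [Real.norm_eq_abs, Real.norm_eq_abs, id, abs_of_pos h4] at h3
    exact (le_abs_self _).trans h3
  have evL := Real.tendsto_log_atTop.eventually (ev1.and ev2)
  obtain ⟨T0, hT0⟩ := (((evL.and ev3).and ev4).and (eventually_ge_atTop 3)).exists_forall_of_atTop
  refine ⟨e, he0, he4, T0, fun T hT => ?_⟩
  obtain ⟨⟨⟨⟨⟨l4, lK, lC, l2, lL⟩, llog⟩, hT3⟩, hT2⟩, hTge⟩ := hT0 T hT
  set ℓ := Real.log T with hℓ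
  have hℓ0 : 0 < ℓ := by linarith
  have hTpos : 0 < T := by linarith
  have hC' : C * (2 * Real.pi * (K + 1) / ℓ) ^ 2 / 4 ≤ η / 2 := by
    rw [div_le_iff₀ (by positivity)] at lC
    rw [div_pow, ← mul_div_assoc, div_div, div_le_iff₀ (by positivity)]
    have h5 : ℓ ≤ ℓ ^ 2 := by nlinarith
    nlinarith
  have hX : 2 * (V0 + 20) ≤ T / ℓ ^ 2 := by
    rw [le_div_iff₀ (by positivity)]
    rw [hc2, one_div, inv_mul_eq_div, le_div_iff₀ (by positivity)] at hT2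
    linarith
  have hom0 : ∀ d, 0 ≤ omE g K η e ℓ d := fun d => omE_nonneg g K η e ℓ d
  have homC : ∀ d, omE g K η e ℓ d ≤ (K + 1) * C := fun d => omE_le hη.le hC0.le hC d
  have homS : ∀ d, (d < 0 ∨ 1 < d) → omE g K η e ℓ d = 0 := fun d hd => omE_supp he4 lK d hd
  have hblk : ∀ V : ℝ, T / ℓ ^ 2 / 2 ≤ V → V ≤ T / 2 →
      WW (Bx V) (omE g K η e ℓ) ≤ (mom g / 2 + η / 4) * XV V := by
    intro V hV1 hV2
    have hVV0 : V0 ≤ V := by linarith
    have hV10 : 10 ≤ V := hV0.trans hVV0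
    have hlV : 0 < Real.log V := Real.log_pos (by linarith)
    have hlVℓ : Real.log V ≤ ℓ := Real.log_le_log (by linarith) (by linarith)
    have hlV2 : (1 - κ) * ℓ ≤ Real.log V := by
      have h5 : Real.log (T / ℓ ^ 2 / 2) ≤ Real.log V := Real.log_le_log (by positivity) hV1
      rw [Real.log_div (by positivity) (by norm_num), Real.log_div (by positivity) (by positivity),
        Real.log_pow] at h5
      push_cast at h5
      rw [div_le_iff₀ (by positivity)] at l2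
      have h6 : Real.log T = ℓ := rfl
      rw [h6] at h5
      linarith
    have hk1 : μ * Real.log V / ℓ ≤ 1 := by
      rw [div_le_one hℓ0]
      calc μ * Real.log V ≤ 1 * ℓ := mul_le_mul hμ4.le hlVℓ hlV.le zero_le_one
        _ = ℓ := one_mul _
    have hk2 : (1 - μ * Real.log V / ℓ) * (K + 1) ≤ δ / 2 := by
      refine le_trans ?_ hκδ
      apply mul_le_mul_of_nonneg_right _ (by positivity)
      have h7 : (1 - 2 * κ) ≤ μ * Real.log V / ℓ := by
        rw [le_div_iff₀ hℓ0]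
        have h8 : (1 - κ) * ((1 - κ) * ℓ) ≤ μ * Real.log V :=
          mul_le_mul hμ3.le hlV2 (mul_nonneg (by linarith) hℓ0.le) hμpos.le
        have h9 : 0 ≤ κ ^ 2 * ℓ := by positivity
        have e9 : (1 - κ) * ((1 - κ) * ℓ) = (1 - 2 * κ) * ℓ + κ ^ 2 * ℓ := by ring
        linarith
      linarith
    have h5 := block_omE hη hpos hC he4 heδ hδ lK (lv := μ * Real.log V) rfl hk1 hk2 hC' (Bx V)
    obtain ⟨-, h6⟩ := hp V hVV0
    have h7 := (abs_le.1 h6).2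
    have hXV0 : 0 < XV V := by
      unfold Pool.Agent.TH873.EW.XV
      have : 0 < V - 2 := by linarith
      positivity
    have h8 : XV V * (g 0 / μ + 2 * μ * I) ≤ XV V * (mom g + η / 4) :=
      mul_le_mul_of_nonneg_left hμ2.le hXV0.le
    have h9 : 2 * WW (Bx V) (omE g K η e ℓ) ≤ XV V * (mom g + η / 4) + η / 4 * XV V := by
      linarith
    linarith
  have hA : 0 ≤ mom g / 2 + η / 4 := by
    by_contra h
    rw [not_le] at h
    have h5 := hblk (T / 2) (by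
      apply div_le_div_of_nonneg_right _ (by norm_num)
      apply div_le_self hTpos.le
      nlinarith) le_rfl
    have h6 : 0 ≤ WW (Bx (T / 2)) (omE g K η e ℓ) :=
      Finset.sum_nonneg fun n _ => Finset.sum_nonneg fun m _ => hom0 _
    have hT40 : 40 ≤ T := by
      have h7 : T / ℓ ^ 2 ≤ T := div_le_self hTpos.le (by nlinarith)
      linarith
    have h7 : 0 < XV (T / 2) := by
      unfold Pool.Agent.TH873.EW.XV
      have h8 : 0 < T / 2 - 2 := by linarith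
      have h9 : 0 < Real.log (T / 2) := Real.log_pos (by linarith)
      positivity
    nlinarith
  have hjj : ℓ ^ 2 ≤ 2 ^ ⌈ℓ⌉₊ := by
    have h5 := Nat.le_ceil ℓ
    have h6 : 4 ≤ ⌈ℓ⌉₊ := by
      have : (4 : ℝ) ≤ (⌈ℓ⌉₊ : ℝ) := by linarith
      exact_mod_cast this
    have h7 := sq_le_pow _ h6
    have h8 : ℓ ^ 2 ≤ (⌈ℓ⌉₊ : ℝ) ^ 2 := by gcongr
    linarith
  have hfin := assembleE hL hed (C := (K + 1) * C) (A := mom g / 2 + η / 4) (by positivity) hA hom0 homC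
    homS (T := T) hTge (by linarith) (by linarith) hblk ⌈ℓ⌉₊ hjj
  have hceil : (⌈ℓ⌉₊ : ℝ) ≤ 2 * ℓ := by
    have := (Nat.ceil_lt_add_one hℓ0.le).le
    linarith
  have hKC : 0 ≤ ((K : ℝ) + 1) * C := by positivity
  have t1 : (⌈ℓ⌉₊ : ℝ) * (15 * ((K + 1) * C) * L ^ 2 * ℓ ^ 2) ≤ 30 * ((K + 1) * C) * L ^ 2 * ℓ ^ 3 := by
    calc (⌈ℓ⌉₊ : ℝ) * (15 * ((K + 1) * C) * L ^ 2 * ℓ ^ 2) ≤
        (2 * ℓ) * (15 * ((K + 1) * C) * L ^ 2 * ℓ ^ 2) := by gcongr
      _ = _ := by ring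
  have t2 : 3 * ((K + 1) * C) * L ^ 2 * ℓ ^ 2 ≤ 3 * ((K + 1) * C) * L ^ 2 * ℓ ^ 3 := by
    have : ℓ ^ 2 ≤ ℓ ^ 3 := by nlinarith [sq_nonneg ℓ]
    gcongr
  have t3 : 33 * ((K + 1) * C) * L ^ 2 * ℓ ^ 3 ≤ η / 4 * (T / (2 * Real.pi)) := by
    calc 33 * ((K + 1) * C) * L ^ 2 * ℓ ^ 3 ≤ 33 * ((K + 1) * C + 1) * L ^ 2 * ℓ ^ 3 := by
          gcongr
          linarith
      _ ≤ 33 * ((K + 1) * C + 1) * L ^ 2 * (c3 * T) := by gcongr
      _ = η / 4 * (T / (2 * Real.pi)) := by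
          rw [hc3]
          field_simp
  have t4 : η / 4 * (T / (2 * Real.pi)) ≤ η / 4 * (T / (2 * Real.pi) * ℓ) := by
    have : T / (2 * Real.pi) * 1 ≤ T / (2 * Real.pi) * ℓ := by gcongr; linarith
    rw [mul_one] at this
    gcongr
  have t5 : 3 * ((K + 1) * C) * L ^ 2 * T ≤ η / 4 * (T / (2 * Real.pi) * ℓ) := by
    rw [div_le_iff₀ (by positivity)] at lL
    have e1 : η / 4 * (T / (2 * Real.pi) * ℓ) = T / (2 * Real.pi) * (ℓ * (η / 4)) := by ring
    rw [e1]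
    calc 3 * ((K + 1) * C) * L ^ 2 * T = T / (2 * Real.pi) * (3 * ((K + 1) * C) * L ^ 2 * (2 * Real.pi)) := by
          field_simp
      _ ≤ _ := by gcongr
  have e2 : T * ℓ / (2 * Real.pi) = T / (2 * Real.pi) * ℓ := by ring
  rw [e2] at hfin
  have e3 : (mom g / 2 + η) * (T / (2 * Real.pi) * ℓ) =
      (mom g / 2 + η / 4) * (T / (2 * Real.pi) * ℓ) + 3 * (η / 4 * (T / (2 * Real.pi) * ℓ)) := by
    ring
  rw [e3]
  have h0 : 0 ≤ η / 4 * (T / (2 * Real.pi) * ℓ) := by positivity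
  have e4 : 3 * ((K + 1) * C) * L ^ 2 * (T + ℓ ^ 2) = 3 * ((K + 1) * C) * L ^ 2 * T + 3 * ((K + 1) * C) * L ^ 2 * ℓ ^ 2 := by
    ring
  rw [e4] at hfin
  linarith

end Pool.Agent.H792_Atoms
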