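import Pool.Agent.H792_Atoms.KerE
import Pool.Agent.H792_Atoms.UpperE
import Pool.Agent.H792_Atoms.Quad

/-!
# The quadratic inequality for the pair counts around the integers, `0` included
-/

open Filter Set

namespace Pool.Agent.H792_Atoms

open SG (ord)
open W200.HW (Ix mem_Ix)
open Pool.Agent.TH873.EW (ct mom)

lemma WW_add (S : Finset ℕ) (f g : ℝ → ℝ) : WW S (fun d => f d + g d) = WW S f + WW S g := by
  unfold WW
  rw [← Finset.sum_add_distrib]
  apply Finset.sum_congr rfl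
  intro n _
  rw [← Finset.sum_add_distrib]

lemma WW_refl (S : Finset ℕ) (f : ℝ → ℝ) : WW S (fun d => f (-d)) = WW S f := by
  unfold WW
  rw [Finset.sum_comm]
  apply Finset.sum_congr rfl
  intro n _
  apply Finset.sum_congr rfl
  intro m _
  simp only [neg_sub]

/-- the part of the weight near `0` -/
noncomputable def om0 (M e ℓ d : ℝ) : ℝ :=
  if 0 < d then (if |d * ℓ / (2 * Real.pi)| ≤ e then M else 0)
  else if d = 0 then M / 2 else 0

lemma om0_sym {M e ℓ : ℝ} (he : 0 ≤ e) (d : ℝ) : om0 M e ℓ d + om0 M e ℓ (-d) =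
    if |d * ℓ / (2 * Real.pi)| ≤ e then M else 0 := by
  unfold om0
  rcases lt_trichotomy d 0 with h | h | h
  · rw [if_neg (not_lt.2 h.le), if_neg h.ne, if_pos (neg_pos.2 h), zero_add]
    have e1 : -d * ℓ / (2 * Real.pi) = -(d * ℓ / (2 * Real.pi)) := by ring
    rw [e1, abs_neg]
  · subst h
    simp [he]
  · rw [if_pos h, if_neg (not_lt.2 (neg_lt_zero.2 h).le), if_neg (neg_lt_zero.2 h).ne, add_zero]

lemma omE_split (g : ℝ → ℝ) (K : ℕ) (η e ℓ d : ℝ) (he : e ≤ 1 / 4) (hℓ : 0 < ℓ) :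
    omE g K η e ℓ d = om g K η e ℓ d + om0 (max 0 (ct g 0 - η)) e ℓ d := by
  have hpi := Real.pi_pos
  unfold omE om0
  by_cases hd : 0 < d
  · rw [if_pos hd, if_pos hd]
    unfold om
    have e1 : Finset.range (K + 1) = insert 0 (Finset.Icc 1 K) := by
      ext k
      simp only [Finset.mem_range, Finset.mem_insert, Finset.mem_Icc]
      omega
    rw [e1, Finset.sum_insert (by simp), Nat.cast_zero, sub_zero, add_comm]
  · rw [if_neg hd, if_neg hd]
    have e2 : om g K η e ℓ d = 0 := by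
      apply om_zero
      intro k hk h
      rw [Finset.mem_Icc] at hk
      have hk1 : (1 : ℝ) ≤ k := by exact_mod_cast hk.1
      rw [abs_le] at h
      rw [not_lt] at hd
      have : d * ℓ / (2 * Real.pi) ≤ 0 := by
        apply div_nonpos_of_nonpos_of_nonneg _ (by positivity)
        exact mul_nonpos_of_nonpos_of_nonneg hd hℓ.le
      linarith [h.1]
    rw [e2, zero_add]

lemma WW_om0 {T e M : ℝ} (hT : 0 < Real.log T) (he : 0 ≤ e) :
    2 * WW (Ix T) (om0 M e (Real.log T)) = M * (NP T (-e) e : ℝ) := by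
  classical
  have h1 : 2 * WW (Ix T) (om0 M e (Real.log T)) =
      WW (Ix T) (fun d => if |d * Real.log T / (2 * Real.pi)| ≤ e then M else 0) := by
    have h2 : (fun d => if |d * Real.log T / (2 * Real.pi)| ≤ e then M else 0) =
        fun d => om0 M e (Real.log T) d + (fun d => om0 M e (Real.log T) (-d)) d := by
      funext d
      exact (om0_sym he d).symm
    rw [h2, WW_add, WW_refl]
    ring
  rw [h1]
  have h3 := NP_eq (e := e) hT 0
  simp only [Nat.cast_zero, zero_sub, zero_add, sub_zero] at h3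
  unfold WW
  rw [← Finset.sum_product' (Ix T) (Ix T) (fun n m =>
    if |(ord n - ord m) * Real.log T / (2 * Real.pi)| ≤ e then M else 0), h3,
    ← Finset.sum_filter, Finset.sum_const, nsmul_eq_mul, mul_comm]

/-- the quadratic inequality, `0` included -/
lemma quadE (hRH : RiemannHypothesis) (K : ℕ) (m : ℕ → ℝ) (hm : ∀ k, 0 ≤ m k)
    (h : ∀ ε : ℝ, 0 < ε → ∃ᶠ T : ℝ in atTop, ∀ k ∈ Finset.range (K + 1),
      m k * (T / (2 * Real.pi) * Real.log T) ≤ NP T (k - ε) (k + ε)) (b : ℝ) (x : ℕ → ℝ) :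
    m 0 * b ^ 2 + 2 * ∑ k ∈ Finset.Icc 1 K, m k * x k ^ 2 ≤
      4 / 3 * b ^ 2 + 2 * ∑ k ∈ Finset.Icc 1 K, x k ^ 2 * (1 - 1 / (2 * Real.pi ^ 2 * (k : ℝ) ^ 2)) +
      2 * b / Real.pi ^ 2 * ∑ k ∈ Finset.Icc 1 K, x k / (k : ℝ) ^ 2 := by
  have hpi := Real.pi_pos
  have hs : ∀ k ∈ Finset.Icc 1 K, 1 ≤ k := fun k hk => (Finset.mem_Icc.1 hk).1
  have hM : 0 ≤ ∑ k ∈ Finset.Icc 1 K, m k := Finset.sum_nonneg fun k _ => hm k
  have hm0 := hm 0
  rw [← mom_ge _ b x hs]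
  set R := mom (ge (Finset.Icc 1 K) b x) with hR
  apply le_of_forall_pos_le_add
  intro ε hε
  set η : ℝ := ε / (2 + m 0 + 2 * ∑ k ∈ Finset.Icc 1 K, m k) with hη
  have hη0 : 0 < η := by positivity
  obtain ⟨e0, he0, he4, T0, hT0⟩ := pairs_upperE hRH (ge_cd (Finset.Icc 1 K) b x)
    (ge_one (Finset.Icc 1 K) b x) (ct_ge_nonneg (Finset.Icc 1 K) b x hs) K hη0
  obtain ⟨T, hT1, hT2, hT3⟩ :=
    ((h e0 he0).and_eventually ((eventually_ge_atTop T0).and (eventually_ge_atTop 3))).exists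
  have hlog : 0 < Real.log T := Real.log_pos (by linarith)
  have hMT : 0 < T / (2 * Real.pi) * Real.log T := by positivity
  have h1 := hT0 T hT2
  have hsp : omE (ge (Finset.Icc 1 K) b x) K η e0 (Real.log T) = fun d =>
      om (ge (Finset.Icc 1 K) b x) K η e0 (Real.log T) d +
      om0 (max 0 (ct (ge (Finset.Icc 1 K) b x) 0 - η)) e0 (Real.log T) d := by
    funext d
    exact omE_split _ K η e0 _ d he4 hlog
  have h0 := WW_om0 (M := max 0 (ct (ge (Finset.Icc 1 K) b x) 0 - η)) hlog he0.le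
  rw [hsp, WW_add, WW_om hlog] at h1
  rw [ct_ge_zero _ b x hs] at h0 h1
  have h2 : ((b ^ 2 - η) * m 0 + 2 * ∑ k ∈ Finset.Icc 1 K, (x k ^ 2 - η) * m k) *
      (T / (2 * Real.pi) * Real.log T) ≤ (R + 2 * η) * (T / (2 * Real.pi) * Real.log T) := by
    have a1 : (b ^ 2 - η) * m 0 * (T / (2 * Real.pi) * Real.log T) ≤
        max 0 (b ^ 2 - η) * (NP T (-e0) e0 : ℝ) := by
      have h3 : b ^ 2 - η ≤ max 0 (b ^ 2 - η) := le_max_right _ _
      have h4 := hT1 0 (by simp)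
      rw [Nat.cast_zero, zero_sub, zero_add] at h4
      calc (b ^ 2 - η) * m 0 * (T / (2 * Real.pi) * Real.log T) =
          (b ^ 2 - η) * (m 0 * (T / (2 * Real.pi) * Real.log T)) := by ring
        _ ≤ max 0 (b ^ 2 - η) * (m 0 * (T / (2 * Real.pi) * Real.log T)) :=
          mul_le_mul_of_nonneg_right h3 (mul_nonneg hm0 hMT.le)
        _ ≤ _ := mul_le_mul_of_nonneg_left h4 (le_max_left _ _)
    have a2 : (∑ k ∈ Finset.Icc 1 K, (x k ^ 2 - η) * m k) * (T / (2 * Real.pi) * Real.log T) ≤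
        ∑ k ∈ Finset.Icc 1 K, max 0 (ct (ge (Finset.Icc 1 K) b x) k - η) *
          (NP T (k - e0) (k + e0) : ℝ) := by
      rw [Finset.sum_mul]
      apply Finset.sum_le_sum
      intro k hk
      rw [ct_ge_nat _ b x hs hk]
      have h3 : x k ^ 2 - η ≤ max 0 (x k ^ 2 - η) := le_max_right _ _
      have hk' : k ∈ Finset.range (K + 1) := by
        have := Finset.mem_Icc.1 hk
        rw [Finset.mem_range]
        omega
      calc (x k ^ 2 - η) * m k * (T / (2 * Real.pi) * Real.log T) =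
          (x k ^ 2 - η) * (m k * (T / (2 * Real.pi) * Real.log T)) := by ring
        _ ≤ max 0 (x k ^ 2 - η) * (m k * (T / (2 * Real.pi) * Real.log T)) := by
          apply mul_le_mul_of_nonneg_right h3
          exact mul_nonneg (hm k) hMT.le
        _ ≤ _ := mul_le_mul_of_nonneg_left (hT1 k hk') (le_max_left _ _)
    calc ((b ^ 2 - η) * m 0 + 2 * ∑ k ∈ Finset.Icc 1 K, (x k ^ 2 - η) * m k) *
        (T / (2 * Real.pi) * Real.log T) =
        (b ^ 2 - η) * m 0 * (T / (2 * Real.pi) * Real.log T) +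
        2 * ((∑ k ∈ Finset.Icc 1 K, (x k ^ 2 - η) * m k) * (T / (2 * Real.pi) * Real.log T)) := by
          ring
      _ ≤ (R + 2 * η) * (T / (2 * Real.pi) * Real.log T) := by
          rw [← hR] at h1
          have e5 : (R + 2 * η) * (T / (2 * Real.pi) * Real.log T) =
            2 * ((R / 2 + η) * (T / (2 * Real.pi) * Real.log T)) := by ring
          rw [e5]
          linarith
  have h3 := le_of_mul_le_mul_right h2 hMT
  have h4 : ∑ k ∈ Finset.Icc 1 K, (x k ^ 2 - η) * m k =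
      ∑ k ∈ Finset.Icc 1 K, m k * x k ^ 2 - η * ∑ k ∈ Finset.Icc 1 K, m k := by
    rw [Finset.mul_sum, ← Finset.sum_sub_distrib]
    apply Finset.sum_congr rfl
    intro k _
    ring
  rw [h4] at h3
  have h5 : η * (2 + m 0 + 2 * ∑ k ∈ Finset.Icc 1 K, m k) = ε := by
    rw [hη]
    field_simp
  linarith

/-- the inequality for the multiplicities -/
lemma sumE (K : ℕ) (m : ℕ → ℝ)
    (ha : ∀ k ∈ Finset.Icc 1 K, 3 / (2 * Real.pi ^ 2 * (k : ℝ) ^ 2) ≤ 1 - m k)
    (hq : ∀ x : ℕ → ℝ, m 0 * 1 ^ 2 + 2 * ∑ k ∈ Finset.Icc 1 K, m k * x k ^ 2 ≤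
      4 / 3 * 1 ^ 2 + 2 * ∑ k ∈ Finset.Icc 1 K, x k ^ 2 * (1 - 1 / (2 * Real.pi ^ 2 * (k : ℝ) ^ 2)) +
      2 * 1 / Real.pi ^ 2 * ∑ k ∈ Finset.Icc 1 K, x k / (k : ℝ) ^ 2) :
    m 0 + 1 / (2 * Real.pi ^ 2) * ∑ k ∈ Finset.Icc 1 K,
      1 / ((k : ℝ) ^ 2 * (Real.pi ^ 2 * (k : ℝ) ^ 2 * (1 - m k) - 1 / 2)) ≤ 4 / 3 := by
  have hpi := Real.pi_pos
  have hs : ∀ k ∈ Finset.Icc 1 K, 1 ≤ k := fun k hk => (Finset.mem_Icc.1 hk).1
  set a : ℕ → ℝ := fun k => Real.pi ^ 2 * (k : ℝ) ^ 2 * (1 - m k) - 1 / 2 with had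
  have hapos : ∀ k ∈ Finset.Icc 1 K, 1 ≤ a k := by
    intro k hk
    have hk0 : (0 : ℝ) < k := by exact_mod_cast hs k hk
    have h1 := ha k hk
    rw [div_le_iff₀ (by positivity)] at h1
    simp only [had]
    linarith
  have h1 := hq (fun k => -(1 / (2 * a k)))
  have e1 : 2 * ∑ k ∈ Finset.Icc 1 K, (-(1 / (2 * a k))) ^ 2 *
      (1 - 1 / (2 * Real.pi ^ 2 * (k : ℝ) ^ 2)) - 2 * ∑ k ∈ Finset.Icc 1 K,
        m k * (-(1 / (2 * a k))) ^ 2 + 2 * 1 / Real.pi ^ 2 * ∑ k ∈ Finset.Icc 1 K,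
        (-(1 / (2 * a k))) / (k : ℝ) ^ 2 = -(1 / (2 * Real.pi ^ 2) * ∑ k ∈ Finset.Icc 1 K,
      1 / ((k : ℝ) ^ 2 * a k)) := by
    rw [Finset.mul_sum, Finset.mul_sum, Finset.mul_sum, Finset.mul_sum, ← Finset.sum_sub_distrib,
      ← Finset.sum_add_distrib, ← Finset.sum_neg_distrib]
    apply Finset.sum_congr rfl
    intro k hk
    have hk0 : (0 : ℝ) < k := by exact_mod_cast hs k hk
    have h2 := hapos k hk
    have hm' : m k = 1 - (a k + 1 / 2) / (Real.pi ^ 2 * (k : ℝ) ^ 2) := by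
      have h3 : a k + 1 / 2 = Real.pi ^ 2 * (k : ℝ) ^ 2 * (1 - m k) := by
        simp only [had]
        ring
      rw [h3]
      field_simp
      ring
    have hak : a k ≠ 0 := by linarith
    rw [hm']
    generalize a k = A at hak
    field_simp
    ring
  linarith

end Pool.Agent.H792_Atoms
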