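import Pool.Agent.H792_Atoms.KerH
import Pool.Agent.H792_Atoms.UpperH
import Pool.Agent.H792_Atoms.QuadE

/-!
# The quadratic inequality for the pair counts around `0` and the half-integers
-/

open Filter Set

namespace Pool.Agent.H792_Atoms

open SG (ord)
open W200.HW (Ix mem_Ix)
open Pool.Agent.TH873.EW (ct mom)

lemma NP_eqr {T e : ℝ} (hT : 0 < Real.log T) (c : ℝ) :
    (NP T (c - e) (c + e) : ℝ) = (((Ix T ×ˢ Ix T).filter (fun p : ℕ × ℕ =>
      |(ord p.1 - ord p.2) * Real.log T / (2 * Real.pi) - c| ≤ e)).card : ℝ) := by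
  have hpi := Real.pi_pos
  unfold NP
  rw [← Set.ncard_coe_finset]
  congr 2
  ext p
  simp only [Set.mem_ofPred_eq, Finset.coe_filter, Finset.mem_product, mem_Ix]
  have aux : (2 * Real.pi * (c - e) / Real.log T ≤ ord p.1 - ord p.2 ∧
      ord p.1 - ord p.2 ≤ 2 * Real.pi * (c + e) / Real.log T) ↔
      |(ord p.1 - ord p.2) * Real.log T / (2 * Real.pi) - c| ≤ e := by
    rw [abs_le, div_le_iff₀ hT, le_div_iff₀ hT]
    constructor
    · rintro ⟨h1, h2⟩
      constructor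
      · rw [neg_le_sub_iff_le_add, ← sub_le_iff_le_add, le_div_iff₀ (by positivity)]
        linarith
      · rw [sub_le_iff_le_add, div_le_iff₀ (by positivity)]
        linarith
    · rintro ⟨h1, h2⟩
      constructor
      · rw [neg_le_sub_iff_le_add, ← sub_le_iff_le_add, le_div_iff₀ (by positivity)] at h1
        linarith
      · rw [sub_le_iff_le_add, div_le_iff₀ (by positivity)] at h2
        linarith
  exact ⟨fun ⟨h1, h2, h3⟩ => ⟨⟨h1, h2⟩, aux.1 h3⟩, fun ⟨⟨h1, h2⟩, h3⟩ => ⟨h1, h2, aux.2 h3⟩⟩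

lemma NP_mono {T e e' : ℝ} (hT : 0 < Real.log T) (c : ℝ) (h : e ≤ e') :
    (NP T (c - e) (c + e) : ℝ) ≤ NP T (c - e') (c + e') := by
  rw [NP_eqr hT, NP_eqr hT]
  have : ((Ix T ×ˢ Ix T).filter (fun p : ℕ × ℕ =>
      |(ord p.1 - ord p.2) * Real.log T / (2 * Real.pi) - c| ≤ e)).card ≤
      ((Ix T ×ˢ Ix T).filter (fun p : ℕ × ℕ =>
      |(ord p.1 - ord p.2) * Real.log T / (2 * Real.pi) - c| ≤ e')).card := by
    apply Finset.card_le_card
    intro p hp
    rw [Finset.mem_filter] at hp ⊢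
    exact ⟨hp.1, hp.2.trans h⟩
  exact_mod_cast this

/-- the diagonal -/
lemma NP_diag {T e : ℝ} (hT : 0 < Real.log T) (he : 0 ≤ e) :
    ((Ix T).card : ℝ) ≤ NP T (0 - e) (0 + e) := by
  rw [NP_eqr hT]
  have : (Ix T).card ≤ ((Ix T ×ˢ Ix T).filter (fun p : ℕ × ℕ =>
      |(ord p.1 - ord p.2) * Real.log T / (2 * Real.pi) - 0| ≤ e)).card := by
    apply Finset.card_le_card_of_injOn (fun n => (n, n))
    · intro n hn
      rw [Finset.mem_coe] at hn
      rw [Finset.mem_coe, Finset.mem_filter, Finset.mem_product]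
      refine ⟨⟨hn, hn⟩, ?_⟩
      simp [he]
    · intro a _ b _ hab
      exact (Prod.mk.inj hab).1
  exact_mod_cast this

/-- the weight near the half-integers -/
noncomputable def omh (g : ℝ → ℝ) (K : ℕ) (η e ℓ : ℝ) (d : ℝ) : ℝ :=
  ∑ k ∈ Finset.Icc 1 K, if |d * ℓ / (2 * Real.pi) - nu k| ≤ e then max 0 (ct g (nu k) - η) else 0

lemma omH_split (g : ℝ → ℝ) (K : ℕ) (η e ℓ d : ℝ) (he : e ≤ 1 / 8) (hℓ : 0 < ℓ) :
    omH g K η e ℓ d = omh g K η e ℓ d + om0 (max 0 (ct g 0 - η)) e ℓ d := by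
  have hpi := Real.pi_pos
  unfold omH om0
  by_cases hd : 0 < d
  · rw [if_pos hd, if_pos hd]
    unfold omh
    have e1 : Finset.range (K + 1) = insert 0 (Finset.Icc 1 K) := by
      ext k
      simp only [Finset.mem_range, Finset.mem_insert, Finset.mem_Icc]
      omega
    have e2 : cen 0 = 0 := if_pos rfl
    rw [e1, Finset.sum_insert (by simp), e2, sub_zero, add_comm]
    congr 1
    apply Finset.sum_congr rfl
    intro k hk
    have hk1 := (Finset.mem_Icc.1 hk).1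
    have e3 : cen k = nu k := if_neg (by omega)
    rw [e3]
  · rw [if_neg hd, if_neg hd]
    have e2 : omh g K η e ℓ d = 0 := by
      apply Finset.sum_eq_zero
      intro k hk
      rw [if_neg]
      intro h
      have hk1 := (Finset.mem_Icc.1 hk).1
      have hk2 : (1 : ℝ) ≤ k := by exact_mod_cast hk1
      have hnu : 1 / 2 ≤ nu k := by
        unfold nu
        linarith
      rw [abs_le] at h
      rw [not_lt] at hd
      have : d * ℓ / (2 * Real.pi) ≤ 0 := by
        apply div_nonpos_of_nonpos_of_nonneg _ (by positivity)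
        exact mul_nonpos_of_nonpos_of_nonneg hd hℓ.le
      linarith [h.1]
    rw [e2, zero_add]

lemma WW_omh {T e η : ℝ} (hT : 0 < Real.log T) (g : ℝ → ℝ) (K : ℕ) :
    WW (Ix T) (omh g K η e (Real.log T)) =
      ∑ k ∈ Finset.Icc 1 K, max 0 (ct g (nu k) - η) * (NP T (nu k - e) (nu k + e) : ℝ) := by
  classical
  unfold WW omh
  rw [← Finset.sum_product' (Ix T) (Ix T) (fun n m => ∑ k ∈ Finset.Icc 1 K,
    if |(ord n - ord m) * Real.log T / (2 * Real.pi) - nu k| ≤ e then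
      max 0 (ct g (nu k) - η) else 0), Finset.sum_comm]
  apply Finset.sum_congr rfl
  intro k _
  rw [NP_eqr hT (nu k), ← Finset.sum_filter, Finset.sum_const, nsmul_eq_mul, mul_comm]

/-- the quadratic inequality for the half-integers -/
lemma quadH (hRH : RiemannHypothesis) (K : ℕ) {M : ℝ} (hM : 0 ≤ M) (m : ℕ → ℝ) (hm : ∀ k, 0 ≤ m k)
    (h : ∀ ε : ℝ, 0 < ε → ∃ᶠ T : ℝ in atTop,
      (M - ε) * (T / (2 * Real.pi) * Real.log T) ≤ NP T (0 - ε) (0 + ε) ∧
      ∀ k ∈ Finset.Icc 1 K,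
        (m k - ε) * (T / (2 * Real.pi) * Real.log T) ≤ NP T (nu k - ε) (nu k + ε))
    (x : ℕ → ℝ) :
    M * (4 / Real.pi ^ 2 * (∑ k ∈ Finset.Icc 1 K, x k / nu k) ^ 2) +
        2 * ∑ k ∈ Finset.Icc 1 K, m k * x k ^ 2 ≤
      2 * ∑ k ∈ Finset.Icc 1 K, x k ^ 2 * (1 - 1 / (2 * Real.pi ^ 2 * nu k ^ 2)) +
      2 / Real.pi ^ 2 * (∑ k ∈ Finset.Icc 1 K, x k / nu k) ^ 2 := by
  have hpi := Real.pi_pos
  have hs : ∀ k ∈ Finset.Icc 1 K, 1 ≤ k := fun k hk => (Finset.mem_Icc.1 hk).1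
  have hMs : 0 ≤ ∑ k ∈ Finset.Icc 1 K, m k := Finset.sum_nonneg fun k _ => hm k
  rw [← mom_gh _ x hs]
  set R := mom (gh (Finset.Icc 1 K) x) with hR
  set b : ℝ := 4 / Real.pi ^ 2 * (∑ k ∈ Finset.Icc 1 K, x k / nu k) ^ 2 with hb
  have hb0 : 0 ≤ b := by positivity
  have hX : 0 ≤ ∑ k ∈ Finset.Icc 1 K, x k ^ 2 := Finset.sum_nonneg fun k _ => sq_nonneg _
  apply le_of_forall_pos_le_add
  intro ε hε
  set D : ℝ := 2 + M + b + 2 * ∑ k ∈ Finset.Icc 1 K, m k + 2 * ∑ k ∈ Finset.Icc 1 K, x k ^ 2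
    with hD
  have hD0 : 0 < D := by positivity
  set η : ℝ := ε / D with hη
  have hη0 : 0 < η := by positivity
  obtain ⟨e0, he0, he4, T0, hT0⟩ := pairs_upperH hRH (gh_cd (Finset.Icc 1 K) x)
    (gh_one (Finset.Icc 1 K) x hs) (ct_gh_nonneg (Finset.Icc 1 K) x hs) K hη0
  set e1 : ℝ := min e0 η with he1
  have he10 : 0 < e1 := lt_min he0 hη0
  obtain ⟨T, ⟨hT1, hT1'⟩, hT2, hT3⟩ :=
    ((h e1 he10).and_eventually ((eventually_ge_atTop T0).and (eventually_ge_atTop 3))).exists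
  have hlog : 0 < Real.log T := Real.log_pos (by linarith)
  have hMT : 0 < T / (2 * Real.pi) * Real.log T := by positivity
  have h1 := hT0 T hT2
  have hsp : omH (gh (Finset.Icc 1 K) x) K η e0 (Real.log T) = fun d =>
      omh (gh (Finset.Icc 1 K) x) K η e0 (Real.log T) d +
      om0 (max 0 (ct (gh (Finset.Icc 1 K) x) 0 - η)) e0 (Real.log T) d := by
    funext d
    exact omH_split _ K η e0 _ d he4 hlog
  have h0 := WW_om0 (M := max 0 (ct (gh (Finset.Icc 1 K) x) 0 - η)) hlog he0.le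
  rw [hsp, WW_add, WW_omh hlog] at h1
  rw [ct_gh_zero _ x hs] at h0 h1
  rw [← hb] at h0 h1
  rw [← hR] at h1
  have h2 : ((b - η) * M - b * η + 2 * ∑ k ∈ Finset.Icc 1 K, ((x k ^ 2 - η) * m k - x k ^ 2 * η)) *
      (T / (2 * Real.pi) * Real.log T) ≤ (R + 2 * η) * (T / (2 * Real.pi) * Real.log T) := by
    have gen : ∀ w c μ : ℝ, 0 ≤ w → 0 ≤ μ →
        (μ - e1) * (T / (2 * Real.pi) * Real.log T) ≤ NP T (c - e1) (c + e1) →
        ((w - η) * μ - w * η) * (T / (2 * Real.pi) * Real.log T) ≤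
          max 0 (w - η) * (NP T (c - e0) (c + e0) : ℝ) := by
      intro w c μ hw hμ hc
      have b1 : (μ - η) * (T / (2 * Real.pi) * Real.log T) ≤ NP T (c - e0) (c + e0) := by
        have b2 : (NP T (c - e1) (c + e1) : ℝ) ≤ NP T (c - e0) (c + e0) :=
          NP_mono hlog c (min_le_left _ _)
        have b3 : e1 ≤ η := min_le_right _ _
        have b4 : (μ - η) * (T / (2 * Real.pi) * Real.log T) ≤
            (μ - e1) * (T / (2 * Real.pi) * Real.log T) := by
          apply mul_le_mul_of_nonneg_right _ hMT.le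
          linarith
        linarith
      have b5 : 0 ≤ max 0 (w - η) := le_max_left _ _
      rcases le_total w η with hw2 | hw2
      · have b6 : (w - η) * μ - w * η ≤ 0 := by
          have : (w - η) * μ ≤ 0 := mul_nonpos_of_nonpos_of_nonneg (by linarith) hμ
          have : 0 ≤ w * η := by positivity
          linarith
        have b7 : 0 ≤ max 0 (w - η) * (NP T (c - e0) (c + e0) : ℝ) :=
          mul_nonneg b5 (Nat.cast_nonneg _)
        have b8 : ((w - η) * μ - w * η) * (T / (2 * Real.pi) * Real.log T) ≤ 0 :=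
          mul_nonpos_of_nonpos_of_nonneg b6 hMT.le
        linarith
      · have b6 : max 0 (w - η) = w - η := max_eq_right (by linarith)
        rw [b6]
        calc ((w - η) * μ - w * η) * (T / (2 * Real.pi) * Real.log T) ≤
            ((w - η) * (μ - η)) * (T / (2 * Real.pi) * Real.log T) := by
              apply mul_le_mul_of_nonneg_right _ hMT.le
              nlinarith
          _ = (w - η) * ((μ - η) * (T / (2 * Real.pi) * Real.log T)) := by ring
          _ ≤ _ := mul_le_mul_of_nonneg_left b1 (by linarith)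
    have a1 : ((b - η) * M - b * η) * (T / (2 * Real.pi) * Real.log T) ≤
        max 0 (b - η) * (NP T (-e0) e0 : ℝ) := by
      have := gen b 0 M hb0 hM hT1
      rwa [zero_sub, zero_add] at this
    have a2 : (∑ k ∈ Finset.Icc 1 K, ((x k ^ 2 - η) * m k - x k ^ 2 * η)) *
        (T / (2 * Real.pi) * Real.log T) ≤
        ∑ k ∈ Finset.Icc 1 K, max 0 (ct (gh (Finset.Icc 1 K) x) (nu k) - η) *
          (NP T (nu k - e0) (nu k + e0) : ℝ) := by
      rw [Finset.sum_mul]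
      apply Finset.sum_le_sum
      intro k hk
      rw [ct_gh_nu _ x hs hk]
      exact gen (x k ^ 2) (nu k) (m k) (sq_nonneg _) (hm k) (hT1' k hk)
    have e5 : (R + 2 * η) * (T / (2 * Real.pi) * Real.log T) =
      2 * ((R / 2 + η) * (T / (2 * Real.pi) * Real.log T)) := by ring
    rw [e5]
    linarith
  have h3 := le_of_mul_le_mul_right h2 hMT
  have h4 : ∑ k ∈ Finset.Icc 1 K, ((x k ^ 2 - η) * m k - x k ^ 2 * η) =
      ∑ k ∈ Finset.Icc 1 K, m k * x k ^ 2 - η * ∑ k ∈ Finset.Icc 1 K, m k -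
        η * ∑ k ∈ Finset.Icc 1 K, x k ^ 2 := by
    rw [Finset.mul_sum, Finset.mul_sum, ← Finset.sum_sub_distrib, ← Finset.sum_sub_distrib]
    apply Finset.sum_congr rfl
    intro k _
    ring
  rw [h4] at h3
  have h5 : η * D = ε := by
    rw [hη]
    field_simp
  rw [hD] at h5
  linarith

/-- the inequality for the sum over the half-integers -/
lemma sumH (K : ℕ) {M : ℝ} (hM : 1 ≤ M) (m : ℕ → ℝ) (hq : ∀ x : ℕ → ℝ,
    M * (4 / Real.pi ^ 2 * (∑ k ∈ Finset.Icc 1 K, x k / nu k) ^ 2) +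
        2 * ∑ k ∈ Finset.Icc 1 K, m k * x k ^ 2 ≤
      2 * ∑ k ∈ Finset.Icc 1 K, x k ^ 2 * (1 - 1 / (2 * Real.pi ^ 2 * nu k ^ 2)) +
      2 / Real.pi ^ 2 * (∑ k ∈ Finset.Icc 1 K, x k / nu k) ^ 2) :
    (∀ k ∈ Finset.Icc 1 K, (4 * M - 1) / (2 * Real.pi ^ 2 * nu k ^ 2) ≤ 1 - m k) ∧
      (2 * M - 1) * ∑ k ∈ Finset.Icc 1 K,
        1 / (Real.pi ^ 2 * nu k ^ 2 * (1 - m k) - 1 / 2) ≤ 1 := by
  classical
  have hpi := Real.pi_pos
  have hs : ∀ k ∈ Finset.Icc 1 K, 1 ≤ k := fun k hk => (Finset.mem_Icc.1 hk).1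
  have ha : ∀ k ∈ Finset.Icc 1 K, (4 * M - 1) / (2 * Real.pi ^ 2 * nu k ^ 2) ≤ 1 - m k := by
    intro j hj
    have hj0 := nu_pos (hs j hj)
    have h1 := hq (Pi.single j 1)
    have e1 : ∑ k ∈ Finset.Icc 1 K, m k * (Pi.single j 1 : ℕ → ℝ) k ^ 2 = m j := by
      rw [Finset.sum_eq_single j]
      · simp
      · intro k _ hk
        simp [Pi.single_eq_of_ne hk]
      · intro h2
        exact absurd hj h2
    have e2 : ∑ k ∈ Finset.Icc 1 K, (Pi.single j 1 : ℕ → ℝ) k ^ 2 *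
        (1 - 1 / (2 * Real.pi ^ 2 * nu k ^ 2)) = 1 - 1 / (2 * Real.pi ^ 2 * nu j ^ 2) := by
      rw [Finset.sum_eq_single j]
      · simp
      · intro k _ hk
        simp [Pi.single_eq_of_ne hk]
      · intro h2
        exact absurd hj h2
    have e3 : ∑ k ∈ Finset.Icc 1 K, (Pi.single j 1 : ℕ → ℝ) k / nu k = 1 / nu j := by
      rw [Finset.sum_eq_single j]
      · simp
      · intro k _ hk
        simp [Pi.single_eq_of_ne hk]
      · intro h2
        exact absurd hj h2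
    rw [e1, e2, e3] at h1
    have e4 : (4 * M - 1) / (2 * Real.pi ^ 2 * nu j ^ 2) =
        1 / (2 * Real.pi ^ 2 * nu j ^ 2) + (M * (4 / Real.pi ^ 2 * (1 / nu j) ^ 2) -
        2 / Real.pi ^ 2 * (1 / nu j) ^ 2) / 2 := by
      field_simp
      ring
    rw [e4]
    linarith
  refine ⟨ha, ?_⟩
  set a : ℕ → ℝ := fun k => Real.pi ^ 2 * nu k ^ 2 * (1 - m k) - 1 / 2 with had
  have hapos : ∀ k ∈ Finset.Icc 1 K, 0 < a k := by
    intro k hk
    have hk0 := nu_pos (hs k hk)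
    have h1 := ha k hk
    rw [div_le_iff₀ (by positivity)] at h1
    simp only [had]
    linarith
  have h1 := hq (fun k => nu k / a k)
  set S := ∑ k ∈ Finset.Icc 1 K, 1 / a k with hS
  have hS0 : 0 ≤ S := Finset.sum_nonneg fun k hk => by
    have := hapos k hk
    positivity
  have e1 : ∑ k ∈ Finset.Icc 1 K, nu k / a k / nu k = S := by
    apply Finset.sum_congr rfl
    intro k hk
    have hk0 := nu_pos (hs k hk)
    have := hapos k hk
    field_simp
  have e2 : 2 * ∑ k ∈ Finset.Icc 1 K, (nu k / a k) ^ 2 *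
      (1 - 1 / (2 * Real.pi ^ 2 * nu k ^ 2)) -
      2 * ∑ k ∈ Finset.Icc 1 K, m k * (nu k / a k) ^ 2 = 2 / Real.pi ^ 2 * S := by
    rw [hS, Finset.mul_sum, Finset.mul_sum, Finset.mul_sum, ← Finset.sum_sub_distrib]
    apply Finset.sum_congr rfl
    intro k hk
    have hk0 := nu_pos (hs k hk)
    have h2 := hapos k hk
    have hm' : m k = 1 - (a k + 1 / 2) / (Real.pi ^ 2 * nu k ^ 2) := by
      have h3 : a k + 1 / 2 = Real.pi ^ 2 * nu k ^ 2 * (1 - m k) := by
        simp only [had]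
        ring
      rw [h3]
      field_simp
      ring
    have hak : a k ≠ 0 := h2.ne'
    rw [hm']
    generalize a k = A at hak
    field_simp
    ring
  rw [e1] at h1
  have h2 : (2 * M - 1) * (2 / Real.pi ^ 2 * S ^ 2) ≤ 2 / Real.pi ^ 2 * S := by
    have e3 : M * (4 / Real.pi ^ 2 * S ^ 2) - 2 / Real.pi ^ 2 * S ^ 2 =
        (2 * M - 1) * (2 / Real.pi ^ 2 * S ^ 2) := by ring
    linarith
  rcases hS0.eq_or_lt with h4 | h4
  · rw [← h4, mul_zero]
    exact zero_le_one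
  · have h5 : (2 / Real.pi ^ 2 * S) * ((2 * M - 1) * S) ≤ (2 / Real.pi ^ 2 * S) * 1 := by
      calc (2 / Real.pi ^ 2 * S) * ((2 * M - 1) * S) = (2 * M - 1) * (2 / Real.pi ^ 2 * S ^ 2) := by
            ring
        _ ≤ _ := h2
        _ = _ := by ring
    exact le_of_mul_le_mul_left h5 (by positivity)

end Pool.Agent.H792_Atoms
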