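import Pool.Agent.H792_Atoms.Gaps

/-!
# Long runs of gaps near `1`
-/

open Filter Set

namespace Pool.Agent.H792_Atoms

open SG (ord)
open Pool.Agent.Y747 (dl)

/-- the normalised gap with the normalisation `γ log γ / 2π` -/
noncomputable def dt (n : ℕ) : ℝ :=
  (ord (n + 1) * Real.log (ord (n + 1)) - ord n * Real.log (ord n)) / (2 * Real.pi)

lemma dt_dl {ε : ℝ} (hε : 0 < ε) (hε1 : ε ≤ 1) : ∃ n0 : ℕ, ∀ n : ℕ, n0 ≤ n → 1 ≤ n →
    |dt n - 1| ≤ ε / 2 → |dl n - 1| ≤ ε := by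
  have hpi := Real.pi_gt_three
  have hpi4 := Real.pi_lt_four
  have ev : ∀ᶠ n : ℕ in atTop, 3 ≤ ord n ∧ 12 / ε ≤ Real.log (ord n) ∧ 12 ≤ Real.log (ord n) :=
    (SG.ord_tendsto.eventually_ge_atTop 3).and
      (((Real.tendsto_log_atTop.comp SG.ord_tendsto).eventually_ge_atTop _).and
      ((Real.tendsto_log_atTop.comp SG.ord_tendsto).eventually_ge_atTop _))
  obtain ⟨n0, h⟩ := ev.exists_forall_of_atTop
  refine ⟨n0, fun n hn hn1 hd => ?_⟩
  obtain ⟨h3, h12, h12'⟩ := h n hn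
  have hxy : ord n ≤ ord (n + 1) := SG.ord_mono hn1 (by omega)
  have hdl : dl n = (ord (n + 1) - ord n) / (2 * Real.pi) * Real.log (ord n / (2 * Real.pi)) := rfl
  have hdt : dt n = (ord (n + 1) * Real.log (ord (n + 1)) - ord n * Real.log (ord n)) /
      (2 * Real.pi) := rfl
  set x := ord n with hx
  set y := ord (n + 1) with hy
  have hx0 : 0 < x := by linarith
  have hy0 : 0 < y := by linarith
  have hlx : 0 < Real.log x := by linarith
  have hlxy : Real.log x ≤ Real.log y := Real.log_le_log hx0 hxy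
  have hd' := abs_le.1 hd
  have h1 : (y - x) * Real.log x ≤ 2 * Real.pi * dt n := by
    rw [hdt]
    have e : 2 * Real.pi * ((y * Real.log y - x * Real.log x) / (2 * Real.pi)) =
        y * Real.log y - x * Real.log x := by field_simp
    rw [e]
    have : y * Real.log x ≤ y * Real.log y := mul_le_mul_of_nonneg_left hlxy hy0.le
    linarith
  have h2 : dt n ≤ 3 / 2 := by linarith [hd'.2]
  have h4 : (y - x) * Real.log x ≤ 3 * Real.pi := by nlinarith
  have h5 : y - x ≤ 1 := by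
    have : (y - x) * 12 ≤ (y - x) * Real.log x :=
      mul_le_mul_of_nonneg_left h12' (by linarith)
    linarith
  have hlog2 : Real.log (y / x) ≤ (y - x) / x := by
    have := Real.log_le_sub_one_of_pos (div_pos hy0 hx0)
    have e : (y - x) / x = y / x - 1 := by field_simp
    rw [e]
    exact this
  rw [Real.log_div hy0.ne' hx0.ne'] at hlog2
  have h6 : y * (Real.log y - Real.log x) ≤ 2 * (y - x) := by
    have h7 : y * ((y - x) / x) ≤ 2 * (y - x) := by
      rw [← mul_div_assoc, div_le_iff₀ hx0]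
      nlinarith
    exact (mul_le_mul_of_nonneg_left hlog2 hy0.le).trans h7
  have hl2p : Real.log (2 * Real.pi) ≤ 2 := by
    rw [Real.log_le_iff_le_exp (by positivity)]
    have h8 : (2.7 : ℝ) ≤ Real.exp 1 := by
      have := Real.exp_one_gt_d9
      linarith
    have h9 : Real.exp 2 = Real.exp 1 * Real.exp 1 := by
      rw [← Real.exp_add]
      norm_num
    have h10 := Real.pi_lt_d2
    rw [h9]
    nlinarith
  have hl2p0 : 0 ≤ Real.log (2 * Real.pi) := Real.log_nonneg (by linarith)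
  have hD : dt n - dl n = (y * (Real.log y - Real.log x) + (y - x) * Real.log (2 * Real.pi)) /
      (2 * Real.pi) := by
    rw [hdt, hdl, Real.log_div hx0.ne' (by positivity)]
    ring
  have hD0 : 0 ≤ dt n - dl n := by
    rw [hD]
    apply div_nonneg _ (by positivity)
    have : 0 ≤ Real.log y - Real.log x := by linarith
    have : 0 ≤ y - x := by linarith
    positivity
  have hD1 : dt n - dl n ≤ ε / 2 := by
    rw [hD, div_le_iff₀ (by positivity)]
    have h8 : (y - x) * Real.log (2 * Real.pi) ≤ (y - x) * 2 :=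
      mul_le_mul_of_nonneg_left hl2p (by linarith)
    have h9 : (y - x) * (12 / ε) ≤ 3 * Real.pi :=
      (mul_le_mul_of_nonneg_left h12 (by linarith)).trans h4
    have h10 : y - x ≤ 3 * Real.pi * (ε / 12) := by
      have e : (y - x) = (y - x) * (12 / ε) * (ε / 12) := by field_simp
      rw [e]
      gcongr
    nlinarith
  rw [abs_le]
  constructor <;> linarith [hd'.1, hd'.2]

lemma tele (K : ℕ) : ∑ k ∈ Finset.Icc 1 K, 2 / (4 * (k : ℝ) ^ 2 - 1) =
    1 - 1 / (2 * (K : ℝ) + 1) := by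
  induction K with
  | zero => simp
  | succ K ih =>
    rw [Finset.sum_Icc_succ_top (by omega), ih]
    have hK : (0 : ℝ) ≤ K := Nat.cast_nonneg K
    push_cast
    have e1 : 4 * ((K : ℝ) + 1) ^ 2 - 1 = (2 * K + 1) * (2 * K + 3) := by ring
    have e2 : 2 * ((K : ℝ) + 1) + 1 = 2 * K + 3 := by ring
    rw [e1, e2]
    have h1 : (2 * (K : ℝ) + 1) ≠ 0 := by positivity
    have h2 : (2 * (K : ℝ) + 3) ≠ 0 := by positivity
    field_simp
    ring

/-- long runs: the share of the indices is at most `1 - 2 / π²` -/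
theorem runs (hRH : RiemannHypothesis) {q : ℝ} (hq : 1 - 2 / Real.pi ^ 2 < q) :
    ∃ K : ℕ, ∃ ε : ℝ, 0 < ε ∧ ∀ᶠ N : ℕ in atTop,
      ({n : ℕ | 1 ≤ n ∧ n ≤ N ∧ ∀ i, i < K → |dt (n + i) - 1| ≤ ε}.ncard : ℝ) ≤ q * N := by
  classical
  have hpi := Real.pi_pos
  by_contra hcon
  push Not at hcon
  obtain ⟨q', hq1, hq2⟩ := exists_between hq
  -- the sums are at most one
  have key : ∀ K : ℕ, (∀ k ∈ Finset.Icc 1 K, 3 / (2 * Real.pi ^ 2 * (k : ℝ) ^ 2) ≤ 1 - q') ∧
      ∑ k ∈ Finset.Icc 1 K, 1 / (Real.pi ^ 2 * (k : ℝ) ^ 2 * (1 - q') - 1 / 2) ≤ 1 := by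
    intro K
    apply quad_sum K (fun _ => q')
    apply gap_quad hRH K (fun _ => q')
    intro ε hε
    set ε1 : ℝ := min ε 1 with hε1
    have hε10 : 0 < ε1 := lt_min hε one_pos
    obtain ⟨n0, hn0⟩ := dt_dl hε10 (min_le_right _ _)
    have ev : ∀ᶠ N : ℕ in atTop, (n0 : ℝ) / (q - q') ≤ N :=
      tendsto_natCast_atTop_atTop.eventually_ge_atTop _
    refine ((hcon K (ε1 / 2) (by positivity)).and_eventually ev).mono ?_
    rintro N ⟨h1, h2⟩ j hj
    rw [Finset.mem_Icc] at hj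
    have hqq : 0 < q - q' := by linarith
    rw [div_le_iff₀ hqq] at h2
    have hsub : {n : ℕ | 1 ≤ n ∧ n ≤ N ∧ ∀ i, i < K → |dt (n + i) - 1| ≤ ε1 / 2} ⊆
        ((Finset.range n0 ∪ Rn N ε j : Finset ℕ) : Set ℕ) := by
      rintro n ⟨a1, a2, a3⟩
      rw [Finset.mem_coe, Finset.mem_union]
      by_cases hn : n < n0
      · exact Or.inl (Finset.mem_range.2 hn)
      · right
        unfold Rn
        rw [Finset.mem_filter, Finset.mem_Icc]
        refine ⟨⟨a1, a2⟩, fun i hi => ?_⟩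
        exact (hn0 (n + i) (by omega) (by omega) (a3 i (by omega))).trans (min_le_left _ _)
    have h3 := Set.ncard_le_ncard hsub (Finset.finite_toSet _)
    rw [Set.ncard_coe_finset] at h3
    have h4 : ({n : ℕ | 1 ≤ n ∧ n ≤ N ∧ ∀ i, i < K → |dt (n + i) - 1| ≤ ε1 / 2}.ncard : ℝ) ≤
        n0 + (Rn N ε j).card := by
      have h5 := h3.trans (Finset.card_union_le _ _)
      rw [Finset.card_range] at h5
      exact_mod_cast h5
    nlinarith
  set y : ℝ := Real.pi ^ 2 * (1 - q') with hy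
  have hy2 : y < 2 := by
    have : 1 - q' < 2 / Real.pi ^ 2 := by linarith
    rw [lt_div_iff₀ (by positivity)] at this
    rw [hy]
    linarith
  have hy1 : 3 / 2 ≤ y := by
    have h1 := (key 1).1 1 (by simp)
    rw [Nat.cast_one, one_pow, mul_one, div_le_iff₀ (by positivity)] at h1
    rw [hy]
    linarith
  set d : ℝ := 1 / (y - 1 / 2) - 2 / 3 with hd
  have hd0 : 0 < d := by
    rw [hd, sub_pos, lt_div_iff₀ (by linarith)]
    linarith
  obtain ⟨K, hK⟩ := exists_nat_gt (1 / d)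
  have hK0 : (0 : ℝ) < K := lt_trans (by positivity) hK
  have hK1 : 1 ≤ K := by exact_mod_cast (Nat.succ_le_of_lt (by exact_mod_cast hK0))
  have h1 := (key K).2
  have h2 : ∑ k ∈ Finset.Icc 1 K, (2 / (4 * (k : ℝ) ^ 2 - 1) + if k = 1 then d else 0) ≤
      ∑ k ∈ Finset.Icc 1 K, 1 / (Real.pi ^ 2 * (k : ℝ) ^ 2 * (1 - q') - 1 / 2) := by
    apply Finset.sum_le_sum
    intro k hk
    rw [Finset.mem_Icc] at hk
    have hk1 : (1 : ℝ) ≤ k := by exact_mod_cast hk.1
    have e1 : Real.pi ^ 2 * (k : ℝ) ^ 2 * (1 - q') - 1 / 2 = y * (k : ℝ) ^ 2 - 1 / 2 := by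
      rw [hy]; ring
    rw [e1]
    split_ifs with h
    · subst h
      rw [hd]
      norm_num
    · rw [add_zero]
      have e2 : 2 / (4 * (k : ℝ) ^ 2 - 1) = 1 / (2 * (k : ℝ) ^ 2 - 1 / 2) := by
        have h3 : (4 * (k : ℝ) ^ 2 - 1) ≠ 0 := by nlinarith
        have h4 : (2 * (k : ℝ) ^ 2 - 1 / 2) ≠ 0 := by nlinarith
        rw [div_eq_div_iff h3 h4]
        ring
      rw [e2]
      apply one_div_le_one_div_of_le
      · nlinarith
      · nlinarith
  have h3 : ∑ k ∈ Finset.Icc 1 K, (2 / (4 * (k : ℝ) ^ 2 - 1) + if k = 1 then d else 0) =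
      1 - 1 / (2 * (K : ℝ) + 1) + d := by
    rw [Finset.sum_add_distrib, tele, Finset.sum_ite_eq' (Finset.Icc 1 K) 1 (fun _ => d)]
    simp [hK1]
  have h4 : 1 / (2 * (K : ℝ) + 1) < d := by
    rw [div_lt_iff₀ (by positivity)]
    rw [div_lt_iff₀ hd0] at hK
    nlinarith
  linarith

end Pool.Agent.H792_Atoms
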