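import Pool.Agent.H792_Atoms.Gaps

/-!
# Single gaps near `1`
-/

open Filter Set

namespace Pool.Agent.H792_Atoms

open Pool.Agent.Y747 (dl)

/-- the indices `n ≤ N` whose normalised gap is not within `ε` of `1` -/
noncomputable def Bd (N : ℕ) (ε : ℝ) : Finset ℕ :=
  open Classical in (Finset.Icc 1 N).filter (fun n => ¬ |dl n - 1| ≤ ε)

lemma Bd_shift (N : ℕ) (ε : ℝ) (i : ℕ) :
    (open Classical in ((Finset.Icc 1 N).filter (fun n => ¬ |dl (n + i) - 1| ≤ ε)).card) ≤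
      (Bd N ε).card + i := by
  classical
  have h1 : ((Finset.Icc 1 N).filter (fun n => ¬ |dl (n + i) - 1| ≤ ε)).card ≤
      (Bd N ε ∪ Finset.Icc (N + 1) (N + i)).card := by
    apply Finset.card_le_card_of_injOn (fun n => n + i)
    · intro n hn
      rw [Finset.mem_coe, Finset.mem_filter, Finset.mem_Icc] at hn
      obtain ⟨⟨h1, h2⟩, h3⟩ := hn
      rw [Finset.mem_coe, Finset.mem_union]
      simp only
      by_cases h : n + i ≤ N
      · left
        unfold Bd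
        rw [Finset.mem_filter, Finset.mem_Icc]
        exact ⟨⟨by omega, h⟩, h3⟩
      · right
        rw [Finset.mem_Icc]
        omega
    · intro a _ b _ hab
      simp only at hab
      omega
  refine h1.trans ((Finset.card_union_le _ _).trans ?_)
  rw [Nat.card_Icc]
  omega

lemma Rn_ge (N : ℕ) (ε : ℝ) (j : ℕ) :
    (N : ℝ) ≤ ((Rn N ε j).card : ℝ) + j * ((Bd N ε).card + j) := by
  classical
  have hsub : Finset.Icc 1 N ⊆ Rn N ε j ∪ (Finset.range j).biUnion (fun i =>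
      (Finset.Icc 1 N).filter (fun n => ¬ |dl (n + i) - 1| ≤ ε)) := by
    intro n hn
    rw [Finset.mem_union]
    by_cases h : ∀ i, i < j → |dl (n + i) - 1| ≤ ε
    · left
      unfold Rn
      rw [Finset.mem_filter]
      exact ⟨hn, h⟩
    · right
      push Not at h
      obtain ⟨i, hi, h⟩ := h
      rw [Finset.mem_biUnion]
      exact ⟨i, Finset.mem_range.2 hi, Finset.mem_filter.2 ⟨hn, not_le.2 h⟩⟩
  have h1 := (Finset.card_le_card hsub).trans (Finset.card_union_le _ _)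
  have h2 : ((Finset.range j).biUnion (fun i =>
      (Finset.Icc 1 N).filter (fun n => ¬ |dl (n + i) - 1| ≤ ε))).card ≤
      j * ((Bd N ε).card + j) := by
    refine Finset.card_biUnion_le.trans ?_
    calc ∑ i ∈ Finset.range j, ((Finset.Icc 1 N).filter (fun n => ¬ |dl (n + i) - 1| ≤ ε)).card ≤
        ∑ i ∈ Finset.range j, ((Bd N ε).card + j) := by
          apply Finset.sum_le_sum
          intro i hi
          rw [Finset.mem_range] at hi
          have := Bd_shift N ε i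
          omega
      _ = j * ((Bd N ε).card + j) := by rw [Finset.sum_const, Finset.card_range, smul_eq_mul]
  rw [Nat.card_Icc, Nat.add_sub_cancel] at h1
  have h3 : N ≤ (Rn N ε j).card + j * ((Bd N ε).card + j) := by omega
  exact_mod_cast h3

lemma Bd_card (N : ℕ) (ε : ℝ) :
    ((Bd N ε).card : ℝ) = N - ({n : ℕ | 1 ≤ n ∧ n ≤ N ∧ dl n ∈ Icc (1 - ε) (1 + ε)}.ncard : ℝ) := by
  classical
  have h1 := Finset.card_filter_add_card_filter_not (s := Finset.Icc 1 N)
    (fun n : ℕ => |dl n - 1| ≤ ε)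
  rw [Nat.card_Icc, Nat.add_sub_cancel] at h1
  have h2 : {n : ℕ | 1 ≤ n ∧ n ≤ N ∧ dl n ∈ Icc (1 - ε) (1 + ε)} =
      (((Finset.Icc 1 N).filter (fun n : ℕ => |dl n - 1| ≤ ε) : Finset ℕ) : Set ℕ) := by
    ext n
    rw [Finset.coe_filter, Set.mem_ofPred_eq, Set.mem_ofPred_eq, Finset.mem_Icc, Set.mem_Icc,
      abs_le, and_assoc]
    refine and_congr_right fun _ => and_congr_right fun _ => ?_
    constructor
    · rintro ⟨h3, h4⟩
      exact ⟨by linarith, by linarith⟩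
    · rintro ⟨h3, h4⟩
      exact ⟨by linarith, by linarith⟩
  rw [h2, Set.ncard_coe_finset]
  unfold Bd
  have h3 : ((((Finset.Icc 1 N).filter (fun n : ℕ => |dl n - 1| ≤ ε)).card : ℕ) : ℝ) +
      ((((Finset.Icc 1 N).filter (fun n : ℕ => ¬ |dl n - 1| ≤ ε)).card : ℕ) : ℝ) = N := by
    exact_mod_cast h1
  linarith

/-- the shares of runs -/
noncomputable def qs (k : ℕ) : ℝ := if k ≤ 5 then 1 - k / 6 - 1 / 100000 else 0

lemma qs_sum : 1 < ∑ k ∈ Finset.Icc (1 : ℕ) 14, 1 / (Real.pi ^ 2 * (k : ℝ) ^ 2 * (1 - qs k) - 1 / 2) := by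
  have h1 := Real.pi_gt_d6
  have h2 := Real.pi_lt_d6
  have hp : Real.pi ^ 2 ≤ 9.8697 := by nlinarith
  have hp' : 9.8695 ≤ Real.pi ^ 2 := by nlinarith
  have key : ∀ c : ℝ, 1 / 6 ≤ c → 1 / (9.8697 * c - 1 / 2) ≤ 1 / (Real.pi ^ 2 * c - 1 / 2) := by
    intro c hc
    apply one_div_le_one_div_of_le
    · nlinarith
    · nlinarith
  have hterm : ∀ k ∈ Finset.Icc (1 : ℕ) 14, 1 / (9.8697 * ((k : ℝ) ^ 2 * (1 - qs k)) - 1 / 2) ≤
      1 / (Real.pi ^ 2 * (k : ℝ) ^ 2 * (1 - qs k) - 1 / 2) := by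
    intro k hk
    rw [Finset.mem_Icc] at hk
    have hk1 : (1 : ℝ) ≤ k := by exact_mod_cast hk.1
    have hq : 1 / 6 ≤ 1 - qs k := by
      unfold qs
      split_ifs
      · linarith
      · norm_num
    rw [mul_assoc]
    apply key
    nlinarith
  refine lt_of_lt_of_le ?_ (Finset.sum_le_sum hterm)
  simp only [Finset.sum_Icc_succ_top (by norm_num : 1 ≤ 13 + 1),
    Finset.sum_Icc_succ_top (by norm_num : 1 ≤ 12 + 1),
    Finset.sum_Icc_succ_top (by norm_num : 1 ≤ 11 + 1),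
    Finset.sum_Icc_succ_top (by norm_num : 1 ≤ 10 + 1),
    Finset.sum_Icc_succ_top (by norm_num : 1 ≤ 9 + 1),
    Finset.sum_Icc_succ_top (by norm_num : 1 ≤ 8 + 1),
    Finset.sum_Icc_succ_top (by norm_num : 1 ≤ 7 + 1),
    Finset.sum_Icc_succ_top (by norm_num : 1 ≤ 6 + 1),
    Finset.sum_Icc_succ_top (by norm_num : 1 ≤ 5 + 1),
    Finset.sum_Icc_succ_top (by norm_num : 1 ≤ 4 + 1),
    Finset.sum_Icc_succ_top (by norm_num : 1 ≤ 3 + 1),
    Finset.sum_Icc_succ_top (by norm_num : 1 ≤ 2 + 1),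
    Finset.sum_Icc_succ_top (by norm_num : 1 ≤ 1 + 1), Finset.Icc_self, Finset.sum_singleton]
  unfold qs
  norm_num

/-- at most `5 / 6` of the gaps are near `1` -/
theorem near_one (hRH : RiemannHypothesis) : ∃ ε : ℝ, 0 < ε ∧ ∀ᶠ N : ℕ in atTop,
    ({n : ℕ | 1 ≤ n ∧ n ≤ N ∧ dl n ∈ Icc (1 - ε) (1 + ε)}.ncard : ℝ) ≤ 5 / 6 * N := by
  by_contra hcon
  push Not at hcon
  have h : ∀ ε : ℝ, 0 < ε → ∃ᶠ N : ℕ in atTop, ∀ j ∈ Finset.Icc 1 14,
      qs j * N ≤ (Rn N ε j).card := by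
    intro ε hε
    have h1 := hcon ε hε
    have ev : ∀ᶠ N : ℕ in atTop, (25 * 100000 : ℝ) ≤ (N : ℝ) :=
      tendsto_natCast_atTop_atTop.eventually_ge_atTop _
    refine (h1.and_eventually ev).mono ?_
    rintro N ⟨h2, h3⟩ j hj
    rw [Finset.mem_Icc] at hj
    have hb := Bd_card N ε
    have hR := Rn_ge N ε j
    unfold qs
    split_ifs with h5
    · have hj5 : (j : ℝ) ≤ 5 := by exact_mod_cast h5
      have hj1 : (1 : ℝ) ≤ j := by exact_mod_cast hj.1
      have hB : ((Bd N ε).card : ℝ) ≤ N / 6 := by linarith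
      have h6 : (j : ℝ) * ((Bd N ε).card + j) ≤ j * (N / 6 + 5) := by gcongr
      nlinarith
    · rw [zero_mul]
      exact Nat.cast_nonneg _
  have hq := gap_quad hRH 14 qs h
  have h2 := (quad_sum 14 qs hq).2
  linarith [qs_sum]

end Pool.Agent.H792_Atoms
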